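import Pool.Agent.W_MP_b45167_pr.Binomial

/-!
# Monotonicity of entropy along the binomial semigroup
-/

namespace Pool.Agent.W_MP_b45167_pr

open Finset

set_option linter.unusedSectionVars false

variable {G : Type*} [AddCommGroup G]

/-- Entropy after adding binomial noise. -/
noncomputable def hB (g : G) (v : MA G) (M : ℕ) : ℝ := H (v * bern g ^ M)

/-- Increment. -/
noncomputable def dh (g : G) (v : MA G) (M : ℕ) : ℝ := hB g v (M + 1) - hB g v M

variable {g : G} {v : MA G}

theorem dh_eq (M : ℕ) :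
    dh g v M = H ((v * bern g ^ M) * bern g) - H (v * bern g ^ M) := by
  unfold dh hB
  rw [pow_succ, mul_assoc]

theorem dh_nonneg (hv : IsProb v) (M : ℕ) : 0 ≤ dh g v M := by
  rw [dh_eq]
  have := H_le_H_mul' (hv.mul ((IsProb.bern g).pow M)) (IsProb.bern g)
  linarith

theorem dh_antitone (hv : IsProb v) : Antitone (dh g v) := by
  apply antitone_nat_of_succ_le
  intro M
  have h := submod (IsProb.bern g) (hv.mul ((IsProb.bern g).pow M)) (IsProb.bern g)
  have e1 : bern g * (v * bern g ^ M) * bern g = v * bern g ^ (M + 1 + 1) := by ring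
  have e2 : bern g * (v * bern g ^ M) = v * bern g ^ (M + 1) := by ring
  have e3 : v * bern g ^ M * bern g = v * bern g ^ (M + 1) := by ring
  rw [e1, e2, e3] at h
  unfold dh hB
  linarith

theorem hB_add_le (hv : IsProb v) (M k : ℕ) :
    hB g v (M + k) - hB g v M ≤ k * dh g v M := by
  induction k with
  | zero => simp
  | succ k ih =>
    have h1 : dh g v (M + k) ≤ dh g v M := dh_antitone hv (Nat.le_add_right M k)
    have h2 : hB g v (M + (k + 1)) - hB g v (M + k) = dh g v (M + k) := rfl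
    push_cast
    linarith

theorem hB_add_ge (hv : IsProb v) (M k : ℕ) :
    k * dh g v (M + k) ≤ hB g v (M + k) - hB g v M := by
  have key : ∀ i, i ≤ k → (i : ℝ) * dh g v (M + k) ≤ hB g v (M + i) - hB g v M := by
    intro i
    induction i with
    | zero => intro _; simp
    | succ i ih =>
      intro hi
      have h0 := ih (by omega)
      have h1 : dh g v (M + k) ≤ dh g v (M + i) := dh_antitone hv (by omega)
      have h2 : hB g v (M + (i + 1)) - hB g v (M + i) = dh g v (M + i) := rfl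
      push_cast
      linarith
  exact key k le_rfl

theorem K2_bound (hg : InfOrder g) (hv : IsProb v) (M : ℕ) :
    Kφ (fun t => t ^ 2) g (v * bern g ^ M) ≤ 1 / (M + 1) := by
  rw [← K2_bern_pow hg M]
  exact K2_mul_le g hv ((IsProb.bern g).pow M).pos

theorem K4_bound (hg : InfOrder g) (hv : IsProb v) (M : ℕ) :
    Kφ (fun t => t ^ 4) g (v * bern g ^ M) ≤ 3 / (M + 1) ^ 2 :=
  (K4_mul_le g hv ((IsProb.bern g).pow M).pos).trans (K4_bern_pow hg M)

theorem dh_le (hg : InfOrder g) (hv : IsProb v) (M : ℕ) :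
    dh g v M ≤ 1 / 2 * Kφ (fun t => t ^ 2) g (v * bern g ^ M) + 1 / (M + 1) ^ 2 := by
  rw [dh_eq]
  have h1 := (H_bern_bounds g (hv.mul ((IsProb.bern g).pow M))).2
  have h2 := K4_bound hg hv M
  have h3 : (1 : ℝ) / 3 * (3 / (M + 1) ^ 2) = 1 / (M + 1) ^ 2 := by ring
  linarith

theorem dh_ge (hv : IsProb v) (M : ℕ) :
    1 / 2 * Kφ (fun t => t ^ 2) g (v * bern g ^ M) ≤ dh g v M := by
  rw [dh_eq]
  exact (H_bern_bounds g (hv.mul ((IsProb.bern g).pow M))).1

/-- The entropy of the binomial measure grows at least like half the logarithm. -/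
theorem binom_growth (hg : InfOrder g) {M N : ℕ} (h : M ≤ N) :
    H (bern g ^ M) + 1 / 2 * (Real.log (N + 1) - Real.log (M + 1)) ≤ H (bern g ^ N) := by
  induction N, h using Nat.le_induction with
  | base => simp
  | succ N _ ih =>
    have h1 := dh_ge (g := g) (IsProb.one : IsProb (1 : MA G)) N
    rw [one_mul, K2_bern_pow hg] at h1
    have h2 : dh g (1 : MA G) N = H (bern g ^ (N + 1)) - H (bern g ^ N) := by
      unfold dh hB; rw [one_mul, one_mul]
    rw [h2] at h1
    have hN : (0 : ℝ) < N + 1 := by positivity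
    have h3 : Real.log (((N + 1 : ℕ) : ℝ) + 1) - Real.log (N + 1) ≤ 1 / (N + 1) := by
      rw [← Real.log_div (by positivity) hN.ne']
      have h4 := Real.log_le_sub_one_of_pos (x := (((N + 1 : ℕ) : ℝ) + 1) / (N + 1))
        (by positivity)
      refine h4.trans (le_of_eq ?_)
      push_cast
      field_simp
      ring
    linarith

/-- **Monotonicity of entropy** in the presence of binomial noise. -/
theorem abbn (hg : InfOrder g) {μ : MA G} (hμ : IsProb μ) (m : ℕ) {L : ℕ} (hL : 1 ≤ L) :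
    hB g (μ ^ (m + 1)) ((m + 1) * L) +
      1 / 2 * (Real.log ((m : ℝ) + 2) - Real.log ((m : ℝ) + 1)) - 4 / L ≤
      hB g (μ ^ (m + 2)) ((m + 2) * L) := by
  set va := μ ^ (m + 2) with hva
  set vb := μ ^ (m + 1) with hvb
  have hvap : IsProb va := hμ.pow _
  have hvbp : IsProb vb := hμ.pow _
  set D : ℕ → ℝ := fun j => hB g va ((m + 2) * j) - hB g vb ((m + 1) * j) with hD
  set Ψ : ℕ → ℝ := fun j => D j + (m + 1) * dh g vb ((m + 1) * j) + 2 / j with hΨ
  -- one step
  have step : ∀ j : ℕ, 1 ≤ j → Ψ (j + 1) ≤ Ψ j := by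
    intro j hj
    have hj' : (1 : ℝ) ≤ j := by exact_mod_cast hj
    have hj0 : (0 : ℝ) < j := by linarith
    -- increments
    have s1 : hB g va ((m + 2) * (j + 1)) - hB g va ((m + 2) * j) ≤
        (m + 2) * dh g va ((m + 2) * j) := by
      have := hB_add_le (g := g) hvap ((m + 2) * j) (m + 2)
      have e : (m + 2) * (j + 1) = (m + 2) * j + (m + 2) := by ring
      rw [e]
      push_cast at this
      exact this
    have s2 : (m + 1) * dh g vb ((m + 1) * (j + 1)) ≤
        hB g vb ((m + 1) * (j + 1)) - hB g vb ((m + 1) * j) := by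
      have := hB_add_ge (g := g) hvbp ((m + 1) * j) (m + 1)
      have e : (m + 1) * (j + 1) = (m + 1) * j + (m + 1) := by ring
      rw [e]
      push_cast at this
      exact this
    -- variance drop
    have s3 := variance_drop g (hμ.mul ((IsProb.bern g).pow j)) m
    have ea : (μ * bern g ^ j) ^ (m + 2) = va * bern g ^ ((m + 2) * j) := by
      rw [hva, mul_pow, ← pow_mul, mul_comm j]
    have eb : (μ * bern g ^ j) ^ (m + 1) = vb * bern g ^ ((m + 1) * j) := by
      rw [hvb, mul_pow, ← pow_mul, mul_comm j]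
    rw [ea, eb] at s3
    have s4 := dh_le hg hvap ((m + 2) * j)
    have s5 := dh_ge (g := g) hvbp ((m + 1) * j)
    have s6 := K2_bound hg hvbp ((m + 1) * j)
    have s7 := K2_nonneg g (hvbp.mul ((IsProb.bern g).pow ((m + 1) * j))).pos
    set Ka := Kφ (fun t => t ^ 2) g (va * bern g ^ ((m + 2) * j))
    set Kb := Kφ (fun t => t ^ 2) g (vb * bern g ^ ((m + 1) * j))
    -- error terms
    have hm0 : (0 : ℝ) ≤ m := Nat.cast_nonneg m
    have e1 : Kb ^ 2 ≤ 1 / (j : ℝ) ^ 2 := by
      have h1 : Kb ≤ 1 / j := by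
        refine s6.trans ?_
        apply one_div_le_one_div_of_le hj0
        push_cast
        nlinarith
      have h2 : Kb ^ 2 ≤ (1 / (j : ℝ)) ^ 2 := pow_le_pow_left₀ s7 h1 2
      rw [div_pow, one_pow] at h2
      exact h2
    have e2 : ((m : ℝ) + 2) * (1 / ((((m + 2) * j : ℕ) : ℝ) + 1) ^ 2) ≤ 1 / 2 * (1 / (j : ℝ) ^ 2) := by
      push_cast
      have e0 : (1 : ℝ) / 2 * (1 / (j : ℝ) ^ 2) = 1 / (2 * (j : ℝ) ^ 2) := by
        field_simp
      rw [mul_one_div, e0, div_le_div_iff₀ (by positivity) (by positivity)]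
      have h1 : (((m : ℝ) + 2) * j) ^ 2 ≤ (((m : ℝ) + 2) * j + 1) ^ 2 := by
        apply pow_le_pow_left₀ (by positivity)
        linarith
      have h2 : ((m : ℝ) + 2) * (2 * (j : ℝ) ^ 2) ≤ (((m : ℝ) + 2) * j) ^ 2 := by
        have : (((m : ℝ) + 2) * j) ^ 2 = ((m : ℝ) + 2) * ((m + 2) * (j : ℝ) ^ 2) := by ring
        rw [this]
        apply mul_le_mul_of_nonneg_left _ (by positivity)
        nlinarith [sq_nonneg (j : ℝ)]
      linarith
    have e3 : 1 / (j : ℝ) ^ 2 ≤ 2 / j - 2 / ((j + 1 : ℕ) : ℝ) := by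
      push_cast
      rw [div_sub_div _ _ hj0.ne' (by positivity), div_le_div_iff₀ (by positivity) (by positivity)]
      nlinarith
    have s8 : ((m : ℝ) + 2) * dh g va ((m + 2) * j) ≤
        (m + 1) * dh g vb ((m + 1) * j) + 1 / (j : ℝ) ^ 2 := by
      have h1 : ((m : ℝ) + 2) * dh g va ((m + 2) * j) ≤
          ((m : ℝ) + 2) * (1 / 2 * Ka + 1 / ((((m + 2) * j : ℕ) : ℝ) + 1) ^ 2) :=
        mul_le_mul_of_nonneg_left s4 (by positivity)
      have h2 : ((m : ℝ) + 1) * (1 / 2 * Kb) ≤ ((m : ℝ) + 1) * dh g vb ((m + 1) * j) :=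
        mul_le_mul_of_nonneg_left s5 (by positivity)
      nlinarith
    simp only [hΨ, hD]
    linarith
  -- monotonicity of Ψ
  have mono : ∀ R, L ≤ R → Ψ R ≤ Ψ L := by
    intro R hR
    induction R, hR using Nat.le_induction with
    | base => exact le_rfl
    | succ R hR ih => exact (step R (le_trans hL hR)).trans ih
  -- the antitone sequence
  set c : ℕ → ℝ := fun M => hB g vb M - H (bern g ^ M) with hc
  have hcanti : Antitone c := by
    apply antitone_nat_of_succ_le
    intro M
    have h := submod hvbp ((IsProb.bern g).pow M) (IsProb.bern g)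
    simp only [hc, hB]
    rw [← pow_succ, mul_assoc, ← pow_succ] at h
    linarith
  have hcbdd : BddBelow (Set.range c) := by
    refine ⟨0, ?_⟩
    rintro _ ⟨M, rfl⟩
    simp only [hc, hB]
    have := H_le_H_mul hvbp ((IsProb.bern g).pow M)
    linarith
  have hclim := tendsto_atTop_ciInf hcanti hcbdd
  set ℓ := ⨅ i, c i with hℓ
  have hcge : ∀ M, ℓ ≤ c M := fun M => ciInf_le hcbdd M
  -- the bound at L
  have hLR : (1 : ℝ) ≤ L := by exact_mod_cast hL
  have hL0 : (0 : ℝ) < L := by linarith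
  have hm0 : (0 : ℝ) ≤ m := Nat.cast_nonneg m
  have hΨL : Ψ L ≤ D L + 4 / L := by
    simp only [hΨ]
    have h1 := dh_le hg hvbp ((m + 1) * L)
    have h2 := K2_bound hg hvbp ((m + 1) * L)
    have h3 : ((m : ℝ) + 1) * dh g vb ((m + 1) * L) ≤ ((m : ℝ) + 1) *
        (1 / 2 * (1 / ((((m + 1) * L : ℕ) : ℝ) + 1)) + 1 / ((((m + 1) * L : ℕ) : ℝ) + 1) ^ 2) := by
      apply mul_le_mul_of_nonneg_left _ (by positivity)
      linarith
    push_cast at h3
    set q : ℝ := ((m : ℝ) + 1) * L + 1 with hq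
    have hq0 : 0 < q := by positivity
    have hq1 : 1 ≤ q := by rw [hq]; nlinarith
    have h4 : ((m : ℝ) + 1) * (1 / q) ≤ 1 / L := by
      rw [mul_one_div, div_le_div_iff₀ hq0 hL0, hq]; linarith
    have h5 : 1 / q ^ 2 ≤ 1 / q := by
      apply one_div_le_one_div_of_le hq0
      nlinarith
    have h6 : ((m : ℝ) + 1) * (1 / q ^ 2) ≤ 1 / L :=
      (mul_le_mul_of_nonneg_left h5 (by positivity)).trans h4
    have h7 : (0 : ℝ) < 1 / L := by positivity
    have h8 : (4 : ℝ) / L = 4 * (1 / L) := by ring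
    have h9 : (2 : ℝ) / L = 2 * (1 / L) := by ring
    rw [h8, h9]
    nlinarith
  -- lower bound of D R
  have hDR : ∀ R : ℕ, 1 ≤ R → ℓ - c ((m + 1) * R) +
      1 / 2 * (Real.log ((m : ℝ) + 2) - Real.log ((m : ℝ) + 1)) - 1 / R ≤ D R := by
    intro R hR
    have hR' : (1 : ℝ) ≤ R := by exact_mod_cast hR
    have hR0 : (0 : ℝ) < R := by linarith
    have h1 : c ((m + 2) * R) ≤ hB g va ((m + 2) * R) - H (bern g ^ ((m + 2) * R)) := by
      simp only [hc, hB]
      have h2 := H_le_H_mul hμ (hvbp.mul ((IsProb.bern g).pow ((m + 2) * R)))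
      have h3 : μ * (vb * bern g ^ ((m + 2) * R)) = va * bern g ^ ((m + 2) * R) := by
        rw [hva, hvb]; ring
      rw [h3] at h2
      linarith
    have h2 := hcge ((m + 2) * R)
    have h3 := binom_growth hg (M := (m + 1) * R) (N := (m + 2) * R)
      (Nat.mul_le_mul_right R (by omega))
    have h4 : c ((m + 1) * R) = hB g vb ((m + 1) * R) - H (bern g ^ ((m + 1) * R)) := rfl
    have h5 : Real.log ((m : ℝ) + 2) - Real.log ((m : ℝ) + 1) - 1 / R ≤
        Real.log ((((m + 2) * R : ℕ) : ℝ) + 1) - Real.log ((((m + 1) * R : ℕ) : ℝ) + 1) := by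
      push_cast
      set a : ℝ := (m : ℝ) + 2 with ha
      set b : ℝ := (m : ℝ) + 1 with hb
      have ha0 : 0 < a := by positivity
      have hb0 : 0 < b := by positivity
      have hab : a = b + 1 := by rw [ha, hb]; ring
      have hx : 0 < a * R + 1 := by positivity
      have hy : 0 < b * R + 1 := by positivity
      have h6 : Real.log a + Real.log (b * R + 1) - (Real.log b + Real.log (a * R + 1)) ≤
          1 / R := by
        rw [← Real.log_mul ha0.ne' hy.ne', ← Real.log_mul hb0.ne' hx.ne',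
          ← Real.log_div (by positivity) (by positivity)]
        have h7 := Real.log_le_sub_one_of_pos
          (x := (a * (b * R + 1)) / (b * (a * R + 1))) (by positivity)
        refine h7.trans ?_
        have h8 : (a * (b * R + 1)) / (b * (a * R + 1)) - 1 = 1 / (b * (a * R + 1)) := by
          rw [div_sub_one (by positivity)]
          congr 1
          rw [hab]; ring
        rw [h8]
        apply one_div_le_one_div_of_le hR0
        have hb1 : 1 ≤ b := by rw [hb]; linarith
        have ha1 : 1 ≤ a := by rw [ha]; linarith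
        nlinarith
      linarith
    have h9 : (0 : ℝ) < 1 / R := by positivity
    simp only [hD]
    linarith
  -- conclusion
  have final : ∀ ε : ℝ, 0 < ε →
      1 / 2 * (Real.log ((m : ℝ) + 2) - Real.log ((m : ℝ) + 1)) ≤ D L + 4 / L + ε := by
    intro ε hε
    have ev1 : ∀ᶠ M in Filter.atTop, c M < ℓ + ε / 2 :=
      hclim.eventually (gt_mem_nhds (by linarith))
    obtain ⟨M0, hM0⟩ := Filter.eventually_atTop.mp ev1
    obtain ⟨R1, hR1⟩ := exists_nat_gt (2 / ε)
    set R := max (max M0 L) (R1 + 1) with hR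
    have hRM : M0 ≤ R := le_trans (le_max_left _ _) (le_max_left _ _)
    have hRL : L ≤ R := le_trans (le_max_right _ _) (le_max_left _ _)
    have hRR : R1 + 1 ≤ R := le_max_right _ _
    have hR1' : 1 ≤ R := le_trans hL hRL
    have h1 := hM0 ((m + 1) * R) (by nlinarith)
    have h2 := hDR R hR1'
    have h3 := mono R hRL
    have h4 : D R ≤ Ψ R := by
      simp only [hΨ]
      have h5 := dh_nonneg (g := g) hvbp ((m + 1) * R)
      have h6 : 0 ≤ ((m : ℝ) + 1) * dh g vb ((m + 1) * R) := mul_nonneg (by positivity) h5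
      have h7 : (0 : ℝ) ≤ 2 / R := by positivity
      linarith
    have h5 : (1 : ℝ) / R ≤ ε / 2 := by
      have hR0 : (0 : ℝ) < R := by exact_mod_cast (by omega : 0 < R)
      have h6 : (R1 : ℝ) ≤ R := by exact_mod_cast (by omega : R1 ≤ R)
      rw [div_le_iff₀ hR0]
      have h7 : 2 / ε < R := lt_of_lt_of_le hR1 h6
      rw [div_lt_iff₀ hε] at h7
      linarith
    linarith
  have := le_of_forall_pos_le_add final
  simp only [hD] at this
  linarith

end Pool.Agent.W_MP_b45167_pr
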