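import Mathlib

/-!
# Finitely supported measures on an abelian group: basic calculus

We use the commutative ring `AddMonoidAlgebra ℝ G` of finitely supported real measures on an
abelian group `G` with convolution as multiplication.
-/

namespace Pool.Agent.W_MP_b45167_pr

open Finset

/-- Finitely supported real measures on `G`; the product is convolution. -/
abbrev MA (G : Type*) := AddMonoidAlgebra ℝ G

variable {G : Type*}

/-- The integral of `φ` against the finitely supported measure `f`. -/
noncomputable def I (f : MA G) (φ : G → ℝ) : ℝ := ∑ x ∈ f.coeff.support, f.coeff x * φ x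

theorem I_eq_of_subset {f : MA G} {s : Finset G} (h : f.coeff.support ⊆ s) (φ : G → ℝ) :
    I f φ = ∑ x ∈ s, f.coeff x * φ x := by
  unfold I
  apply Finset.sum_subset h
  intro x _ hx
  rw [Finsupp.notMem_support_iff.mp hx, zero_mul]

theorem I_eq_sum (f : MA G) (φ : G → ℝ) : I f φ = f.coeff.sum fun x a => a * φ x := rfl

@[simp] theorem I_zero_left (φ : G → ℝ) : I (0 : MA G) φ = 0 := by
  simp [I]

theorem I_add_left (f h : MA G) (φ : G → ℝ) : I (f + h) φ = I f φ + I h φ := by
  classical
  have h1 : f.coeff.support ⊆ f.coeff.support ∪ h.coeff.support := Finset.subset_union_left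
  have h2 : h.coeff.support ⊆ f.coeff.support ∪ h.coeff.support := Finset.subset_union_right
  have h3 : (f + h).coeff.support ⊆ f.coeff.support ∪ h.coeff.support := by
    rw [AddMonoidAlgebra.coeff_add]; exact Finsupp.support_add
  rw [I_eq_of_subset h1, I_eq_of_subset h2, I_eq_of_subset h3, ← Finset.sum_add_distrib]
  refine Finset.sum_congr rfl fun x _ => ?_
  rw [AddMonoidAlgebra.coeff_add, Finsupp.add_apply]; ring

theorem I_smul_left (c : ℝ) (f : MA G) (φ : G → ℝ) : I (c • f) φ = c * I f φ := by
  have h3 : (c • f).coeff.support ⊆ f.coeff.support := by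
    rw [AddMonoidAlgebra.coeff_smul]; exact Finsupp.support_smul
  rw [I_eq_of_subset h3, I, Finset.mul_sum]
  refine Finset.sum_congr rfl fun x _ => ?_
  rw [AddMonoidAlgebra.coeff_smul, Finsupp.smul_apply, smul_eq_mul]; ring

theorem I_neg_left (f : MA G) (φ : G → ℝ) : I (-f) φ = -I f φ := by
  have : -f = (-1 : ℝ) • f := by simp
  rw [this, I_smul_left]; ring

theorem I_sub_left (f h : MA G) (φ : G → ℝ) : I (f - h) φ = I f φ - I h φ := by
  rw [sub_eq_add_neg, I_add_left, I_neg_left]; ring

theorem I_sum_left {ι : Type*} (s : Finset ι) (f : ι → MA G) (φ : G → ℝ) :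
    I (∑ i ∈ s, f i) φ = ∑ i ∈ s, I (f i) φ := by
  classical
  induction s using Finset.induction_on with
  | empty => simp
  | insert a s ha ih => rw [Finset.sum_insert ha, Finset.sum_insert ha, I_add_left, ih]

theorem I_single (x : G) (a : ℝ) (φ : G → ℝ) :
    I (AddMonoidAlgebra.single x a) φ = a * φ x := by
  classical
  have h : (AddMonoidAlgebra.single x a : MA G).coeff.support ⊆ {x} := by
    rw [AddMonoidAlgebra.coeff_single]; exact Finsupp.support_single_subset
  rw [I_eq_of_subset h]
  simp

theorem I_add_right (f : MA G) (φ ψ : G → ℝ) :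
    I f (fun x => φ x + ψ x) = I f φ + I f ψ := by
  simp only [I, mul_add, Finset.sum_add_distrib]

theorem I_sub_right (f : MA G) (φ ψ : G → ℝ) :
    I f (fun x => φ x - ψ x) = I f φ - I f ψ := by
  simp only [I, mul_sub, Finset.sum_sub_distrib]

theorem I_neg_right (f : MA G) (φ : G → ℝ) : I f (fun x => -φ x) = -I f φ := by
  simp only [I, mul_neg, Finset.sum_neg_distrib]

theorem I_mul_left (f : MA G) (c : ℝ) (φ : G → ℝ) : I f (fun x => c * φ x) = c * I f φ := by
  simp only [I, Finset.mul_sum]
  exact Finset.sum_congr rfl fun x _ => by ring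

theorem I_mul_right (f : MA G) (c : ℝ) (φ : G → ℝ) : I f (fun x => φ x * c) = I f φ * c := by
  simp only [I, Finset.sum_mul]
  exact Finset.sum_congr rfl fun x _ => by ring

@[simp] theorem I_zero_right (f : MA G) : I f (fun _ => 0) = 0 := by
  simp [I]

theorem I_const (f : MA G) (c : ℝ) : I f (fun _ => c) = c * I f (fun _ => 1) := by
  rw [← I_mul_left]; simp

theorem I_sum_right {ι : Type*} (s : Finset ι) (f : MA G) (φ : ι → G → ℝ) :
    I f (fun x => ∑ i ∈ s, φ i x) = ∑ i ∈ s, I f (φ i) := by
  simp only [I, Finset.mul_sum]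
  rw [Finset.sum_comm]

theorem I_comm {G' : Type*} (f : MA G) (h : MA G') (φ : G → G' → ℝ) :
    I f (fun x => I h (fun y => φ x y)) = I h (fun y => I f (fun x => φ x y)) := by
  simp only [I, Finset.mul_sum]
  rw [Finset.sum_comm]
  refine Finset.sum_congr rfl fun x _ => Finset.sum_congr rfl fun y _ => by ring

theorem I_congr {f : MA G} {φ ψ : G → ℝ} (h : ∀ x, f.coeff x ≠ 0 → φ x = ψ x) :
    I f φ = I f ψ := by
  refine Finset.sum_congr rfl fun x hx => ?_
  rw [h x (Finsupp.mem_support_iff.mp hx)]

/-- Nonnegative measures. -/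
def Pos (f : MA G) : Prop := ∀ x, 0 ≤ f.coeff x

theorem I_nonneg {f : MA G} (hf : Pos f) {φ : G → ℝ} (h : ∀ x, f.coeff x ≠ 0 → 0 ≤ φ x) :
    0 ≤ I f φ := by
  refine Finset.sum_nonneg fun x hx => ?_
  exact mul_nonneg (hf x) (h x (Finsupp.mem_support_iff.mp hx))

theorem I_mono {f : MA G} (hf : Pos f) {φ ψ : G → ℝ} (h : ∀ x, f.coeff x ≠ 0 → φ x ≤ ψ x) :
    I f φ ≤ I f ψ := by
  refine Finset.sum_le_sum fun x hx => ?_
  exact mul_le_mul_of_nonneg_left (h x (Finsupp.mem_support_iff.mp hx)) (hf x)

theorem Pos.add {f h : MA G} (hf : Pos f) (hh : Pos h) : Pos (f + h) := by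
  intro x
  rw [AddMonoidAlgebra.coeff_add, Finsupp.add_apply]
  exact add_nonneg (hf x) (hh x)

theorem Pos.smul {f : MA G} {c : ℝ} (hc : 0 ≤ c) (hf : Pos f) : Pos (c • f) := by
  intro x
  rw [AddMonoidAlgebra.coeff_smul, Finsupp.smul_apply, smul_eq_mul]
  exact mul_nonneg hc (hf x)

theorem Pos.single (x : G) {a : ℝ} (ha : 0 ≤ a) : Pos (AddMonoidAlgebra.single x a) := by
  classical
  intro y
  rw [AddMonoidAlgebra.coeff_single, Finsupp.single_apply]
  split_ifs
  · exact ha
  · exact le_rfl

/-- Symmetry of the pairing. -/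
theorem I_coeff_comm (f h : MA G) : I f h.coeff = I h f.coeff := by
  classical
  have h1 : f.coeff.support ⊆ f.coeff.support ∪ h.coeff.support := Finset.subset_union_left
  have h2 : h.coeff.support ⊆ f.coeff.support ∪ h.coeff.support := Finset.subset_union_right
  rw [I_eq_of_subset h1, I_eq_of_subset h2]
  exact Finset.sum_congr rfl fun x _ => mul_comm _ _

theorem coeff_eq_I (f : MA G) [DecidableEq G] (x : G) :
    f.coeff x = I f (fun y => if y = x then 1 else 0) := by
  simp only [I, mul_ite, mul_one, mul_zero, Finset.sum_ite_eq', Finsupp.mem_support_iff]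
  split_ifs with h
  · rfl
  · push Not at h; exact h

/-- A restriction of `f` to a set. -/
noncomputable def restr (f : MA G) (p : G → Prop) [DecidablePred p] : MA G :=
  .ofCoeff (f.coeff.filter p)

theorem coeff_restr (f : MA G) (p : G → Prop) [DecidablePred p] (x : G) :
    (restr f p).coeff x = if p x then f.coeff x else 0 := by
  unfold restr
  rw [AddMonoidAlgebra.coeff_ofCoeff, Finsupp.filter_apply]

theorem I_restr (f : MA G) (p : G → Prop) [DecidablePred p] (φ : G → ℝ) :
    I (restr f p) φ = I f (fun x => if p x then φ x else 0) := by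
  have h : (restr f p).coeff.support ⊆ f.coeff.support := by
    intro x hx
    rw [Finsupp.mem_support_iff, coeff_restr] at hx
    rw [Finsupp.mem_support_iff]
    intro h0
    apply hx
    rw [h0]; simp
  rw [I_eq_of_subset h, I]
  refine Finset.sum_congr rfl fun x _ => ?_
  rw [coeff_restr]
  split_ifs <;> ring

theorem Pos.restr {f : MA G} (hf : Pos f) (p : G → Prop) [DecidablePred p] :
    Pos (restr f p) := by
  intro x
  rw [coeff_restr]
  split_ifs
  · exact hf x
  · exact le_rfl

theorem I_le_of_coeff_le {f h : MA G} (hfh : ∀ x, f.coeff x ≤ h.coeff x) {φ : G → ℝ}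
    (hφ : ∀ x, 0 ≤ φ x) : I f φ ≤ I h φ := by
  classical
  have h1 : f.coeff.support ⊆ f.coeff.support ∪ h.coeff.support := Finset.subset_union_left
  have h2 : h.coeff.support ⊆ f.coeff.support ∪ h.coeff.support := Finset.subset_union_right
  rw [I_eq_of_subset h1, I_eq_of_subset h2]
  exact Finset.sum_le_sum fun x _ => mul_le_mul_of_nonneg_right (hfh x) (hφ x)

/-- Summing a nonnegative function over a finite set against a nonnegative measure. -/
theorem sum_le_I {f : MA G} (hf : Pos f) (s : Finset G) {φ : G → ℝ}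
    (hφ : ∀ x, 0 ≤ φ x) : ∑ x ∈ s, f.coeff x * φ x ≤ I f φ := by
  classical
  have h1 : f.coeff.support ⊆ f.coeff.support ∪ s := Finset.subset_union_left
  rw [I_eq_of_subset h1]
  exact Finset.sum_le_sum_of_subset_of_nonneg Finset.subset_union_right
    fun x _ _ => mul_nonneg (hf x) (hφ x)

/-- Finitely supported probability measures. -/
structure IsProb (f : MA G) : Prop where
  pos : Pos f
  total : I f (fun _ => 1) = 1

theorem IsProb.const {f : MA G} (hf : IsProb f) (c : ℝ) : I f (fun _ => c) = c := by
  rw [I_const, hf.total, mul_one]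

theorem IsProb.single (x : G) : IsProb (AddMonoidAlgebra.single x 1) where
  pos := Pos.single x zero_le_one
  total := by rw [I_single]; norm_num

theorem IsProb.coeff_le_one {f : MA G} (hf : IsProb f) (x : G) : f.coeff x ≤ 1 := by
  classical
  rw [coeff_eq_I]
  refine le_trans (I_mono hf.pos (ψ := fun _ => 1) fun y _ => ?_) hf.total.le
  show (if y = x then (1 : ℝ) else 0) ≤ 1
  split_ifs
  · exact le_rfl
  · exact zero_le_one

section group

variable [AddCommGroup G]

theorem I_mul (f h : MA G) (φ : G → ℝ) :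
    I (f * h) φ = I f (fun x => I h (fun y => φ (x + y))) := by
  rw [AddMonoidAlgebra.mul_def]
  simp only [Finsupp.sum]
  rw [I_sum_left]
  have : ∀ i ∈ f.coeff.support,
      I (∑ a ∈ h.coeff.support,
        AddMonoidAlgebra.single (i + a) (f.coeff i * h.coeff a)) φ =
      f.coeff i * I h (fun y => φ (i + y)) := by
    intro i _
    rw [I_sum_left, I, Finset.mul_sum]
    refine Finset.sum_congr rfl fun y _ => ?_
    rw [I_single]; ring
  rw [Finset.sum_congr rfl this]
  rfl

theorem I_one (φ : G → ℝ) : I (1 : MA G) φ = φ 0 := by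
  rw [AddMonoidAlgebra.one_def, I_single, one_mul]

theorem coeff_mul_eq (f h : MA G) (z : G) :
    (f * h).coeff z = I f (fun x => h.coeff (z - x)) := by
  classical
  rw [coeff_eq_I, I_mul]
  congr 1
  ext x
  rw [coeff_eq_I h]
  congr 1
  ext y
  congr 1
  exact propext ⟨fun h => by rw [← h]; abel, fun h => by rw [h]; abel⟩

theorem coeff_mul_eq' (f h : MA G) (z : G) :
    (f * h).coeff z = I h (fun y => f.coeff (z - y)) := by
  rw [mul_comm, coeff_mul_eq]

theorem coeff_single_mul (x : G) (a : ℝ) (f : MA G) (z : G) :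
    (AddMonoidAlgebra.single x a * f).coeff z = a * f.coeff (z - x) := by
  rw [coeff_mul_eq, I_single]

theorem Pos.mul {f h : MA G} (hf : Pos f) (hh : Pos h) : Pos (f * h) := by
  intro z
  rw [coeff_mul_eq]
  exact I_nonneg hf fun x _ => hh _

theorem Pos.one : Pos (1 : MA G) := by
  rw [AddMonoidAlgebra.one_def]; exact Pos.single 0 zero_le_one

theorem Pos.pow {f : MA G} (hf : Pos f) (n : ℕ) : Pos (f ^ n) := by
  induction n with
  | zero => rw [pow_zero]; exact Pos.one
  | succ n ih => rw [pow_succ]; exact ih.mul hf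

theorem IsProb.mul {f h : MA G} (hf : IsProb f) (hh : IsProb h) : IsProb (f * h) where
  pos := hf.pos.mul hh.pos
  total := by rw [I_mul, hh.total, hf.total]

theorem IsProb.one : IsProb (1 : MA G) where
  pos := Pos.one
  total := by rw [I_one]

theorem IsProb.pow {f : MA G} (hf : IsProb f) (n : ℕ) : IsProb (f ^ n) := by
  induction n with
  | zero => rw [pow_zero]; exact IsProb.one
  | succ n ih => rw [pow_succ]; exact ih.mul hf

/-- Positivity of the convolution at sums of points of the supports. -/
theorem coeff_mul_pos {f h : MA G} (hf : Pos f) (hh : Pos h) {x y : G}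
    (hx : f.coeff x ≠ 0) (hy : h.coeff y ≠ 0) : 0 < (f * h).coeff (x + y) := by
  rw [coeff_mul_eq]
  have h1 : f.coeff x * h.coeff (x + y - x) ≤ I f (fun a => h.coeff (x + y - a)) := by
    unfold I
    exact Finset.single_le_sum (f := fun a => f.coeff a * h.coeff (x + y - a))
      (fun a _ => mul_nonneg (hf a) (hh _)) (Finsupp.mem_support_iff.mpr hx)
  have h2 : 0 < f.coeff x * h.coeff (x + y - x) := by
    have : x + y - x = y := by abel
    rw [this]
    exact mul_pos (lt_of_le_of_ne (hf x) (Ne.symm hx)) (lt_of_le_of_ne (hh y) (Ne.symm hy))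
  linarith

end group

end Pool.Agent.W_MP_b45167_pr
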