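import Pool.Agent.W_MP_b45167_pr.VarDrop

/-!
# Binomial measures along an element of infinite order
-/

namespace Pool.Agent.W_MP_b45167_pr

open Finset

set_option linter.unusedSectionVars false

theorem sum_choose_succ (f : ℕ → ℝ) (n : ℕ) :
    ∑ k ∈ range (n + 2), ((n + 1).choose k : ℝ) * f k =
      ∑ k ∈ range (n + 1), (n.choose k : ℝ) * (f k + f (k + 1)) := by
  rw [Finset.sum_range_succ']
  have h1 : ∀ k ∈ range (n + 1), ((n + 1).choose (k + 1) : ℝ) * f (k + 1) =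
      (n.choose k : ℝ) * f (k + 1) + (n.choose (k + 1) : ℝ) * f (k + 1) := by
    intro k _
    rw [Nat.choose_succ_succ]
    push_cast
    ring
  rw [Finset.sum_congr rfl h1, Finset.sum_add_distrib]
  have h2 : ∑ k ∈ range (n + 1), (n.choose (k + 1) : ℝ) * f (k + 1) +
      ((n + 1).choose 0 : ℝ) * f 0 = ∑ k ∈ range (n + 1), (n.choose k : ℝ) * f k := by
    have h3 := Finset.sum_range_succ' (fun k => (n.choose k : ℝ) * f k) (n + 1)
    have h4 := Finset.sum_range_succ (fun k => (n.choose k : ℝ) * f k) (n + 1)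
    rw [Nat.choose_succ_self] at h4
    simp only [Nat.choose_zero_right, Nat.cast_one, Nat.cast_zero, zero_mul, add_zero] at h3 h4 ⊢
    linarith
  rw [add_assoc, h2, ← Finset.sum_add_distrib]
  refine Finset.sum_congr rfl fun k _ => ?_
  ring

theorem moment0 (n : ℕ) : ∑ k ∈ range (n + 1), (n.choose k : ℝ) = 2 ^ n := by
  have := Nat.sum_range_choose n
  exact_mod_cast this

theorem moment2 (n : ℕ) :
    ∑ k ∈ range (n + 1), (n.choose k : ℝ) * ((n : ℝ) - 2 * k) ^ 2 = (n : ℝ) * 2 ^ n := by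
  induction n with
  | zero => simp
  | succ n ih =>
    rw [sum_choose_succ]
    have h1 : ∀ k ∈ range (n + 1), (n.choose k : ℝ) * ((((n + 1 : ℕ) : ℝ) - 2 * (k : ℕ)) ^ 2 +
        (((n + 1 : ℕ) : ℝ) - 2 * ((k + 1 : ℕ) : ℝ)) ^ 2) =
        2 * ((n.choose k : ℝ) * ((n : ℝ) - 2 * k) ^ 2) + 2 * (n.choose k : ℝ) := by
      intro k _
      push_cast
      ring
    rw [Finset.sum_congr rfl h1, Finset.sum_add_distrib, ← Finset.mul_sum, ← Finset.mul_sum, ih,
      moment0]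
    push_cast
    ring

theorem moment4 (n : ℕ) :
    ∑ k ∈ range (n + 1), (n.choose k : ℝ) * ((n : ℝ) - 2 * k) ^ 4 =
      (3 * (n : ℝ) ^ 2 - 2 * n) * 2 ^ n := by
  induction n with
  | zero => simp
  | succ n ih =>
    rw [sum_choose_succ]
    have h1 : ∀ k ∈ range (n + 1), (n.choose k : ℝ) * ((((n + 1 : ℕ) : ℝ) - 2 * (k : ℕ)) ^ 4 +
        (((n + 1 : ℕ) : ℝ) - 2 * ((k + 1 : ℕ) : ℝ)) ^ 4) =
        2 * ((n.choose k : ℝ) * ((n : ℝ) - 2 * k) ^ 4) +
        12 * ((n.choose k : ℝ) * ((n : ℝ) - 2 * k) ^ 2) + 2 * (n.choose k : ℝ) := by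
      intro k _
      push_cast
      ring
    rw [Finset.sum_congr rfl h1, Finset.sum_add_distrib, Finset.sum_add_distrib,
      ← Finset.mul_sum, ← Finset.mul_sum, ← Finset.mul_sum, ih, moment2, moment0]
    push_cast
    ring

variable {G : Type*} [AddCommGroup G]

theorem I_bern_pow (g : G) (n : ℕ) (ψ : G → ℝ) :
    I (bern g ^ n) ψ = (1 / 2) ^ n * ∑ k ∈ range (n + 1), (n.choose k : ℝ) * ψ (k • g) := by
  induction n generalizing ψ with
  | zero => simp [I_one]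
  | succ n ih =>
    rw [pow_succ', I_mul, I_bern, ih, ih, sum_choose_succ]
    have h1 : ∀ k ∈ range (n + 1), (n.choose k : ℝ) * (ψ (k • g) + ψ ((k + 1) • g)) =
        (n.choose k : ℝ) * ψ (0 + k • g) + (n.choose k : ℝ) * ψ (g + k • g) := by
      intro k _
      rw [zero_add, add_smul, one_smul, add_comm g, mul_add]
    rw [Finset.sum_congr rfl h1, Finset.sum_add_distrib, pow_succ]
    ring

/-- `g` has infinite order. -/
def InfOrder (g : G) : Prop := ∀ j k : ℕ, j • g = k • g → j = k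

theorem coeff_bern_pow {g : G} (hg : InfOrder g) (n k : ℕ) :
    (bern g ^ n).coeff (k • g) = (1 / 2) ^ n * (n.choose k : ℝ) := by
  classical
  rw [coeff_eq_I, I_bern_pow]
  congr 1
  have h1 : ∀ j ∈ range (n + 1), (n.choose j : ℝ) * (if j • g = k • g then (1 : ℝ) else 0) =
      if k = j then (n.choose k : ℝ) else 0 := by
    intro j _
    by_cases h : j = k
    · subst h; simp
    · have h2 : ¬ j • g = k • g := fun h' => h (hg _ _ h')
      rw [if_neg h2, if_neg (Ne.symm h), mul_zero]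
  rw [Finset.sum_congr rfl h1, Finset.sum_ite_eq]
  split_ifs with h
  · rfl
  · rw [Finset.mem_range, not_lt] at h
    rw [Nat.choose_eq_zero_of_lt (by omega)]; simp

theorem coeff_bern_pow' {g : G} (hg : InfOrder g) (n k : ℕ) :
    (bern g ^ n).coeff (k • g - g) =
      (1 / 2) ^ n * (if k = 0 then 0 else (n.choose (k - 1) : ℝ)) := by
  classical
  cases k with
  | zero =>
    rw [if_pos rfl, mul_zero, coeff_eq_I, I_bern_pow]
    have h1 : ∀ j ∈ range (n + 1), (n.choose j : ℝ) *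
        (if j • g = (0 : ℕ) • g - g then (1 : ℝ) else 0) = 0 := by
      intro j _
      have h2 : ¬ j • g = (0 : ℕ) • g - g := by
        intro h'
        have h3 : (j + 1) • g = (0 : ℕ) • g := by
          rw [add_smul, one_smul, h', sub_add_cancel]
        have := hg _ _ h3
        omega
      rw [if_neg h2, mul_zero]
    rw [Finset.sum_congr rfl h1]
    simp
  | succ k =>
    rw [if_neg (Nat.succ_ne_zero k), Nat.add_sub_cancel, ← coeff_bern_pow hg]
    congr 1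
    rw [add_smul, one_smul]; abel

/-- The score of the binomial measure. -/
theorem U_bern_pow {g : G} (hg : InfOrder g) (M k : ℕ) (hk : k ≤ M + 1) :
    U g (bern g ^ M) (k • g) = ((M + 1 : ℕ) - 2 * (k : ℝ)) / (M + 1) := by
  unfold U
  rw [coeff_Dg, coeff_Sg, coeff_bern_pow hg, coeff_bern_pow' hg]
  have hM : (0 : ℝ) < M + 1 := by positivity
  have hp : (0 : ℝ) < (1 / 2) ^ M := by positivity
  rw [← mul_sub, ← mul_add, mul_div_mul_left _ _ hp.ne']
  cases k with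
  | zero =>
    simp only [if_true, Nat.choose_zero_right]
    push_cast
    field_simp
    ring
  | succ j =>
    rw [if_neg (Nat.succ_ne_zero j), Nat.add_sub_cancel]
    have h1 : ((M.choose (j + 1) : ℝ) + (M.choose j : ℝ)) = ((M + 1).choose (j + 1) : ℝ) := by
      rw [Nat.choose_succ_succ]; push_cast; ring
    have h2 : ((M : ℝ) + 1) * (M.choose j : ℝ) = ((M + 1).choose (j + 1) : ℝ) * (j + 1) := by
      have := Nat.add_one_mul_choose_eq M j
      exact_mod_cast this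
    have h3 : (0 : ℝ) < ((M + 1).choose (j + 1) : ℝ) := by
      exact_mod_cast Nat.choose_pos hk
    rw [h1, div_eq_div_iff h3.ne' hM.ne']
    have h4 : (M.choose (j + 1) : ℝ) = ((M + 1).choose (j + 1) : ℝ) - (M.choose j : ℝ) := by
      linarith
    rw [h4]
    push_cast
    linear_combination (-2 : ℝ) * h2

theorem Kφ_eq (φ : ℝ → ℝ) (g : G) (v : MA G) :
    Kφ φ g v = I (v * bern g) (fun x => φ (U g v x)) := by
  unfold Kφ
  rw [mul_bern, I_smul_left]

theorem Kφ_bern_pow {g : G} (hg : InfOrder g) (φ : ℝ → ℝ) (M : ℕ) :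
    Kφ φ g (bern g ^ M) = (1 / 2) ^ (M + 1) *
      ∑ k ∈ range (M + 2), ((M + 1).choose k : ℝ) * φ (((M + 1 : ℕ) - 2 * (k : ℝ)) / (M + 1)) := by
  rw [Kφ_eq, ← pow_succ, I_bern_pow]
  congr 1
  refine Finset.sum_congr rfl fun k hk => ?_
  rw [Finset.mem_range] at hk
  rw [U_bern_pow hg M k (by omega)]

theorem K2_bern_pow {g : G} (hg : InfOrder g) (M : ℕ) :
    Kφ (fun t => t ^ 2) g (bern g ^ M) = 1 / (M + 1) := by
  rw [Kφ_bern_pow hg]
  have hM : (0 : ℝ) < M + 1 := by positivity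
  have h1 : ∀ k ∈ range (M + 2), ((M + 1).choose k : ℝ) *
      (((M + 1 : ℕ) - 2 * (k : ℝ)) / (M + 1)) ^ 2 =
      (((M + 1).choose k : ℝ) * (((M + 1 : ℕ) : ℝ) - 2 * k) ^ 2) * (1 / (M + 1) ^ 2) := by
    intro k _
    rw [div_pow]; ring
  rw [Finset.sum_congr rfl h1, ← Finset.sum_mul, moment2 (M + 1)]
  have h2 : ((1 : ℝ) / 2) ^ (M + 1) * 2 ^ (M + 1) = 1 := by
    rw [← mul_pow]; norm_num
  have h3 : (1 / 2 : ℝ) ^ (M + 1) * (((M + 1 : ℕ) : ℝ) * 2 ^ (M + 1) *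
      (1 / ((M : ℝ) + 1) ^ 2)) = ((1 / 2 : ℝ) ^ (M + 1) * 2 ^ (M + 1)) *
      (((M + 1 : ℕ) : ℝ) * (1 / ((M : ℝ) + 1) ^ 2)) := by
    ring
  rw [h3, h2]
  push_cast
  field_simp

theorem K4_bern_pow {g : G} (hg : InfOrder g) (M : ℕ) :
    Kφ (fun t => t ^ 4) g (bern g ^ M) ≤ 3 / (M + 1) ^ 2 := by
  rw [Kφ_bern_pow hg]
  have hM : (0 : ℝ) < M + 1 := by positivity
  have h1 : ∀ k ∈ range (M + 2), ((M + 1).choose k : ℝ) *
      (((M + 1 : ℕ) - 2 * (k : ℝ)) / (M + 1)) ^ 4 =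
      (((M + 1).choose k : ℝ) * (((M + 1 : ℕ) : ℝ) - 2 * k) ^ 4) * (1 / (M + 1) ^ 4) := by
    intro k _
    rw [div_pow]; ring
  rw [Finset.sum_congr rfl h1, ← Finset.sum_mul, moment4 (M + 1)]
  have h2 : ((1 : ℝ) / 2) ^ (M + 1) * 2 ^ (M + 1) = 1 := by
    rw [← mul_pow]; norm_num
  have h3 : (1 / 2 : ℝ) ^ (M + 1) * ((3 * ((M + 1 : ℕ) : ℝ) ^ 2 - 2 * ((M + 1 : ℕ) : ℝ)) *
      2 ^ (M + 1) * (1 / ((M : ℝ) + 1) ^ 4)) =
      (3 * ((M : ℝ) + 1) ^ 2 - 2 * ((M : ℝ) + 1)) / ((M : ℝ) + 1) ^ 4 := by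
    calc _ = ((1 / 2 : ℝ) ^ (M + 1) * 2 ^ (M + 1)) *
          ((3 * ((M + 1 : ℕ) : ℝ) ^ 2 - 2 * ((M + 1 : ℕ) : ℝ)) * (1 / ((M : ℝ) + 1) ^ 4)) := by ring
      _ = _ := by rw [h2]; push_cast; ring
  rw [h3, div_le_div_iff₀ (by positivity) (by positivity)]
  nlinarith [pow_pos hM 2, pow_pos hM 3, pow_pos hM 4, pow_pos hM 5]

end Pool.Agent.W_MP_b45167_pr
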