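import Mathlib

/-!
# Entropy of discrete laws and laws of i.i.d. sums: definitions
-/

namespace Pool.Agent.W_MP_b45167_pr

open scoped ENNReal

/-- Discrete Shannon entropy in bits, `∑ -p(a) log₂ p(a)`, with values in `[0, ∞]`. -/
noncomputable def entropy {α : Type*} (p : PMF α) : ℝ≥0∞ :=
  ∑' a, ENNReal.ofReal (-((p a).toReal * Real.logb 2 (p a).toReal))

/-- The law of `X₁ + ⋯ + Xₙ`, where the `Xᵢ` are independent with law `p`. -/
noncomputable def sumLaw {G : Type*} [AddCommGroup G] (p : PMF G) : ℕ → PMF G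
  | 0 => PMF.pure 0
  | n + 1 => (sumLaw p n).bind fun s => p.map fun x => s + x

end Pool.Agent.W_MP_b45167_pr
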