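import Pool.Agent.W_MP_b45167_pr.Basic

/-!
# Entropy of finitely supported measures and submodularity
-/

namespace Pool.Agent.W_MP_b45167_pr

open Finset

variable {G : Type*}

/-- Shannon entropy in nats. -/
noncomputable def H (f : MA G) : ℝ := I f (fun x => -Real.log (f.coeff x))

theorem H_nonneg {f : MA G} (hf : IsProb f) : 0 ≤ H f := by
  refine I_nonneg hf.pos fun x _ => ?_
  have := Real.log_nonpos (hf.pos x) (hf.coeff_le_one x)
  linarith

variable [AddCommGroup G]

theorem H_single_mul (x : G) (f : MA G) : H (AddMonoidAlgebra.single x 1 * f) = H f := by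
  unfold H
  rw [I_mul, I_single, one_mul]
  refine I_congr fun y _ => ?_
  rw [coeff_single_mul, one_mul]
  congr 3
  abel

/-- The ratio bound used several times: the sum of the convolution over a translate of the
support is at most `1`. -/
theorem sum_shift_le_one {p : MA G} (hp : IsProb p) (s : Finset G) (x : G) :
    ∑ y ∈ s, p.coeff (x + y) ≤ 1 := by
  classical
  have h1 : ∑ y ∈ s, p.coeff (x + y) = ∑ z ∈ s.image (fun y => x + y), p.coeff z := by
    rw [Finset.sum_image]
    intro a _ b _ hab
    exact add_left_cancel hab
  rw [h1]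
  have := sum_le_I hp.pos (s.image (fun y => x + y)) (φ := fun _ => 1) (fun _ => zero_le_one)
  simpa [hp.total] using this

/-- Expectation of the inverse likelihood ratio is at most `1`. -/
theorem ratio_le_one {f h : MA G} (hf : IsProb f) (hh : IsProb h) :
    I f (fun x => I h (fun y => (f * h).coeff (x + y) / h.coeff y)) ≤ 1 := by
  have h1 : ∀ x, I h (fun y => (f * h).coeff (x + y) / h.coeff y) ≤ 1 := by
    intro x
    have : I h (fun y => (f * h).coeff (x + y) / h.coeff y) =
        ∑ y ∈ h.coeff.support, (f * h).coeff (x + y) := by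
      unfold I
      refine Finset.sum_congr rfl fun y hy => ?_
      have hy0 : h.coeff y ≠ 0 := Finsupp.mem_support_iff.mp hy
      field_simp
    rw [this]
    exact sum_shift_le_one (hf.mul hh) _ _
  refine le_trans (I_mono hf.pos (ψ := fun _ => 1) fun x _ => h1 x) ?_
  rw [hf.total]

/-- The information density. -/
noncomputable def idens (f h : MA G) (x y : G) : ℝ :=
  Real.log (h.coeff y) - Real.log ((f * h).coeff (x + y))

theorem I_idens {f h : MA G} (hf : IsProb f) :
    I f (fun x => I h (fun y => idens f h x y)) = H (f * h) - H h := by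
  unfold H idens
  rw [I_mul]
  simp only [I_sub_right, I_neg_right]
  rw [hf.const]
  ring

/-- `-log r ≥ 1 - r` for the likelihood ratio. -/
theorem idens_ge {f h : MA G} (hf : IsProb f) (hh : IsProb h) {x y : G}
    (hx : f.coeff x ≠ 0) (hy : h.coeff y ≠ 0) :
    -idens f h x y ≤ (f * h).coeff (x + y) / h.coeff y - 1 := by
  have h1 : 0 < (f * h).coeff (x + y) := coeff_mul_pos hf.pos hh.pos hx hy
  have h2 : 0 < h.coeff y := lt_of_le_of_ne (hh.pos y) (Ne.symm hy)
  unfold idens
  rw [neg_sub, ← Real.log_div h1.ne' h2.ne']
  exact Real.log_le_sub_one_of_pos (div_pos h1 h2)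

theorem H_le_H_mul {f h : MA G} (hf : IsProb f) (hh : IsProb h) : H h ≤ H (f * h) := by
  have h1 := I_idens (h := h) hf
  have h2 : I f (fun x => I h (fun y => 1 - (f * h).coeff (x + y) / h.coeff y)) ≤
      I f (fun x => I h (fun y => idens f h x y)) := by
    refine I_mono hf.pos fun x hx => I_mono hh.pos fun y hy => ?_
    have := idens_ge hf hh hx hy
    linarith
  have h3 := ratio_le_one hf hh
  simp only [I_sub_right, hh.total, hf.total] at h2
  linarith

theorem H_le_H_mul' {f h : MA G} (hf : IsProb f) (hh : IsProb h) : H f ≤ H (f * h) := by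
  rw [mul_comm]; exact H_le_H_mul hh hf

/-- The expectation of the positive part of the information density. -/
theorem I_idens_pos {f h : MA G} (hf : IsProb f) (hh : IsProb h) :
    I f (fun x => I h (fun y => max (idens f h x y) 0)) ≤ H (f * h) - H h + 1 := by
  rw [← I_idens (h := h) hf]
  have h1 : I f (fun x => I h (fun y => max (idens f h x y) 0)) ≤
      I f (fun x => I h (fun y => idens f h x y +
        (f * h).coeff (x + y) / h.coeff y)) := by
    refine I_mono hf.pos fun x hx => I_mono hh.pos fun y hy => ?_
    have h1 := idens_ge hf hh hx hy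
    have h2 : 0 ≤ (f * h).coeff (x + y) / h.coeff y :=
      div_nonneg ((hf.pos.mul hh.pos) _) (hh.pos _)
    apply max_le
    · linarith
    · linarith
  refine le_trans h1 ?_
  simp only [I_add_right]
  linarith [ratio_le_one hf hh]

/-- Submodularity of entropy for sums of independent variables. -/
theorem submod {f h k : MA G} (hf : IsProb f) (hh : IsProb h) (hk : IsProb k) :
    H (f * h * k) + H h ≤ H (f * h) + H (h * k) := by
  classical
  set P := f * h * k with hP
  have hPprob : IsProb P := (hf.mul hh).mul hk
  -- rewrite all the entropies as triple integrals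
  have e1 : H P = I f (fun x => I h (fun y => I k (fun z => -Real.log (P.coeff (x + y + z))))) := by
    unfold H
    conv_lhs => rw [hP, I_mul, I_mul]
  have e2 : H h = I f (fun x => I h (fun y => I k (fun _ => -Real.log (h.coeff y)))) := by
    unfold H
    simp only [hk.const, hf.const]
  have e3 : H (f * h) =
      I f (fun x => I h (fun y => I k (fun _ => -Real.log ((f * h).coeff (x + y))))) := by
    unfold H
    rw [I_mul]
    simp only [hk.const]
  have e4 : H (h * k) =
      I f (fun x => I h (fun y => I k (fun z => -Real.log ((h * k).coeff (y + z))))) := by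
    unfold H
    rw [I_mul, hf.const]
  -- pointwise inequality
  have key : I f (fun x => I h (fun y => I k (fun z =>
      1 - (f * h).coeff (x + y) * (h * k).coeff (y + z) /
        (h.coeff y * P.coeff (x + y + z))))) ≤
      I f (fun x => I h (fun y => I k (fun z =>
        (-Real.log ((f * h).coeff (x + y)) + -Real.log ((h * k).coeff (y + z))) -
        (-Real.log (P.coeff (x + y + z)) + -Real.log (h.coeff y))))) := by
    refine I_mono hf.pos fun x hx => I_mono hh.pos fun y hy => I_mono hk.pos fun z hz => ?_
    have hA : 0 < (f * h).coeff (x + y) := coeff_mul_pos hf.pos hh.pos hx hy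
    have hB : 0 < (h * k).coeff (y + z) := coeff_mul_pos hh.pos hk.pos hy hz
    have hC : 0 < h.coeff y := lt_of_le_of_ne (hh.pos y) (Ne.symm hy)
    have hD : 0 < P.coeff (x + y + z) := coeff_mul_pos (hf.pos.mul hh.pos) hk.pos hA.ne' hz
    have h1 := Real.log_le_sub_one_of_pos (div_pos (mul_pos hA hB) (mul_pos hC hD))
    rw [Real.log_div (mul_pos hA hB).ne' (mul_pos hC hD).ne', Real.log_mul hA.ne' hB.ne',
      Real.log_mul hC.ne' hD.ne'] at h1
    linarith
  -- the integral of the ratio is at most one
  have ratio : I f (fun x => I h (fun y => I k (fun z =>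
      (f * h).coeff (x + y) * (h * k).coeff (y + z) /
        (h.coeff y * P.coeff (x + y + z))))) ≤ 1 := by
    have s1 : ∀ x, f.coeff x ≠ 0 → ∀ z, k.coeff z ≠ 0 →
        I h (fun y => (f * h).coeff (x + y) * (h * k).coeff (y + z) /
          (h.coeff y * P.coeff (x + y + z))) ≤
        ∑ w ∈ P.coeff.support, (f * h).coeff (w - z) * (h * k).coeff (w - x) / P.coeff w := by
      intro x hx z hz
      have t1 : I h (fun y => (f * h).coeff (x + y) * (h * k).coeff (y + z) /
          (h.coeff y * P.coeff (x + y + z))) =
          ∑ y ∈ h.coeff.support, (f * h).coeff ((x + y + z) - z) *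
            (h * k).coeff ((x + y + z) - x) / P.coeff (x + y + z) := by
        unfold I
        refine Finset.sum_congr rfl fun y hy => ?_
        have hC : h.coeff y ≠ 0 := Finsupp.mem_support_iff.mp hy
        have q1 : x + y + z - z = x + y := by abel
        have q2 : x + y + z - x = y + z := by abel
        rw [q1, q2]
        field_simp
      rw [t1]
      have t2 : ∑ y ∈ h.coeff.support, (f * h).coeff ((x + y + z) - z) *
            (h * k).coeff ((x + y + z) - x) / P.coeff (x + y + z) =
          ∑ w ∈ h.coeff.support.image (fun y => x + y + z),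
            (f * h).coeff (w - z) * (h * k).coeff (w - x) / P.coeff w := by
        rw [Finset.sum_image]
        intro a _ b _ hab
        simpa using hab
      rw [t2]
      apply Finset.sum_le_sum_of_subset_of_nonneg
      · intro w hw
        obtain ⟨y, hy, rfl⟩ := Finset.mem_image.mp hw
        have hC : h.coeff y ≠ 0 := Finsupp.mem_support_iff.mp hy
        have hA : 0 < (f * h).coeff (x + y) := coeff_mul_pos hf.pos hh.pos hx hC
        exact Finsupp.mem_support_iff.mpr
          (coeff_mul_pos (hf.pos.mul hh.pos) hk.pos hA.ne' hz).ne'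
      · intro w _ _
        exact div_nonneg (mul_nonneg ((hf.pos.mul hh.pos) _) ((hh.pos.mul hk.pos) _))
          (hPprob.pos _)
    have s2 : I f (fun x => I h (fun y => I k (fun z =>
        (f * h).coeff (x + y) * (h * k).coeff (y + z) /
          (h.coeff y * P.coeff (x + y + z))))) ≤
        I f (fun x => I k (fun z => ∑ w ∈ P.coeff.support,
          (f * h).coeff (w - z) * (h * k).coeff (w - x) / P.coeff w)) := by
      have : ∀ x, I h (fun y => I k (fun z =>
        (f * h).coeff (x + y) * (h * k).coeff (y + z) /
          (h.coeff y * P.coeff (x + y + z)))) = I k (fun z => I h (fun y =>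
        (f * h).coeff (x + y) * (h * k).coeff (y + z) /
          (h.coeff y * P.coeff (x + y + z)))) := fun x => I_comm h k _
      simp only [this]
      exact I_mono hf.pos fun x hx => I_mono hk.pos fun z hz => s1 x hx z hz
    refine le_trans s2 ?_
    simp only [I_sum_right]
    have s3 : ∀ w ∈ P.coeff.support, I f (fun x => I k (fun z =>
        (f * h).coeff (w - z) * (h * k).coeff (w - x) / P.coeff w)) = P.coeff w := by
      intro w hw
      have hw0 : P.coeff w ≠ 0 := Finsupp.mem_support_iff.mp hw
      have t1 : ∀ x, I k (fun z =>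
          (f * h).coeff (w - z) * (h * k).coeff (w - x) / P.coeff w) =
          (h * k).coeff (w - x) := by
        intro x
        have : (fun z => (f * h).coeff (w - z) * (h * k).coeff (w - x) / P.coeff w) =
            fun z => (f * h).coeff (w - z) * ((h * k).coeff (w - x) / P.coeff w) := by
          ext z; ring
        rw [this, I_mul_right, ← coeff_mul_eq' (f * h) k, ← hP]
        field_simp
      simp only [t1]
      rw [← coeff_mul_eq, ← mul_assoc]
    rw [Finset.sum_congr rfl s3]
    have := hPprob.total
    unfold I at this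
    simp only [mul_one] at this
    exact this.le
  simp only [I_sub_right, I_add_right] at key
  rw [← e1, ← e2, ← e3, ← e4] at key
  have tot : I f (fun _ => I h (fun _ => I k (fun _ => (1 : ℝ)))) = 1 := by
    rw [hk.total, hh.total, hf.total]
  rw [tot] at key
  linarith

/-- Subadditivity. -/
theorem H_mul_le {f h : MA G} (hf : IsProb f) (hh : IsProb h) : H (f * h) ≤ H f + H h := by
  have := submod hf IsProb.one hh
  rw [mul_one, one_mul] at this
  have h1 := H_nonneg (IsProb.one : IsProb (1 : MA G))
  linarith

theorem H_pow_succ_sub_le {f : MA G} (hf : IsProb f) (m r : ℕ) :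
    H (f ^ (m + r + 1)) - H (f ^ (m + r)) ≤ H (f ^ (m + 1)) - H (f ^ m) := by
  have := submod hf (hf.pow m) (hf.pow r)
  have e1 : f * f ^ m * f ^ r = f ^ (m + r + 1) := by ring
  have e2 : f * f ^ m = f ^ (m + 1) := by ring
  have e3 : f ^ m * f ^ r = f ^ (m + r) := by ring
  rw [e1, e2, e3] at this
  linarith

theorem H_pow_add_sub_le {f : MA G} (hf : IsProb f) {m : ℕ} {K : ℝ}
    (hK : H (f ^ (m + 1)) - H (f ^ m) ≤ K) (r : ℕ) :
    H (f ^ (m + r)) - H (f ^ m) ≤ r * K := by
  induction r with
  | zero => simp
  | succ r ih =>
    have h1 := H_pow_succ_sub_le hf m r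
    push_cast
    have : m + (r + 1) = m + r + 1 := rfl
    rw [this]
    linarith

end Pool.Agent.W_MP_b45167_pr
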