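import Pool.Agent.W_MP_b45167_pr.Abbn

/-!
# The theorem for finitely supported measures
-/

namespace Pool.Agent.W_MP_b45167_pr

open Finset

universe u

theorem infOrder_of_ne {G : Type*} [AddCommGroup G] [IsAddTorsionFree G] {g : G} (hg : g ≠ 0) :
    InfOrder g := by
  have key : ∀ j k : ℕ, j ≤ k → j • g = k • g → j = k := by
    intro j k hjk h
    obtain ⟨d, rfl⟩ := Nat.exists_eq_add_of_le hjk
    rw [add_smul] at h
    have h1 : d • g = 0 := by
      have : j • g + 0 = j • g + d • g := by rw [add_zero]; exact h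
      exact (add_left_cancel this).symm
    rw [nsmul_eq_zero_iff_left hg] at h1
    omega
  intro j k h
  rcases le_total j k with h1 | h1
  · exact key j k h1 h
  · exact (key k j h1 h.symm).symm

theorem finite_main (m : ℕ) {ε : ℝ} (hε : 0 < ε) : ∃ C : ℝ, ∀ (G : Type u) [AddCommGroup G]
    [IsAddTorsionFree G] (μ : MA G), IsProb μ → C ≤ H μ →
    H (μ ^ (m + 1)) + 1 / 2 * (Real.log ((m : ℝ) + 2) - Real.log ((m : ℝ) + 1)) - ε ≤
      H (μ ^ (m + 2)) := by
  obtain ⟨L, hL⟩ := exists_nat_ge (8 / ε + 1)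
  have hL0 : (0 : ℝ) < L := lt_of_lt_of_le (by positivity) hL
  have hL1 : 1 ≤ L := by
    have : (0 : ℕ) < L := by exact_mod_cast hL0
    omega
  have hLε : 4 / (L : ℝ) ≤ ε / 2 := by
    rw [div_le_iff₀ hL0]
    have h1 : 8 / ε ≤ L := by linarith
    rw [div_le_iff₀ hε] at h1
    linarith
  set δ : ℝ := ε / (2 * ((m + 2) * L)) with hδ
  have hδ0 : 0 < δ := by positivity
  obtain ⟨C, hC⟩ := smoothing.{u} m hδ0
  refine ⟨C, ?_⟩
  intro G _ _ μ hμ hCμ
  have hm0 : (0 : ℝ) ≤ m := Nat.cast_nonneg m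
  by_cases hinc : H (μ ^ (m + 2)) - H (μ ^ (m + 1)) ≤ 1
  · obtain ⟨t, ht, hl1⟩ := hC G μ hμ hinc hCμ
    have hInf := infOrder_of_ne ht
    have h1 := abbn hInf hμ m hL1
    have h2 := hB_add_le (g := t) (hμ.pow (m + 2)) 0 ((m + 2) * L)
    rw [zero_add] at h2
    have h3 : dh t (μ ^ (m + 2)) 0 ≤ δ := by
      rw [dh_eq, pow_zero, mul_one]
      exact (H_bern_le_l1 t (hμ.pow (m + 2))).trans hl1
    have h4 : hB t (μ ^ (m + 2)) 0 = H (μ ^ (m + 2)) := by
      unfold hB; rw [pow_zero, mul_one]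
    have h5 : H (μ ^ (m + 1)) ≤ hB t (μ ^ (m + 1)) ((m + 1) * L) :=
      H_le_H_mul' (hμ.pow _) ((IsProb.bern t).pow _)
    have h6 : (((m + 2) * L : ℕ) : ℝ) * dh t (μ ^ (m + 2)) 0 ≤ ε / 2 := by
      have h7 : (((m + 2) * L : ℕ) : ℝ) * dh t (μ ^ (m + 2)) 0 ≤ (((m + 2) * L : ℕ) : ℝ) * δ :=
        mul_le_mul_of_nonneg_left h3 (Nat.cast_nonneg _)
      refine h7.trans (le_of_eq ?_)
      rw [hδ]
      push_cast
      field_simp
    linarith
  · push Not at hinc
    have h1 : Real.log ((m : ℝ) + 2) - Real.log ((m : ℝ) + 1) ≤ 1 := by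
      rw [← Real.log_div (by positivity) (by positivity)]
      have h2 := Real.log_le_sub_one_of_pos (x := ((m : ℝ) + 2) / ((m : ℝ) + 1)) (by positivity)
      refine h2.trans ?_
      rw [div_sub_one (by positivity), div_le_one (by positivity)]
      linarith
    linarith

end Pool.Agent.W_MP_b45167_pr
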