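import Mathlib

/-!
# Elementary inequalities for the logarithm
-/

namespace Pool.Agent.W_MP_b45167_pr

open Real Set

theorem log_upper {u : ℝ} (hu : -1 < u) : Real.log (1 + u) ≤ u - u ^ 2 / 2 + u ^ 3 / 3 := by
  -- f u = u - u^2/2 + u^3/3 - log (1+u), f' = u^3/(1+u)
  set f : ℝ → ℝ := fun u => u - u ^ 2 / 2 + u ^ 3 / 3 - Real.log (1 + u) with hf
  have hderiv : ∀ x : ℝ, -1 < x → HasDerivAt f (x ^ 3 / (1 + x)) x := by
    intro x hx
    have hx1 : (1 + x) ≠ 0 := by linarith
    have h1 : HasDerivAt (fun u : ℝ => 1 + u) 1 x := (hasDerivAt_id x).const_add 1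
    have h2 : HasDerivAt (fun u : ℝ => Real.log (1 + u)) (1 / (1 + x)) x := by
      simpa using h1.log hx1
    have h3 : HasDerivAt (fun u : ℝ => u - u ^ 2 / 2 + u ^ 3 / 3) (1 - x + x ^ 2) x := by
      have a1 : HasDerivAt (fun u : ℝ => u) 1 x := hasDerivAt_id x
      have a2 : HasDerivAt (fun u : ℝ => u ^ 2 / 2) x x := by
        have := (hasDerivAt_pow 2 x).div_const 2
        simpa using this
      have a3 : HasDerivAt (fun u : ℝ => u ^ 3 / 3) (x ^ 2) x := by
        have := (hasDerivAt_pow 3 x).div_const 3
        simpa using this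
      exact (a1.sub a2).add a3
    have h4 := h3.sub h2
    have e : x ^ 3 / (1 + x) = 1 - x + x ^ 2 - 1 / (1 + x) := by
      field_simp
      ring
    rw [e]
    exact h4
  have h0 : f 0 = 0 := by simp [hf]
  suffices 0 ≤ f u by
    simp only [hf] at this
    linarith
  rw [← h0]
  rcases le_total 0 u with h | h
  · have hmono : MonotoneOn f (Icc 0 u) := by
      apply monotoneOn_of_deriv_nonneg (convex_Icc 0 u)
      · intro x hx
        exact (hderiv x (by linarith [hx.1])).continuousAt.continuousWithinAt
      · intro x hx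
        rw [interior_Icc] at hx
        exact (hderiv x (by linarith [hx.1])).differentiableAt.differentiableWithinAt
      · intro x hx
        rw [interior_Icc] at hx
        rw [(hderiv x (by linarith [hx.1])).deriv]
        have : 0 < x := hx.1
        positivity
    exact hmono (left_mem_Icc.mpr h) (right_mem_Icc.mpr h) h
  · have hanti : AntitoneOn f (Icc u 0) := by
      apply antitoneOn_of_deriv_nonpos (convex_Icc u 0)
      · intro x hx
        exact (hderiv x (by linarith [hx.1])).continuousAt.continuousWithinAt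
      · intro x hx
        rw [interior_Icc] at hx
        exact (hderiv x (by linarith [hx.1])).differentiableAt.differentiableWithinAt
      · intro x hx
        rw [interior_Icc] at hx
        rw [(hderiv x (by linarith [hx.1])).deriv]
        have h1 : x < 0 := hx.2
        have h2 : 0 < 1 + x := by linarith [hx.1]
        apply div_nonpos_of_nonpos_of_nonneg _ h2.le
        have : x ^ 3 = x ^ 2 * x := by ring
        rw [this]
        exact mul_nonpos_of_nonneg_of_nonpos (sq_nonneg x) h1.le
    exact hanti (left_mem_Icc.mpr h) (right_mem_Icc.mpr h) h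

theorem log_quad_monotone {x y : ℝ} (hx : -1 < x) (hxy : x ≤ y) :
    Real.log (1 + x) - x + x ^ 2 / 2 ≤ Real.log (1 + y) - y + y ^ 2 / 2 := by
  set f : ℝ → ℝ := fun u => Real.log (1 + u) - u + u ^ 2 / 2 with hf
  have hderiv : ∀ x : ℝ, -1 < x → HasDerivAt f (x ^ 2 / (1 + x)) x := by
    intro x hx
    have hx1 : (1 + x) ≠ 0 := by linarith
    have h1 : HasDerivAt (fun u : ℝ => 1 + u) 1 x := (hasDerivAt_id x).const_add 1
    have h2 : HasDerivAt (fun u : ℝ => Real.log (1 + u)) (1 / (1 + x)) x := by
      simpa using h1.log hx1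
    have a1 : HasDerivAt (fun u : ℝ => u) 1 x := hasDerivAt_id x
    have a2 : HasDerivAt (fun u : ℝ => u ^ 2 / 2) x x := by
      have := (hasDerivAt_pow 2 x).div_const 2
      simpa using this
    have h4 := (h2.sub a1).add a2
    have e : x ^ 2 / (1 + x) = 1 / (1 + x) - 1 + x := by
      field_simp
      ring
    rw [e]
    exact h4
  have hmono : MonotoneOn f (Icc x y) := by
    apply monotoneOn_of_deriv_nonneg (convex_Icc x y)
    · intro z hz
      exact (hderiv z (by linarith [hz.1])).continuousAt.continuousWithinAt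
    · intro z hz
      rw [interior_Icc] at hz
      exact (hderiv z (by linarith [hz.1])).differentiableAt.differentiableWithinAt
    · intro z hz
      rw [interior_Icc] at hz
      rw [(hderiv z (by linarith [hz.1])).deriv]
      have : 0 < 1 + z := by linarith [hz.1]
      positivity
  exact hmono (left_mem_Icc.mpr hxy) (right_mem_Icc.mpr hxy) hxy

theorem xlog_lower {u : ℝ} (hu : -1 < u) :
    u + u ^ 2 / 2 - u ^ 3 / 6 ≤ (1 + u) * Real.log (1 + u) := by
  set f : ℝ → ℝ := fun u => (1 + u) * Real.log (1 + u) - (u + u ^ 2 / 2 - u ^ 3 / 6) with hf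
  have hderiv : ∀ x : ℝ, -1 < x → HasDerivAt f (Real.log (1 + x) - x + x ^ 2 / 2) x := by
    intro x hx
    have hx1 : (1 + x) ≠ 0 := by linarith
    have h1 : HasDerivAt (fun u : ℝ => 1 + u) 1 x := (hasDerivAt_id x).const_add 1
    have h2 : HasDerivAt (fun u : ℝ => Real.log (1 + u)) (1 / (1 + x)) x := by
      simpa using h1.log hx1
    have h2' : HasDerivAt (fun u : ℝ => (1 + u) * Real.log (1 + u))
        (1 * Real.log (1 + x) + (1 + x) * (1 / (1 + x))) x := h1.mul h2
    have a1 : HasDerivAt (fun u : ℝ => u) 1 x := hasDerivAt_id x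
    have a2 : HasDerivAt (fun u : ℝ => u ^ 2 / 2) x x := by
      have := (hasDerivAt_pow 2 x).div_const 2
      simpa using this
    have a3 : HasDerivAt (fun u : ℝ => u ^ 3 / 6) (x ^ 2 / 2) x := by
      have h5 := (hasDerivAt_pow 3 x).div_const 6
      have e : x ^ 2 / 2 = ((3 : ℕ) : ℝ) * x ^ (3 - 1) / 6 := by
        norm_num; ring
      rw [e]
      exact h5
    have h4 := h2'.sub ((a1.add a2).sub a3)
    have e : Real.log (1 + x) - x + x ^ 2 / 2 =
        1 * Real.log (1 + x) + (1 + x) * (1 / (1 + x)) - (1 + x - x ^ 2 / 2) := by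
      have : (1 + x) * (1 / (1 + x)) = 1 := by field_simp
      rw [this]; ring
    rw [e]
    exact h4
  have h0 : f 0 = 0 := by simp [hf]
  suffices 0 ≤ f u by
    simp only [hf] at this
    linarith
  rw [← h0]
  rcases le_total 0 u with h | h
  · have hmono : MonotoneOn f (Icc 0 u) := by
      apply monotoneOn_of_deriv_nonneg (convex_Icc 0 u)
      · intro x hx
        exact (hderiv x (by linarith [hx.1])).continuousAt.continuousWithinAt
      · intro x hx
        rw [interior_Icc] at hx
        exact (hderiv x (by linarith [hx.1])).differentiableAt.differentiableWithinAt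
      · intro x hx
        rw [interior_Icc] at hx
        rw [(hderiv x (by linarith [hx.1])).deriv]
        have := log_quad_monotone (x := 0) (y := x) (by norm_num) hx.1.le
        simpa using this
    exact hmono (left_mem_Icc.mpr h) (right_mem_Icc.mpr h) h
  · have hanti : AntitoneOn f (Icc u 0) := by
      apply antitoneOn_of_deriv_nonpos (convex_Icc u 0)
      · intro x hx
        exact (hderiv x (by linarith [hx.1])).continuousAt.continuousWithinAt
      · intro x hx
        rw [interior_Icc] at hx
        exact (hderiv x (by linarith [hx.1])).differentiableAt.differentiableWithinAt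
      · intro x hx
        rw [interior_Icc] at hx
        rw [(hderiv x (by linarith [hx.1])).deriv]
        have := log_quad_monotone (x := x) (y := 0) (by linarith [hx.1]) hx.2.le
        simpa using this
    exact hanti (left_mem_Icc.mpr h) (right_mem_Icc.mpr h) h

theorem xlog_lower' {u : ℝ} (hu : -1 ≤ u) :
    u + u ^ 2 / 2 - u ^ 3 / 6 ≤ (1 + u) * Real.log (1 + u) := by
  rcases eq_or_lt_of_le hu with h | h
  · rw [← h]; norm_num
  · exact xlog_lower h

theorem xlog_upper' {u : ℝ} (hu : -1 ≤ u) :
    (1 + u) * Real.log (1 + u) ≤ u + u ^ 2 / 2 - u ^ 3 / 6 + u ^ 4 / 3 := by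
  rcases eq_or_lt_of_le hu with h | h
  · rw [← h]; norm_num
  · have h1 := mul_le_mul_of_nonneg_left (log_upper h) (by linarith : (0 : ℝ) ≤ 1 + u)
    refine h1.trans (le_of_eq ?_)
    ring

/-- Two-point comparison: `a, b ≥ 0` with mean `m > 0`, and `u = (a-b)/(a+b)`. -/
theorem two_point {a b : ℝ} (ha : 0 ≤ a) (hb : 0 ≤ b) (hab : 0 < a + b) :
    (a + b) / 2 * (((a - b) / (a + b)) ^ 2 / 2) ≤
      -((a + b) / 2 * Real.log ((a + b) / 2)) + (a * Real.log a + b * Real.log b) / 2 ∧
    -((a + b) / 2 * Real.log ((a + b) / 2)) + (a * Real.log a + b * Real.log b) / 2 ≤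
      (a + b) / 2 * (((a - b) / (a + b)) ^ 2 / 2 + ((a - b) / (a + b)) ^ 4 / 3) := by
  set m := (a + b) / 2 with hm
  set u := (a - b) / (a + b) with hu
  have hmpos : 0 < m := by positivity
  have ea : a = m * (1 + u) := by rw [hm, hu]; field_simp; ring
  have eb : b = m * (1 - u) := by rw [hm, hu]; field_simp; ring
  have hu1 : -1 ≤ u := by
    rw [hu, le_div_iff₀ hab]; linarith
  have hu2 : u ≤ 1 := by
    rw [hu, div_le_iff₀ hab]; linarith
  have key : ∀ w : ℝ, (m * w) * Real.log (m * w) = m * w * Real.log m + m * (w * Real.log w) := by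
    intro w
    rcases eq_or_ne w 0 with h | h
    · rw [h]; simp
    · rw [Real.log_mul hmpos.ne' h]; ring
  have e1 : -(m * Real.log m) + (a * Real.log a + b * Real.log b) / 2 =
      m * (((1 + u) * Real.log (1 + u) + (1 - u) * Real.log (1 - u)) / 2) := by
    rw [ea, eb, key, key]; ring
  rw [e1]
  have l1 := xlog_lower' hu1
  have l2 := xlog_lower' (u := -u) (by linarith)
  have u1 := xlog_upper' hu1
  have u2 := xlog_upper' (u := -u) (by linarith)
  have hs : (1 : ℝ) + -u = 1 - u := by ring
  rw [hs] at l2 u2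
  constructor
  · apply mul_le_mul_of_nonneg_left _ hmpos.le
    nlinarith
  · apply mul_le_mul_of_nonneg_left _ hmpos.le
    nlinarith

end Pool.Agent.W_MP_b45167_pr
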