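import Pool.Agent.W_MP_b45167_pr.Smooth
import Pool.Agent.W_MP_b45167_pr.LogIneq

/-!
# The discrete Fisher information in direction `g`
-/

namespace Pool.Agent.W_MP_b45167_pr

open Finset

set_option linter.unusedSectionVars false

variable {G : Type*} [AddCommGroup G]

/-- The measure `v` plus its translate by `g`. -/
noncomputable def Sg (g : G) (v : MA G) : MA G := v + AddMonoidAlgebra.single g 1 * v

/-- The measure `v` minus its translate by `g`. -/
noncomputable def Dg (g : G) (v : MA G) : MA G := v - AddMonoidAlgebra.single g 1 * v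

/-- The discrete score. -/
noncomputable def U (g : G) (v : MA G) (x : G) : ℝ := (Dg g v).coeff x / (Sg g v).coeff x

/-- The uniform measure on `{0, g}`. -/
noncomputable def bern (g : G) : MA G := (1 / 2 : ℝ) • (1 + AddMonoidAlgebra.single g 1)

/-- The `φ`-information in direction `g`. -/
noncomputable def Kφ (φ : ℝ → ℝ) (g : G) (v : MA G) : ℝ :=
  1 / 2 * I (Sg g v) (fun x => φ (U g v x))

theorem coeff_Sg (g : G) (v : MA G) (x : G) :
    (Sg g v).coeff x = v.coeff x + v.coeff (x - g) := by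
  have : (Sg g v).coeff x = v.coeff x + (AddMonoidAlgebra.single g 1 * v).coeff x := rfl
  rw [this, coeff_single_mul, one_mul]

theorem coeff_Dg (g : G) (v : MA G) (x : G) :
    (Dg g v).coeff x = v.coeff x - v.coeff (x - g) := by
  have : (Dg g v).coeff x = v.coeff x - (AddMonoidAlgebra.single g 1 * v).coeff x := rfl
  rw [this, coeff_single_mul, one_mul]

theorem Sg_mul (g : G) (ν v : MA G) : Sg g (ν * v) = ν * Sg g v := by
  unfold Sg; ring

theorem Dg_mul (g : G) (ν v : MA G) : Dg g (ν * v) = ν * Dg g v := by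
  unfold Dg; ring

theorem Pos.Sg {g : G} {v : MA G} (hv : Pos v) : Pos (Sg g v) := by
  intro x; rw [coeff_Sg]; exact add_nonneg (hv _) (hv _)

theorem I_Sg (g : G) (v : MA G) (φ : G → ℝ) :
    I (Sg g v) φ = I v φ + I v (fun x => φ (x + g)) := by
  unfold Sg
  rw [I_add_left, I_mul, I_single, one_mul]
  simp only [add_comm g]

theorem I_Dg (g : G) (v : MA G) (φ : G → ℝ) :
    I (Dg g v) φ = I v φ - I v (fun x => φ (x + g)) := by
  unfold Dg
  rw [I_sub_left, I_mul, I_single, one_mul]
  simp only [add_comm g]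

theorem mul_bern (g : G) (v : MA G) : v * bern g = (1 / 2 : ℝ) • Sg g v := by
  unfold bern Sg
  rw [mul_smul_comm, mul_add, mul_one, mul_comm v]

theorem I_bern (g : G) (φ : G → ℝ) : I (bern g) φ = (φ 0 + φ g) / 2 := by
  unfold bern
  rw [I_smul_left, I_add_left, I_one, I_single]; ring

theorem IsProb.bern (g : G) : IsProb (bern g) where
  pos := Pos.smul (by norm_num) (Pos.one.add (Pos.single g zero_le_one))
  total := by rw [I_bern]; norm_num

theorem SU {g : G} {v : MA G} (hv : Pos v) (x : G) :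
    (Sg g v).coeff x * U g v x = (Dg g v).coeff x := by
  unfold U
  by_cases h : (Sg g v).coeff x = 0
  · rw [h]
    rw [coeff_Sg] at h
    rw [coeff_Dg]
    have h1 := hv x
    have h2 := hv (x - g)
    have h3 : v.coeff x = 0 := by linarith
    have h4 : v.coeff (x - g) = 0 := by linarith
    rw [h3, h4]; simp
  · field_simp

/-- Integration against `Dg` in terms of the score. -/
theorem I_SgU {g : G} {v : MA G} (hv : Pos v) (φ : G → ℝ) :
    I (Sg g v) (fun x => U g v x * φ x) = I (Dg g v) φ := by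
  classical
  have h1 : (Sg g v).coeff.support ⊆ (Sg g v).coeff.support ∪ (Dg g v).coeff.support :=
    Finset.subset_union_left
  have h2 : (Dg g v).coeff.support ⊆ (Sg g v).coeff.support ∪ (Dg g v).coeff.support :=
    Finset.subset_union_right
  rw [I_eq_of_subset h1, I_eq_of_subset h2]
  refine Finset.sum_congr rfl fun x _ => ?_
  rw [← SU hv x]; ring

theorem support_subset_Sg {g : G} {v : MA G} (hv : Pos v) :
    v.coeff.support ⊆ (Sg g v).coeff.support := by
  intro x hx
  rw [Finsupp.mem_support_iff] at hx ⊢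
  rw [coeff_Sg]
  have h1 : 0 < v.coeff x := lt_of_le_of_ne (hv x) (Ne.symm hx)
  have h2 := hv (x - g)
  linarith

theorem support_subset_Sg' {g : G} {v : MA G} (hv : Pos v) :
    (AddMonoidAlgebra.single g 1 * v).coeff.support ⊆ (Sg g v).coeff.support := by
  intro x hx
  rw [Finsupp.mem_support_iff] at hx ⊢
  rw [coeff_single_mul, one_mul] at hx
  rw [coeff_Sg]
  have h1 : 0 < v.coeff (x - g) := lt_of_le_of_ne (hv _) (Ne.symm hx)
  have h2 := hv x
  linarith

/-- Comparison of the entropy increment with the informations. -/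
theorem H_bern_bounds (g : G) {v : MA G} (hv : IsProb v) :
    1 / 2 * Kφ (fun t => t ^ 2) g v ≤ H (v * bern g) - H v ∧
    H (v * bern g) - H v ≤
      1 / 2 * Kφ (fun t => t ^ 2) g v + 1 / 3 * Kφ (fun t => t ^ 4) g v := by
  classical
  set S := (Sg g v).coeff.support with hS
  have hb : (v * bern g).coeff.support ⊆ S := by
    intro x hx
    rw [mul_bern, Finsupp.mem_support_iff, AddMonoidAlgebra.coeff_smul, Finsupp.smul_apply] at hx
    rw [hS, Finsupp.mem_support_iff]
    intro h0
    rw [h0] at hx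
    simp at hx
  have e1 : H (v * bern g) = ∑ x ∈ S, -((v.coeff x + v.coeff (x - g)) / 2 *
      Real.log ((v.coeff x + v.coeff (x - g)) / 2)) := by
    unfold H
    rw [I_eq_of_subset hb]
    refine Finset.sum_congr rfl fun x _ => ?_
    have : (v * bern g).coeff x = (v.coeff x + v.coeff (x - g)) / 2 := by
      rw [mul_bern, AddMonoidAlgebra.coeff_smul, Finsupp.smul_apply, coeff_Sg, smul_eq_mul]
      ring
    rw [this]; ring
  have e2 : H v = ∑ x ∈ S, -(v.coeff x * Real.log (v.coeff x)) := by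
    unfold H
    rw [I_eq_of_subset (support_subset_Sg (g := g) hv.pos)]
    exact Finset.sum_congr rfl fun x _ => by ring
  have e3 : H v = ∑ x ∈ S, -(v.coeff (x - g) * Real.log (v.coeff (x - g))) := by
    rw [← H_single_mul g v]
    unfold H
    rw [I_eq_of_subset (support_subset_Sg' (g := g) hv.pos)]
    refine Finset.sum_congr rfl fun x _ => ?_
    rw [coeff_single_mul, one_mul]; ring
  have e4 : H (v * bern g) - H v = ∑ x ∈ S,
      (-((v.coeff x + v.coeff (x - g)) / 2 * Real.log ((v.coeff x + v.coeff (x - g)) / 2)) +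
        (v.coeff x * Real.log (v.coeff x) +
          v.coeff (x - g) * Real.log (v.coeff (x - g))) / 2) := by
    have : H (v * bern g) - H v = H (v * bern g) - (1 / 2) * H v - (1 / 2) * H v := by ring
    rw [this]
    conv_lhs => rw [e1]
    nth_rw 1 [e2]
    rw [e3, Finset.mul_sum, Finset.mul_sum, ← Finset.sum_sub_distrib, ← Finset.sum_sub_distrib]
    exact Finset.sum_congr rfl fun x _ => by ring
  have hK : ∀ φ : ℝ → ℝ, Kφ φ g v = ∑ x ∈ S, (v.coeff x + v.coeff (x - g)) / 2 *
      φ ((v.coeff x - v.coeff (x - g)) / (v.coeff x + v.coeff (x - g))) := by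
    intro φ
    unfold Kφ I
    rw [Finset.mul_sum]
    refine Finset.sum_congr rfl fun x _ => ?_
    simp only [U, coeff_Sg, coeff_Dg]; ring
  have hpos : ∀ x ∈ S, 0 < v.coeff x + v.coeff (x - g) := by
    intro x hx
    rw [hS, Finsupp.mem_support_iff, coeff_Sg] at hx
    exact lt_of_le_of_ne (add_nonneg (hv.pos _) (hv.pos _)) (Ne.symm hx)
  rw [e4, hK, hK]
  constructor
  · rw [Finset.mul_sum]
    refine Finset.sum_le_sum fun x hx => ?_
    have := (two_point (hv.pos x) (hv.pos (x - g)) (hpos x hx)).1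
    refine le_trans (le_of_eq ?_) this
    ring
  · rw [Finset.mul_sum, Finset.mul_sum, ← Finset.sum_add_distrib]
    refine Finset.sum_le_sum fun x hx => ?_
    have := (two_point (hv.pos x) (hv.pos (x - g)) (hpos x hx)).2
    refine le_trans this (le_of_eq ?_)
    ring

/-- Bound of the entropy increment by the `ℓ¹` distance. -/
theorem H_bern_le_l1 (g : G) {v : MA G} (hv : IsProb v) :
    H (v * bern g) - H v ≤ l1 (v - AddMonoidAlgebra.single g 1 * v) := by
  classical
  refine (H_bern_bounds g hv).2.trans ?_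
  have hDS : (Dg g v).coeff.support ⊆ (Sg g v).coeff.support := by
    intro x hx
    rw [Finsupp.mem_support_iff, coeff_Dg] at hx
    rw [Finsupp.mem_support_iff, coeff_Sg]
    intro h0
    apply hx
    have h1 := hv.pos x
    have h2 := hv.pos (x - g)
    have h3 : v.coeff x = 0 := by linarith
    have h4 : v.coeff (x - g) = 0 := by linarith
    rw [h3, h4]; simp
  have e : v - AddMonoidAlgebra.single g 1 * v = Dg g v := rfl
  rw [e, l1_eq_of_subset hDS]
  unfold Kφ I
  rw [← mul_assoc, ← mul_assoc, Finset.mul_sum, Finset.mul_sum, ← Finset.sum_add_distrib]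
  refine Finset.sum_le_sum fun x hx => ?_
  have hSpos : 0 ≤ (Sg g v).coeff x := hv.pos.Sg x
  have hU : |U g v x| ≤ 1 := by
    unfold U
    rw [abs_div, abs_of_nonneg hSpos]
    apply div_le_one_of_le₀ _ hSpos
    rw [coeff_Dg, coeff_Sg]
    have h1 := hv.pos x
    have h2 := hv.pos (x - g)
    rw [abs_le]; constructor <;> linarith
  have hU2 : (U g v x) ^ 2 ≤ |U g v x| := by
    rw [← sq_abs]
    nlinarith [abs_nonneg (U g v x)]
  have hU4 : (U g v x) ^ 4 ≤ |U g v x| := by
    have : (U g v x) ^ 4 = |U g v x| ^ 4 := by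
      rw [← abs_pow]
      exact (abs_of_nonneg (by positivity)).symm
    rw [this]
    exact pow_le_of_le_one (abs_nonneg _) hU (by norm_num)
  have hD : |(Dg g v).coeff x| = (Sg g v).coeff x * |U g v x| := by
    rw [← SU hv.pos x, abs_mul, abs_of_nonneg hSpos]
  rw [hD]
  have h1 : (Sg g v).coeff x * (U g v x) ^ 2 ≤ (Sg g v).coeff x * |U g v x| :=
    mul_le_mul_of_nonneg_left hU2 hSpos
  have h2 : (Sg g v).coeff x * (U g v x) ^ 4 ≤ (Sg g v).coeff x * |U g v x| :=
    mul_le_mul_of_nonneg_left hU4 hSpos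
  have h3 : 0 ≤ (Sg g v).coeff x * |U g v x| := mul_nonneg hSpos (abs_nonneg _)
  linarith

/-- Data processing for the informations. -/
theorem Kφ_mul_le {φ φ' : ℝ → ℝ} (hφ0 : ∀ u, 0 ≤ φ u)
    (hφ : ∀ b u, φ u + φ' u * (b - u) ≤ φ b) (g : G) {ν v : MA G} (hν : IsProb ν)
    (hv : Pos v) : Kφ φ g (ν * v) ≤ Kφ φ g v := by
  classical
  unfold Kφ
  apply mul_le_mul_of_nonneg_left _ (by norm_num)
  set S' := Sg g (ν * v) with hS'
  have hνv : Pos (ν * v) := hν.pos.mul hv
  -- pointwise bound
  have hpt : ∀ z, S'.coeff z * φ (U g (ν * v) z) ≤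
      I ν (fun x => (Sg g v).coeff (z - x) * φ (U g v (z - x))) := by
    intro z
    set u := U g (ν * v) z with hu
    have h1 : S'.coeff z = I ν (fun x => (Sg g v).coeff (z - x)) := by
      rw [hS', Sg_mul, coeff_mul_eq]
    have h2 : S'.coeff z * u = I ν (fun x => (Sg g v).coeff (z - x) * U g v (z - x)) := by
      rw [hu, hS', SU hνv, Dg_mul, coeff_mul_eq]
      refine I_congr fun x _ => ?_
      rw [SU hv]
    have h3 : I ν (fun x => (Sg g v).coeff (z - x) *
        (φ u + φ' u * (U g v (z - x) - u))) ≤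
        I ν (fun x => (Sg g v).coeff (z - x) * φ (U g v (z - x))) := by
      refine I_mono hν.pos fun x _ => mul_le_mul_of_nonneg_left (hφ _ _) (hv.Sg _)
    refine le_trans (le_of_eq ?_) h3
    have h4 : ∀ x, (Sg g v).coeff (z - x) * (φ u + φ' u * (U g v (z - x) - u)) =
        (φ u - φ' u * u) * (Sg g v).coeff (z - x) +
        φ' u * ((Sg g v).coeff (z - x) * U g v (z - x)) := fun x => by ring
    simp only [h4]
    rw [I_add_right, I_mul_left, I_mul_left, ← h1, ← h2]
    ring
  have hsum : I S' (fun z => φ (U g (ν * v) z)) ≤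
      ∑ z ∈ S'.coeff.support, I ν (fun x => (Sg g v).coeff (z - x) * φ (U g v (z - x))) :=
    Finset.sum_le_sum fun z _ => hpt z
  refine hsum.trans ?_
  rw [← I_sum_right]
  have hx : ∀ x, ∑ z ∈ S'.coeff.support, (Sg g v).coeff (z - x) * φ (U g v (z - x)) ≤
      I (Sg g v) (fun x => φ (U g v x)) := by
    intro x
    have : ∑ z ∈ S'.coeff.support, (Sg g v).coeff (z - x) * φ (U g v (z - x)) =
        ∑ w ∈ S'.coeff.support.image (fun z => z - x), (Sg g v).coeff w * φ (U g v w) := by
      rw [Finset.sum_image]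
      intro a _ b _ hab
      simpa using hab
    rw [this]
    exact sum_le_I hv.Sg _ fun w => hφ0 _
  refine (I_mono hν.pos (ψ := fun _ => I (Sg g v) (fun x => φ (U g v x))) fun x _ => hx x).trans ?_
  rw [hν.const]

theorem K2_mul_le (g : G) {ν v : MA G} (hν : IsProb ν) (hv : Pos v) :
    Kφ (fun t => t ^ 2) g (ν * v) ≤ Kφ (fun t => t ^ 2) g v := by
  refine Kφ_mul_le (φ' := fun u => 2 * u) (fun u => sq_nonneg u) (fun b u => ?_) g hν hv
  nlinarith [sq_nonneg (b - u)]

theorem K4_mul_le (g : G) {ν v : MA G} (hν : IsProb ν) (hv : Pos v) :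
    Kφ (fun t => t ^ 4) g (ν * v) ≤ Kφ (fun t => t ^ 4) g v := by
  refine Kφ_mul_le (φ' := fun u => 4 * u ^ 3) (fun u => by positivity) (fun b u => ?_) g hν hv
  have : b ^ 4 - (u ^ 4 + 4 * u ^ 3 * (b - u)) = (b - u) ^ 2 * ((b + u) ^ 2 + 2 * u ^ 2) := by
    ring
  have h2 : 0 ≤ (b - u) ^ 2 * ((b + u) ^ 2 + 2 * u ^ 2) := by positivity
  linarith

theorem K2_nonneg (g : G) {v : MA G} (hv : Pos v) : 0 ≤ Kφ (fun t => t ^ 2) g v := by
  unfold Kφ
  apply mul_nonneg (by norm_num)
  exact I_nonneg hv.Sg fun x _ => sq_nonneg _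

end Pool.Agent.W_MP_b45167_pr
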