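import Pool.Agent.W_MP_b45167_pr.Tuple

/-!
# The square norm, log-convexity and sampling
-/

namespace Pool.Agent.W_MP_b45167_pr

open Finset

variable {G : Type*}

/-- Inner product. -/
noncomputable def ip (f h : MA G) : ℝ := I f h.coeff

/-- Square of the `ℓ²` norm. -/
noncomputable def nsq (f : MA G) : ℝ := ip f f

theorem ip_comm (f h : MA G) : ip f h = ip h f := I_coeff_comm f h

theorem ip_add_left (f f' h : MA G) : ip (f + f') h = ip f h + ip f' h := I_add_left f f' _

theorem ip_sub_left (f f' h : MA G) : ip (f - f') h = ip f h - ip f' h := I_sub_left f f' _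

theorem ip_smul_left (c : ℝ) (f h : MA G) : ip (c • f) h = c * ip f h := I_smul_left c f _

theorem ip_add_right (f h h' : MA G) : ip f (h + h') = ip f h + ip f h' := by
  rw [ip_comm, ip_add_left, ip_comm h, ip_comm h']

theorem ip_sub_right (f h h' : MA G) : ip f (h - h') = ip f h - ip f h' := by
  rw [ip_comm, ip_sub_left, ip_comm h, ip_comm h']

theorem ip_smul_right (c : ℝ) (f h : MA G) : ip f (c • h) = c * ip f h := by
  rw [ip_comm, ip_smul_left, ip_comm h]

theorem ip_sum_left {κ : Type*} (s : Finset κ) (f : κ → MA G) (h : MA G) :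
    ip (∑ i ∈ s, f i) h = ∑ i ∈ s, ip (f i) h := I_sum_left s f _

theorem ip_sum_right {κ : Type*} (s : Finset κ) (f : MA G) (h : κ → MA G) :
    ip f (∑ i ∈ s, h i) = ∑ i ∈ s, ip f (h i) := by
  rw [ip_comm, ip_sum_left]
  exact Finset.sum_congr rfl fun i _ => ip_comm _ _

theorem ip_zero_right (f : MA G) : ip f 0 = 0 := by
  rw [ip_comm]; exact I_zero_left _

theorem nsq_eq_of_subset {f : MA G} {s : Finset G} (h : f.coeff.support ⊆ s) :
    nsq f = ∑ x ∈ s, (f.coeff x) ^ 2 := by
  unfold nsq ip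
  rw [I_eq_of_subset h]
  exact Finset.sum_congr rfl fun x _ => by ring

theorem nsq_nonneg (f : MA G) : 0 ≤ nsq f := by
  rw [nsq_eq_of_subset (Finset.Subset.refl _)]
  exact Finset.sum_nonneg fun x _ => sq_nonneg _

theorem ip_sq_le (f h : MA G) : (ip f h) ^ 2 ≤ nsq f * nsq h := by
  classical
  have h1 : f.coeff.support ⊆ f.coeff.support ∪ h.coeff.support := Finset.subset_union_left
  have h2 : h.coeff.support ⊆ f.coeff.support ∪ h.coeff.support := Finset.subset_union_right
  rw [nsq_eq_of_subset h1, nsq_eq_of_subset h2, ip, I_eq_of_subset h1]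
  exact Finset.sum_mul_sq_le_sq_mul_sq _ _ _

theorem nsq_sub (f h : MA G) : nsq (f - h) = nsq f - 2 * ip f h + nsq h := by
  unfold nsq
  rw [ip_sub_left, ip_sub_right, ip_sub_right, ip_comm h f]
  ring

theorem nsq_add_le (f h : MA G) : nsq (f + h) ≤ 2 * nsq f + 2 * nsq h := by
  have h1 := nsq_nonneg (f - h)
  rw [nsq_sub] at h1
  have h2 : nsq (f + h) = nsq f + 2 * ip f h + nsq h := by
    unfold nsq
    rw [ip_add_left, ip_add_right, ip_add_right, ip_comm h f]
    ring
  rw [h2]; linarith

theorem nsq_smul (c : ℝ) (f : MA G) : nsq (c • f) = c ^ 2 * nsq f := by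
  unfold nsq
  rw [ip_smul_left, ip_smul_right]; ring

theorem nsq_neg (f : MA G) : nsq (-f) = nsq f := by
  have : -f = (-1 : ℝ) • f := by simp
  rw [this, nsq_smul]; ring

theorem nsq_sub_le (f h : MA G) : nsq (f - h) ≤ 2 * nsq f + 2 * nsq h := by
  rw [sub_eq_add_neg]
  have := nsq_add_le f (-h)
  rwa [nsq_neg] at this

variable [AddCommGroup G]

theorem ip_mul_left (m f h : MA G) :
    ip (m * f) h = I m (fun x => I f (fun y => h.coeff (x + y))) := by
  unfold ip
  rw [I_mul]

/-- Reflection `x ↦ -x`. -/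
noncomputable def refl (f : MA G) : MA G :=
  .ofCoeff (Finsupp.equivMapDomain (Equiv.neg G) f.coeff)

theorem coeff_refl (f : MA G) (x : G) : (refl f).coeff x = f.coeff (-x) := by
  unfold refl
  rw [AddMonoidAlgebra.coeff_ofCoeff, Finsupp.equivMapDomain_apply]
  rfl

theorem refl_refl (f : MA G) : refl (refl f) = f := by
  apply AddMonoidAlgebra.ext
  ext x
  rw [coeff_refl, coeff_refl, neg_neg]

theorem I_refl (f : MA G) (φ : G → ℝ) : I (refl f) φ = I f (fun x => φ (-x)) := by
  classical
  unfold I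
  apply Finset.sum_nbij (fun x => -x)
  · intro x hx
    rw [Finsupp.mem_support_iff] at hx ⊢
    rwa [coeff_refl] at hx
  · intro a _ b _ hab
    exact neg_injective hab
  · intro x hx
    refine ⟨-x, ?_, neg_neg x⟩
    rw [Finset.mem_coe, Finsupp.mem_support_iff, coeff_refl, neg_neg]
    exact Finsupp.mem_support_iff.mp hx
  · intro x _
    rw [coeff_refl]
    simp only [neg_neg]

/-- Adjointness of convolution. -/
theorem ip_adj (m f h : MA G) : ip (m * f) h = ip f (refl m * h) := by
  rw [ip_mul_left, I_comm]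
  unfold ip
  congr 1
  ext y
  rw [coeff_mul_eq, I_refl]
  congr 1
  ext x
  congr 1
  abel

theorem ip_adj' (m f h : MA G) : ip (refl m * f) h = ip f (m * h) := by
  rw [ip_adj, refl_refl]

theorem nsq_refl_mul (m f : MA G) : nsq (refl m * f) = nsq (m * f) := by
  unfold nsq
  rw [ip_adj', ip_adj]
  congr 1
  ring

theorem nsq_log_convex (m f : MA G) :
    (nsq (m * f)) ^ 2 ≤ nsq f * nsq (m * (m * f)) := by
  have h1 : nsq (m * f) = ip f (refl m * (m * f)) := by
    unfold nsq
    rw [ip_adj]
  rw [h1]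
  refine le_trans (ip_sq_le _ _) ?_
  rw [nsq_refl_mul]

theorem nsq_single_mul (x : G) (f : MA G) : nsq (AddMonoidAlgebra.single x 1 * f) = nsq f := by
  unfold nsq ip
  rw [I_mul, I_single, one_mul]
  refine I_congr fun y _ => ?_
  rw [coeff_single_mul, one_mul]
  congr 1
  abel

/-- Log-convex sequences. -/
theorem log_convex_seq {N : ℕ → ℝ} (h0 : ∀ j, 0 ≤ N j)
    (h : ∀ j, (N (j + 1)) ^ 2 ≤ N j * N (j + 2)) (m : ℕ) :
    (N 1) ^ (m + 1) ≤ (N 0) ^ m * N (m + 1) := by
  have key : ∀ j, N 1 * N j ≤ N 0 * N (j + 1) := by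
    intro j
    induction j with
    | zero => rw [mul_comm]
    | succ j ih =>
      rcases eq_or_lt_of_le (h0 (j + 1)) with hz | hpos
      · rw [← hz, mul_zero]; exact mul_nonneg (h0 _) (h0 _)
      · have hj : 0 < N j := by
          rcases eq_or_lt_of_le (h0 j) with hz' | hpos'
          · have := h j
            rw [← hz', zero_mul] at this
            nlinarith
          · exact hpos'
        have h1 : (N 1 * N j) * (N (j + 1)) ^ 2 ≤ (N 0 * N (j + 1)) * (N j * N (j + 2)) :=
          mul_le_mul ih (h j) (sq_nonneg _) (mul_nonneg (h0 _) (h0 _))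
        have h2 : 0 < N j * N (j + 1) := mul_pos hj hpos
        have h3 : (N 1 * N (j + 1)) * (N j * N (j + 1)) ≤
            (N 0 * N (j + 1 + 1)) * (N j * N (j + 1)) := by
          calc (N 1 * N (j + 1)) * (N j * N (j + 1))
              = (N 1 * N j) * (N (j + 1)) ^ 2 := by ring
            _ ≤ (N 0 * N (j + 1)) * (N j * N (j + 2)) := h1
            _ = (N 0 * N (j + 1 + 1)) * (N j * N (j + 1)) := by ring
        exact le_of_mul_le_mul_right h3 h2
  induction m with
  | zero => simp
  | succ m ih =>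
    calc N 1 ^ (m + 1 + 1) = N 1 * N 1 ^ (m + 1) := by ring
      _ ≤ N 1 * (N 0 ^ m * N (m + 1)) := mul_le_mul_of_nonneg_left ih (h0 1)
      _ = N 0 ^ m * (N 1 * N (m + 1)) := by ring
      _ ≤ N 0 ^ m * (N 0 * N (m + 1 + 1)) :=
          mul_le_mul_of_nonneg_left (key _) (pow_nonneg (h0 0) _)
      _ = N 0 ^ (m + 1) * N (m + 1 + 1) := by ring

/-- The sum of translates of `R`. -/
noncomputable def trSum (R : MA G) {k : ℕ} (y : Fin k → G) : MA G :=
  ∑ i, AddMonoidAlgebra.single (y i) 1 * R

theorem trSum_shift (R : MA G) {k : ℕ} (y : Fin k → G) (t : G) :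
    trSum R (fun i => y i + t) = AddMonoidAlgebra.single t 1 * trSum R y := by
  unfold trSum
  rw [Finset.mul_sum]
  refine Finset.sum_congr rfl fun i _ => ?_
  rw [← mul_assoc, AddMonoidAlgebra.single_mul_single, one_mul, add_comm]

theorem sum_wt_smul (F R : MA G) :
    ∑ a : Sup F, wt F a • (AddMonoidAlgebra.single a.1 (1 : ℝ) * R) = F * R := by
  have h1 : ∑ a : Sup F, wt F a • (AddMonoidAlgebra.single a.1 (1 : ℝ) : MA G) = F := by
    have h2 : ∀ a : Sup F, wt F a • (AddMonoidAlgebra.single a.1 (1 : ℝ) : MA G) =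
        AddMonoidAlgebra.single a.1 (F.coeff a.1) := by
      intro a
      rw [AddMonoidAlgebra.smul_single, smul_eq_mul, mul_one]
      rfl
    rw [Finset.sum_congr rfl fun a _ => h2 a]
    rw [Finset.sum_coe_sort F.coeff.support
      (fun x => (AddMonoidAlgebra.single x (F.coeff x) : MA G))]
    exact AddMonoidAlgebra.sum_coeff_single F
  conv_rhs => rw [← h1]
  rw [Finset.sum_mul]
  refine Finset.sum_congr rfl fun a _ => ?_
  rw [smul_mul_assoc]

/-- Variance of the sampled convolution. -/
theorem sampling {F : MA G} (hF : IsProb F) (R : MA G) (k : ℕ) :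
    En (wt F) k (fun y => nsq (trSum R (fun i => (y i : G)) - (k : ℝ) • (F * R))) ≤
      k * nsq R := by
  set Z : Sup F → MA G := fun a => AddMonoidAlgebra.single a.1 1 * R - F * R with hZ
  have hmean : ∑ a, wt F a • Z a = 0 := by
    simp only [hZ, smul_sub, Finset.sum_sub_distrib]
    rw [sum_wt_smul, ← Finset.sum_smul, wt_sum hF, one_smul, sub_self]
  have hexp : ∀ y : Fin k → Sup F,
      nsq (trSum R (fun i => (y i : G)) - (k : ℝ) • (F * R)) =
      ∑ i, ∑ j, ip (Z (y i)) (Z (y j)) := by
    intro y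
    have h1 : trSum R (fun i => (y i : G)) - (k : ℝ) • (F * R) = ∑ i, Z (y i) := by
      simp only [hZ, Finset.sum_sub_distrib, Finset.sum_const, Finset.card_univ,
        Fintype.card_fin, trSum]
      congr 1
      rw [Nat.cast_smul_eq_nsmul]
    rw [h1]
    unfold nsq
    rw [ip_sum_left]
    refine Finset.sum_congr rfl fun i _ => ?_
    rw [ip_sum_right]
  simp only [hexp]
  rw [En_sum]
  have hterm : ∀ i : Fin k, En (wt F) k (fun y => ∑ j, ip (Z (y i)) (Z (y j))) ≤ nsq R := by
    intro i
    rw [En_sum]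
    rw [← Finset.add_sum_erase _ _ (Finset.mem_univ i)]
    have hz : ∑ j ∈ Finset.univ.erase i, En (wt F) k (fun y => ip (Z (y i)) (Z (y j))) = 0 := by
      apply Finset.sum_eq_zero
      intro j hj
      rw [En_pair (wt_sum hF) (Ne.symm (Finset.ne_of_mem_erase hj)) (fun a b => ip (Z a) (Z b))]
      apply Finset.sum_eq_zero
      intro a _
      have : ∑ b, wt F b * ip (Z a) (Z b) = ip (Z a) (∑ b, wt F b • Z b) := by
        rw [ip_sum_right]
        exact Finset.sum_congr rfl fun b _ => (ip_smul_right _ _ _).symm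
      rw [this, hmean, ip_zero_right, mul_zero]
    rw [hz, add_zero]
    rw [En_eval (wt_sum hF) i (fun a => ip (Z a) (Z a))]
    have hvar : ∑ a, wt F a * ip (Z a) (Z a) = nsq R - nsq (F * R) := by
      have h1 : ∀ a : Sup F, wt F a * ip (Z a) (Z a) =
          wt F a * nsq R - 2 * (wt F a * ip (AddMonoidAlgebra.single a.1 1 * R) (F * R)) +
          wt F a * nsq (F * R) := by
        intro a
        have : ip (Z a) (Z a) = nsq (Z a) := rfl
        rw [this, hZ]
        simp only
        rw [nsq_sub, nsq_single_mul]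
        ring
      simp only [h1]
      rw [Finset.sum_add_distrib, Finset.sum_sub_distrib, ← Finset.sum_mul, ← Finset.sum_mul,
        wt_sum hF, ← Finset.mul_sum]
      have h2 : ∑ a : Sup F, wt F a * ip (AddMonoidAlgebra.single a.1 1 * R) (F * R) =
          nsq (F * R) := by
        have : ∑ a : Sup F, wt F a * ip (AddMonoidAlgebra.single a.1 1 * R) (F * R) =
            ip (∑ a : Sup F, wt F a • (AddMonoidAlgebra.single a.1 (1 : ℝ) * R)) (F * R) := by
          rw [ip_sum_left]
          exact Finset.sum_congr rfl fun b _ => (ip_smul_left _ _ _).symm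
        rw [this, sum_wt_smul]
        rfl
      rw [h2]; ring
    rw [hvar]
    linarith [nsq_nonneg (F * R)]
  calc ∑ i, En (wt F) k (fun y => ∑ j, ip (Z (y i)) (Z (y j))) ≤ ∑ _i : Fin k, nsq R :=
        Finset.sum_le_sum fun i _ => hterm i
    _ = k * nsq R := by simp

/-- Most samples give a good approximation of the convolution. -/
theorem good_prob {F : MA G} (hF : IsProb F) (R : MA G) {k : ℕ} (hk : 0 < k) {c : ℝ}
    (hc : 0 < c) (hR : nsq R ≤ c) [DecidablePred fun y : Fin k → G =>
      nsq (trSum R y - (k : ℝ) • (F * R)) ≤ 4 * k * c] :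
    3 / 4 ≤ En (wt F) k (fun y =>
      if nsq (trSum R (fun i => (y i : G)) - (k : ℝ) • (F * R)) ≤ 4 * k * c then 1 else 0) := by
  have hk' : (0 : ℝ) < k := by exact_mod_cast hk
  have h1 : En (wt F) k (fun y => (4 * k * c) * (1 -
      if nsq (trSum R (fun i => (y i : G)) - (k : ℝ) • (F * R)) ≤ 4 * k * c then 1 else 0)) ≤
      En (wt F) k (fun y => nsq (trSum R (fun i => (y i : G)) - (k : ℝ) • (F * R))) := by
    refine En_mono (wt_nonneg hF.pos) fun y => ?_
    split_ifs with h
    · simp only [sub_self, mul_zero]; exact nsq_nonneg _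
    · push Not at h
      simp only [sub_zero, mul_one]; exact h.le
  rw [En_mul_left, En_sub, En_const (wt_sum hF)] at h1
  have h2 := sampling hF R k
  have h3 : (k : ℝ) * nsq R ≤ k * c := mul_le_mul_of_nonneg_left hR hk'.le
  have h4 : 0 < (k : ℝ) * c := mul_pos hk' hc
  set p := En (wt F) k (fun y =>
      if nsq (trSum R (fun i => (y i : G)) - (k : ℝ) • (F * R)) ≤ 4 * k * c then (1 : ℝ) else 0)
  have h5 : 4 * (k * c) * (1 - p) ≤ k * c := by
    calc 4 * (k * c) * (1 - p) = 4 * k * c * (1 - p) := by ring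
      _ ≤ _ := le_trans h1 (le_trans h2 h3)
  nlinarith

end Pool.Agent.W_MP_b45167_pr
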