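import Pool.Agent.W_MP_b45167_pr.Defs
import Pool.Agent.W_MP_b45167_pr.FiniteMain

/-!
# From finitely supported measures to general discrete laws
-/

namespace Pool.Agent.W_MP_b45167_pr

open Finset Filter Topology
open scoped ENNReal NNReal

set_option linter.unusedSectionVars false

universe u

section

variable {G : Type u} [AddCommGroup G]

/-- The real valued mass function. -/
noncomputable def fr (p : PMF G) (x : G) : ℝ := (p x).toReal

theorem fr_nonneg (p : PMF G) (x : G) : 0 ≤ fr p x := ENNReal.toReal_nonneg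

theorem fr_le_one (p : PMF G) (x : G) : fr p x ≤ 1 := by
  have := ENNReal.toReal_mono ENNReal.one_ne_top (p.coe_le_one x)
  simpa [fr] using this

theorem hasSum_fr (p : PMF G) : HasSum (fr p) 1 := by
  have h1 : ∑' x, p x ≠ ⊤ := p.tsum_coe_ne_top
  have h2 := (ENNReal.hasSum_toReal h1)
  rw [← ENNReal.tsum_toReal_eq (fun a => p.apply_ne_top a), p.tsum_coe] at h2
  have h3 : HasSum (fun x => (p x).toReal) 1 := by simpa using h2
  exact h3

theorem sumLaw_succ_apply (p : PMF G) (k : ℕ) (z : G) :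
    sumLaw p (k + 1) z = ∑' s, sumLaw p k s * p (z - s) := by
  show ((sumLaw p k).bind fun s => p.map fun x => s + x) z = _
  rw [PMF.bind_apply]
  congr 1
  ext s
  congr 1
  classical
  rw [PMF.map_apply, tsum_eq_single (z - s)]
  · rw [if_pos (by abel)]
  · intro b hb
    rw [if_neg]
    intro h
    apply hb
    rw [h]; abel

theorem sumLaw_one (p : PMF G) : sumLaw p 1 = p := by
  ext z
  rw [sumLaw_succ_apply, tsum_eq_single 0]
  · have : sumLaw p 0 (0 : G) = 1 := by
      show (PMF.pure (0 : G)) 0 = 1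
      rw [PMF.pure_apply, if_pos rfl]
    rw [this, one_mul, sub_zero]
  · intro b hb
    have : sumLaw p 0 b = 0 := by
      show (PMF.pure (0 : G)) b = 0
      rw [PMF.pure_apply, if_neg hb]
    rw [this, zero_mul]

/-- The restriction of the law to a finite set. -/
noncomputable def qA (p : PMF G) (A : Finset G) : MA G :=
  ∑ x ∈ A, AddMonoidAlgebra.single x (fr p x)

theorem I_qA (p : PMF G) (A : Finset G) (φ : G → ℝ) :
    I (qA p A) φ = ∑ x ∈ A, fr p x * φ x := by
  unfold qA
  rw [I_sum_left]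
  exact Finset.sum_congr rfl fun x _ => I_single _ _ _

theorem coeff_qA_le (p : PMF G) (A : Finset G) (z : G) : (qA p A).coeff z ≤ fr p z := by
  classical
  rw [coeff_eq_I, I_qA]
  simp only [mul_ite, mul_one, mul_zero, Finset.sum_ite_eq']
  split_ifs
  · exact le_rfl
  · exact fr_nonneg p z

theorem pos_qA (p : PMF G) (A : Finset G) : Pos (qA p A) := by
  classical
  intro z
  rw [coeff_eq_I, I_qA]
  exact Finset.sum_nonneg fun x _ => mul_nonneg (fr_nonneg p x) (by split_ifs <;> norm_num)

/-- The mass of the restriction. -/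
noncomputable def mass (p : PMF G) (A : Finset G) : ℝ := ∑ x ∈ A, fr p x

theorem mass_nonneg (p : PMF G) (A : Finset G) : 0 ≤ mass p A :=
  Finset.sum_nonneg fun x _ => fr_nonneg p x

theorem mass_le_one (p : PMF G) (A : Finset G) : mass p A ≤ 1 :=
  sum_le_hasSum A (fun x _ => fr_nonneg p x) (hasSum_fr p)

theorem mass_tendsto (p : PMF G) : Tendsto (mass p) atTop (𝓝 1) := hasSum_fr p

theorem total_qA_pow (p : PMF G) (A : Finset G) (k : ℕ) :
    I (qA p A ^ k) (fun _ => 1) = mass p A ^ k := by
  induction k with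
  | zero => rw [pow_zero, pow_zero, I_one]
  | succ k ih =>
    rw [pow_succ, I_mul, I_const, ih, pow_succ, I_qA]
    unfold mass
    simp only [mul_one]
    ring

theorem coeff_qA_pow_le (p : PMF G) (A : Finset G) (k : ℕ) (z : G) :
    (qA p A ^ k).coeff z ≤ fr (sumLaw p k) z := by
  induction k generalizing z with
  | zero =>
    classical
    rw [pow_zero, coeff_eq_I, I_one]
    have : fr (sumLaw p 0) z = if z = 0 then 1 else 0 := by
      unfold fr
      show ((PMF.pure (0 : G)) z).toReal = _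
      rw [PMF.pure_apply]
      split_ifs <;> simp
    rw [this]
    by_cases h : z = 0
    · rw [if_pos h, if_pos h.symm]
    · rw [if_neg h, if_neg (Ne.symm h)]
  | succ k ih =>
    rw [pow_succ, coeff_mul_eq]
    have h1 : I (qA p A ^ k) (fun s => (qA p A).coeff (z - s)) ≤
        ∑ s ∈ (qA p A ^ k).coeff.support, fr (sumLaw p k) s * fr p (z - s) := by
      unfold I
      exact Finset.sum_le_sum fun s _ => mul_le_mul (ih s) (coeff_qA_le p A _)
        (pos_qA p A _) (fr_nonneg _ _)
    refine h1.trans ?_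
    unfold fr
    rw [sumLaw_succ_apply]
    have h2 : ∑ s ∈ (qA p A ^ k).coeff.support, (sumLaw p k s).toReal * (p (z - s)).toReal =
        (∑ s ∈ (qA p A ^ k).coeff.support, sumLaw p k s * p (z - s)).toReal := by
      rw [ENNReal.toReal_sum fun s _ =>
        ENNReal.mul_ne_top (PMF.apply_ne_top _ _) (PMF.apply_ne_top _ _)]
      exact Finset.sum_congr rfl fun s _ => ENNReal.toReal_mul.symm
    rw [h2]
    apply ENNReal.toReal_mono
    · rw [← sumLaw_succ_apply]; exact PMF.apply_ne_top _ _
    · exact ENNReal.sum_le_tsum _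

/-- The restriction is close to the full law. -/
theorem coeff_qA_pow_close (p : PMF G) (A : Finset G) (k : ℕ) (z : G) :
    fr (sumLaw p k) z - (qA p A ^ k).coeff z ≤ 1 - mass p A ^ k := by
  have h1 : HasSum (fun x => (qA p A ^ k).coeff x) (mass p A ^ k) := by
    rw [← total_qA_pow]
    unfold I
    simp only [mul_one]
    apply hasSum_sum_of_ne_finset_zero
    intro b hb
    exact Finsupp.notMem_support_iff.mp hb
  have h2 := (hasSum_fr (sumLaw p k)).sub h1
  exact le_hasSum h2 z fun x _ => sub_nonneg.mpr (coeff_qA_pow_le p A k x)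

/-- The normalized restriction. -/
noncomputable def nu (p : PMF G) (A : Finset G) : MA G := (mass p A)⁻¹ • qA p A

theorem nu_pow (p : PMF G) (A : Finset G) (k : ℕ) :
    nu p A ^ k = ((mass p A)⁻¹) ^ k • qA p A ^ k := by
  unfold nu
  rw [smul_pow]

theorem nu_prob (p : PMF G) (A : Finset G) (hA : 0 < mass p A) : IsProb (nu p A) where
  pos := Pos.smul (inv_nonneg.mpr hA.le) (pos_qA p A)
  total := by
    unfold nu
    rw [I_smul_left, I_qA]
    simp only [mul_one]
    exact inv_mul_cancel₀ hA.ne'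

theorem coeff_nu_pow (p : PMF G) (A : Finset G) (k : ℕ) (x : G) :
    (nu p A ^ k).coeff x = ((mass p A)⁻¹) ^ k * (qA p A ^ k).coeff x := by
  rw [nu_pow, AddMonoidAlgebra.coeff_smul, Finsupp.smul_apply, smul_eq_mul]

theorem coeff_nu_tendsto (p : PMF G) (k : ℕ) (x : G) :
    Tendsto (fun A => (nu p A ^ k).coeff x) atTop (𝓝 (fr (sumLaw p k) x)) := by
  have h1 : Tendsto (fun A => (qA p A ^ k).coeff x) atTop (𝓝 (fr (sumLaw p k) x)) := by
    have h2 : Tendsto (fun A => fr (sumLaw p k) x - (1 - mass p A ^ k)) atTop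
        (𝓝 (fr (sumLaw p k) x)) := by
      have h3 : Tendsto (fun A => mass p A ^ k) atTop (𝓝 (1 ^ k)) := (mass_tendsto p).pow k
      have h4 := (tendsto_const_nhds (x := fr (sumLaw p k) x)).sub
        ((tendsto_const_nhds (x := (1 : ℝ))).sub h3)
      simpa using h4
    refine tendsto_of_tendsto_of_tendsto_of_le_of_le h2 tendsto_const_nhds ?_ ?_
    · intro A
      have := coeff_qA_pow_close p A k x
      simp only
      linarith
    · intro A
      exact coeff_qA_pow_le p A k x
  have h2 : Tendsto (fun A => ((mass p A)⁻¹) ^ k) atTop (𝓝 1) := by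
    have h3 := ((mass_tendsto p).inv₀ one_ne_zero).pow k
    simpa using h3
  have h3 := h2.mul h1
  simp only [one_mul] at h3
  refine h3.congr fun A => ?_
  rw [coeff_nu_pow]

theorem sum_negMulLog_le_H {ν : MA G} (hν : IsProb ν) (B : Finset G) :
    ∑ x ∈ B, Real.negMulLog (ν.coeff x) ≤ H ν := by
  unfold H
  have h := sum_le_I hν.pos B (φ := fun x => -Real.log (ν.coeff x)) (fun x => by
    have := Real.log_nonpos (hν.pos x) (hν.coeff_le_one x)
    linarith)
  refine le_trans (le_of_eq ?_) h
  refine Finset.sum_congr rfl fun x _ => ?_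
  unfold Real.negMulLog; ring

/-- Concavity bound. -/
theorem negMulLog_concave_bound {l a t : ℝ} (hl0 : 0 < l) (hl1 : l ≤ 1) (ha0 : 0 ≤ a)
    (hle : l * a ≤ t) (hclose : t - l * a ≤ 1 - l) :
    l * Real.negMulLog a ≤ Real.negMulLog t := by
  rcases eq_or_lt_of_le hl1 with h | h
  · subst h
    have : t = a := by linarith
    rw [this, one_mul]
  · set b := (t - l * a) / (1 - l) with hb
    have h1 : 0 < 1 - l := by linarith
    have hb0 : 0 ≤ b := div_nonneg (by linarith) h1.le
    have hb1 : b ≤ 1 := by rw [hb, div_le_one h1]; exact hclose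
    have ht : l * a + (1 - l) * b = t := by rw [hb]; field_simp; ring
    have hconc := Real.concaveOn_negMulLog.2 (x := a) (y := b) ha0 hb0 hl0.le h1.le (by ring)
    simp only [smul_eq_mul] at hconc
    rw [ht] at hconc
    have h2 := Real.negMulLog_nonneg hb0 hb1
    have h3 : 0 ≤ (1 - l) * Real.negMulLog b := mul_nonneg h1.le h2
    linarith

theorem mass_mul_H_le (p : PMF G) (A : Finset G) (hA : 0 < mass p A) (k : ℕ)
    (hs : Summable fun x => Real.negMulLog (fr (sumLaw p k) x)) :
    mass p A ^ k * H (nu p A ^ k) ≤ ∑' x, Real.negMulLog (fr (sumLaw p k) x) := by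
  have h1 : mass p A ^ k * H (nu p A ^ k) ≤
      ∑ x ∈ (nu p A ^ k).coeff.support, Real.negMulLog (fr (sumLaw p k) x) := by
    unfold H I
    rw [Finset.mul_sum]
    refine Finset.sum_le_sum fun x _ => ?_
    have h2 : (nu p A ^ k).coeff x * -Real.log ((nu p A ^ k).coeff x) =
        Real.negMulLog ((nu p A ^ k).coeff x) := by unfold Real.negMulLog; ring
    rw [h2]
    have h3 : mass p A ^ k * (nu p A ^ k).coeff x = (qA p A ^ k).coeff x := by
      rw [coeff_nu_pow, ← mul_assoc, ← mul_pow, mul_inv_cancel₀ hA.ne', one_pow, one_mul]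
    apply negMulLog_concave_bound (pow_pos hA k) (pow_le_one₀ hA.le (mass_le_one p A))
      (((nu_prob p A hA).pow k).pos x)
    · rw [h3]; exact coeff_qA_pow_le p A k x
    · rw [h3]; exact coeff_qA_pow_close p A k x
  refine h1.trans (hs.sum_le_tsum _ fun x _ => ?_)
  exact Real.negMulLog_nonneg (fr_nonneg _ _) (fr_le_one _ _)

theorem H_pow_le {ν : MA G} (hν : IsProb ν) (k : ℕ) : H (ν ^ (k + 1)) ≤ (k + 1) * H ν := by
  induction k with
  | zero => simp
  | succ k ih =>
    have h := H_mul_le (hν.pow (k + 1)) hν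
    rw [← pow_succ] at h
    push_cast
    linarith

theorem sum_tendsto (p : PMF G) (k : ℕ) (B : Finset G) :
    Tendsto (fun A => ∑ x ∈ B, Real.negMulLog ((nu p A ^ k).coeff x)) atTop
      (𝓝 (∑ x ∈ B, Real.negMulLog (fr (sumLaw p k) x))) :=
  tendsto_finsetSum B fun x _ =>
    (Real.continuous_negMulLog.tendsto _).comp (coeff_nu_tendsto p k x)

/-- Finiteness of the entropy of sums. -/
theorem summable_sumLaw (p : PMF G) (hs : Summable fun x => Real.negMulLog (fr p x)) (k : ℕ) :
    Summable fun x => Real.negMulLog (fr (sumLaw p (k + 1)) x) := by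
  set Hp := ∑' x, Real.negMulLog (fr p x) with hHp
  have hHp0 : 0 ≤ Hp := tsum_nonneg fun x => Real.negMulLog_nonneg (fr_nonneg _ _) (fr_le_one _ _)
  refine summable_of_sum_le (c := (k + 1) * (2 * Hp))
    (fun x => Real.negMulLog_nonneg (fr_nonneg _ _) (fr_le_one _ _)) fun B => ?_
  refine le_of_tendsto (sum_tendsto p (k + 1) B) ?_
  have hev : ∀ᶠ A in atTop, (1 / 2 : ℝ) < mass p A :=
    (mass_tendsto p).eventually (lt_mem_nhds (by norm_num))
  filter_upwards [hev] with A hA
  have hA0 : 0 < mass p A := by linarith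
  have hprob := nu_prob p A hA0
  refine (sum_negMulLog_le_H (hprob.pow (k + 1)) B).trans ((H_pow_le hprob k).trans ?_)
  apply mul_le_mul_of_nonneg_left _ (by positivity)
  have hs1 : Summable fun x => Real.negMulLog (fr (sumLaw p 1) x) := by
    rw [sumLaw_one]; exact hs
  have h1 := mass_mul_H_le p A hA0 1 hs1
  rw [pow_one, pow_one, sumLaw_one, ← hHp] at h1
  have h2 := H_nonneg hprob
  nlinarith

end

/-- The main theorem in nats. -/
theorem main_nats (m : ℕ) {ε : ℝ} (hε : 0 < ε) : ∃ C : ℝ, ∀ (G : Type u) [AddCommGroup G]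
    [IsAddTorsionFree G] (p : PMF G), (Summable fun x => Real.negMulLog (fr p x)) →
    C ≤ ∑' x, Real.negMulLog (fr p x) →
    ∑' x, Real.negMulLog (fr (sumLaw p (m + 1)) x) +
      1 / 2 * (Real.log ((m : ℝ) + 2) - Real.log ((m : ℝ) + 1)) - ε ≤
      ∑' x, Real.negMulLog (fr (sumLaw p (m + 2)) x) := by
  obtain ⟨C, hC⟩ := finite_main.{u} m hε
  refine ⟨C + 1, ?_⟩
  intro G _ _ p hs hCp
  set c := 1 / 2 * (Real.log ((m : ℝ) + 2) - Real.log ((m : ℝ) + 1)) - ε with hc
  have hsum1 := summable_sumLaw p hs m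
  have hsum2 := summable_sumLaw p hs (m + 1)
  -- a finite set carrying most of the entropy
  obtain ⟨B0, hB0⟩ : ∃ B0 : Finset G, C < ∑ x ∈ B0, Real.negMulLog (fr p x) := by
    have h1 : ∀ᶠ B in atTop, C < ∑ x ∈ B, Real.negMulLog (fr p x) :=
      hs.hasSum.eventually (lt_mem_nhds (by linarith))
    exact h1.exists
  have ev1 : ∀ᶠ A in atTop, C < ∑ x ∈ B0, Real.negMulLog ((nu p A ^ 1).coeff x) := by
    have h1 := sum_tendsto p 1 B0
    rw [sumLaw_one] at h1
    exact h1.eventually (lt_mem_nhds hB0)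
  have ev2 : ∀ᶠ A in atTop, (0 : ℝ) < mass p A :=
    (mass_tendsto p).eventually (lt_mem_nhds (by norm_num))
  -- finite partial sums
  have key : ∀ B : Finset G, ∑ x ∈ B, Real.negMulLog (fr (sumLaw p (m + 1)) x) + c ≤
      ∑' x, Real.negMulLog (fr (sumLaw p (m + 2)) x) := by
    intro B
    have h1 : Tendsto (fun A => mass p A ^ (m + 2) *
        (∑ x ∈ B, Real.negMulLog ((nu p A ^ (m + 1)).coeff x) + c)) atTop
        (𝓝 (1 ^ (m + 2) * (∑ x ∈ B, Real.negMulLog (fr (sumLaw p (m + 1)) x) + c))) :=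
      ((mass_tendsto p).pow (m + 2)).mul ((sum_tendsto p (m + 1) B).add_const c)
    rw [one_pow, one_mul] at h1
    refine le_of_tendsto h1 ?_
    filter_upwards [ev1, ev2] with A hA1 hA2
    have hprob := nu_prob p A hA2
    have h2 : C ≤ H (nu p A) := by
      rw [pow_one] at hA1
      exact hA1.le.trans (sum_negMulLog_le_H hprob B0)
    have h3 := hC G (nu p A) hprob h2
    have h4 := sum_negMulLog_le_H (hprob.pow (m + 1)) B
    have h5 := mass_mul_H_le p A hA2 (m + 2) hsum2
    refine le_trans ?_ h5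
    apply mul_le_mul_of_nonneg_left _ (pow_nonneg hA2.le _)
    linarith
  have h6 : ∑' x, Real.negMulLog (fr (sumLaw p (m + 1)) x) ≤
      ∑' x, Real.negMulLog (fr (sumLaw p (m + 2)) x) - c := by
    refine hsum1.tsum_le_of_sum_le fun B => ?_
    have := key B
    linarith
  linarith

section

variable {α : Type u}

theorem entropy_term (p : PMF α) (a : α) :
    -((p a).toReal * Real.logb 2 (p a).toReal) =
      Real.negMulLog ((p a).toReal) / Real.log 2 := by
  unfold Real.negMulLog Real.logb
  ring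

theorem entropy_term_nonneg (p : PMF α) (a : α) :
    0 ≤ -((p a).toReal * Real.logb 2 (p a).toReal) := by
  rw [entropy_term]
  have h1 : (p a).toReal ≤ 1 := by
    have := ENNReal.toReal_mono ENNReal.one_ne_top (p.coe_le_one a)
    simpa using this
  exact div_nonneg (Real.negMulLog_nonneg ENNReal.toReal_nonneg h1)
    (Real.log_nonneg (by norm_num))

theorem summable_of_entropy (p : PMF α) (h : entropy p ≠ ⊤) :
    Summable fun a => Real.negMulLog ((p a).toReal) := by
  unfold entropy at h
  have h1 := ENNReal.summable_toReal h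
  have h2 : (fun a => (ENNReal.ofReal (-((p a).toReal * Real.logb 2 (p a).toReal))).toReal) =
      fun a => Real.negMulLog ((p a).toReal) / Real.log 2 := by
    ext a
    rw [ENNReal.toReal_ofReal (entropy_term_nonneg p a), entropy_term]
  rw [h2] at h1
  have h3 := h1.mul_right (Real.log 2)
  have hlog : Real.log 2 ≠ 0 := (Real.log_pos (by norm_num)).ne'
  simpa [div_mul_cancel₀ _ hlog] using h3

theorem entropy_eq (p : PMF α) (h : Summable fun a => Real.negMulLog ((p a).toReal)) :
    entropy p = ENNReal.ofReal ((∑' a, Real.negMulLog ((p a).toReal)) / Real.log 2) := by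
  unfold entropy
  have h1 : (fun a => ENNReal.ofReal (-((p a).toReal * Real.logb 2 (p a).toReal))) =
      fun a => ENNReal.ofReal (Real.negMulLog ((p a).toReal) / Real.log 2) := by
    ext a; rw [entropy_term]
  rw [h1, ← ENNReal.ofReal_tsum_of_nonneg _ (h.div_const _), tsum_div_const]
  intro a
  have := entropy_term_nonneg p a
  rwa [entropy_term] at this

end

/-- The main theorem. -/
theorem main (n : ℕ) (hn : 2 ≤ n) (ε : ℝ) (hε : 0 < ε) :
    ∃ C : ℝ≥0, ∀ (G : Type u) [AddCommGroup G] [IsAddTorsionFree G] (p : PMF G),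
      (C : ℝ≥0∞) ≤ entropy p → entropy p < ⊤ →
        entropy (sumLaw p n) < ⊤ ∧
        entropy (sumLaw p (n - 1)) + ENNReal.ofReal (1 / 2 * Real.logb 2 (n / (n - 1))) ≤
          entropy (sumLaw p n) + ENNReal.ofReal ε := by
  obtain ⟨m, rfl⟩ := Nat.exists_eq_add_of_le hn
  have hlog : 0 < Real.log 2 := Real.log_pos (by norm_num)
  obtain ⟨C, hC⟩ := main_nats.{u} m (mul_pos hε hlog)
  refine ⟨Real.toNNReal (C / Real.log 2), ?_⟩
  intro G _ _ p hCp hfin
  have hs := summable_of_entropy p hfin.ne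
  have hs' : Summable fun x => Real.negMulLog (fr p x) := hs
  have e0 := entropy_eq p hs
  have hs1 := summable_sumLaw p hs' m
  have hs2 := summable_sumLaw p hs' (m + 1)
  have e1 := entropy_eq (sumLaw p (m + 1)) hs1
  have e2 := entropy_eq (sumLaw p (m + 2)) hs2
  have hnn : ∀ q : PMF G, 0 ≤ ∑' x, Real.negMulLog (fr q x) := fun q =>
    tsum_nonneg fun x => Real.negMulLog_nonneg (fr_nonneg _ _) (fr_le_one _ _)
  have hC' : C ≤ ∑' x, Real.negMulLog (fr p x) := by
    rw [e0] at hCp
    have h1 : ENNReal.ofReal (C / Real.log 2) ≤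
        ENNReal.ofReal ((∑' a, Real.negMulLog ((p a).toReal)) / Real.log 2) := hCp
    have hnn' : 0 ≤ (∑' a, Real.negMulLog ((p a).toReal)) / Real.log 2 :=
      div_nonneg (hnn p) hlog.le
    rw [ENNReal.ofReal_le_ofReal_iff hnn'] at h1
    exact (div_le_div_iff_of_pos_right hlog).mp h1
  have hmain := hC G p hs' hC'
  have en : 2 + m = m + 2 := by omega
  have en1 : 2 + m - 1 = m + 1 := by omega
  rw [en1, en, e1, e2]
  refine ⟨ENNReal.ofReal_lt_top, ?_⟩
  rw [← ENNReal.ofReal_add, ← ENNReal.ofReal_add]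
  · apply ENNReal.ofReal_le_ofReal
    have h1 : Real.logb 2 (((m + 2 : ℕ) : ℝ) / (((m + 2 : ℕ) : ℝ) - 1)) =
        (Real.log ((m : ℝ) + 2) - Real.log ((m : ℝ) + 1)) / Real.log 2 := by
      unfold Real.logb
      have hm : (0 : ℝ) ≤ m := Nat.cast_nonneg m
      have : (((m + 2 : ℕ) : ℝ) / (((m + 2 : ℕ) : ℝ) - 1)) = ((m : ℝ) + 2) / ((m : ℝ) + 1) := by
        push_cast
        congr 1
        ring
      rw [this, Real.log_div (by positivity) (by positivity)]
    rw [h1]
    have h2 : (∑' a, Real.negMulLog ((sumLaw p (m + 1) a).toReal)) / Real.log 2 +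
        1 / 2 * ((Real.log ((m : ℝ) + 2) - Real.log ((m : ℝ) + 1)) / Real.log 2) =
        (∑' a, Real.negMulLog ((sumLaw p (m + 1) a).toReal) +
        1 / 2 * (Real.log ((m : ℝ) + 2) - Real.log ((m : ℝ) + 1))) / Real.log 2 := by ring
    have h3 : (∑' a, Real.negMulLog ((sumLaw p (m + 2) a).toReal)) / Real.log 2 + ε =
        (∑' a, Real.negMulLog ((sumLaw p (m + 2) a).toReal) + ε * Real.log 2) / Real.log 2 := by
      field_simp
    rw [h2, h3]
    apply div_le_div_of_nonneg_right _ hlog.le
    unfold fr at hmain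
    linarith
  · exact div_nonneg (hnn _) hlog.le
  · exact hε.le
  · exact div_nonneg (hnn _) hlog.le
  · apply mul_nonneg (by norm_num)
    apply Real.logb_nonneg (by norm_num)
    rw [le_div_iff₀]
    · linarith
    · push_cast
      have : (0 : ℝ) ≤ m := Nat.cast_nonneg m
      linarith

end Pool.Agent.W_MP_b45167_pr
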