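import Pool.Agent.W_MP_b45167_pr.L2

/-!
# Almost periodicity of sums with small entropy increment
-/

namespace Pool.Agent.W_MP_b45167_pr

open Finset

set_option linter.unusedSectionVars false

universe u

section

variable {G : Type*} [AddCommGroup G]

theorem wt_pos {f : MA G} (hf : Pos f) (a : Sup f) : 0 < wt f a :=
  lt_of_le_of_ne (hf _) (Ne.symm (Finsupp.mem_support_iff.mp a.2))

theorem aux_div (a b : ℝ) (ha : a ≠ 0) : a * (b / a - 1) = b - a := by
  field_simp

/-- The entropic pigeonhole principle. -/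
theorem pigeonhole {F : MA G} (hF : IsProb F) (k : ℕ) (Good : (Fin k → G) → Prop)
    [DecidablePred Good]
    (hgood : 3 / 4 ≤ En (wt F) k (fun y => if Good (fun i => (y i : G)) then 1 else 0))
    (hinj : ∀ (y : Fin k → G) (t : G), Good y → Good (fun i => y i + t) → t = 0) :
    3 / 4 * H F ≤ k * (H (F * F) - H F + 1) + 1 / 4 := by
  classical
  set P := F * F with hPdef
  have hP : IsProb P := hF.mul hF
  set g : (Fin k → Sup F) → ℝ := fun y => if Good (fun i => (y i : G)) then 1 else 0 with hg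
  have hg0 : ∀ y, 0 ≤ g y := fun y => by simp only [hg]; split_ifs <;> norm_num
  have hg1 : ∀ y, g y ≤ 1 := fun y => by simp only [hg]; split_ifs <;> norm_num
  set W : (Fin k → Sup F) → ℝ := fun y => ∏ i, wt F (y i) with hW
  have hWpos : ∀ y, 0 < W y := fun y => Finset.prod_pos fun i _ => wt_pos hF.pos _
  set b : (Fin k → Sup F) → Sup F → ℝ := fun y t => ∏ i, P.coeff ((t : G) + (y i : G)) with hb
  have hPpos : ∀ a c : Sup F, 0 < P.coeff ((a : G) + (c : G)) := fun a c =>
    coeff_mul_pos hF.pos hF.pos (Finsupp.mem_support_iff.mp a.2) (Finsupp.mem_support_iff.mp c.2)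
  have hbpos : ∀ y t, 0 < b y t := fun y t => Finset.prod_pos fun i _ => hPpos _ _
  set pG := En (wt F) k g with hpG
  -- (1) total mass of `b` on good tuples
  have s1 : ∑ y, ∑ t, g y * b y t ≤ 1 := by
    let S : Finset ((Fin k → Sup F) × Sup F) :=
      Finset.univ.filter fun p => Good (fun i => (p.1 i : G))
    let φ : (Fin k → Sup F) × Sup F → (Fin k → Sup P) := fun p i =>
      ⟨(p.2 : G) + (p.1 i : G), Finsupp.mem_support_iff.mpr (hPpos p.2 (p.1 i)).ne'⟩
    have t1 : ∑ y, ∑ t, g y * b y t = ∑ p ∈ S, ∏ i, wt P (φ p i) := by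
      rw [← Fintype.sum_prod_type', Finset.sum_filter]
      refine Finset.sum_congr rfl fun p _ => ?_
      simp only [hg]
      split_ifs with h
      · rw [one_mul]; rfl
      · rw [zero_mul]
    rw [t1]
    have hφ : Set.InjOn φ S := by
      rintro ⟨y, t⟩ hy ⟨y', t'⟩ hy' heq
      have hy1 : Good (fun i => (y i : G)) := (Finset.mem_filter.mp hy).2
      have hy2 : Good (fun i => (y' i : G)) := (Finset.mem_filter.mp hy').2
      have he : ∀ i, (t : G) + (y i : G) = (t' : G) + (y' i : G) := fun i => by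
        have := congrFun heq i
        exact congrArg Subtype.val this
      have hy3 : Good (fun i => (y i : G) + ((t : G) - (t' : G))) := by
        convert hy2 using 2 with i
        have := he i
        have h2 : (y' i : G) = (t : G) + (y i : G) - (t' : G) := by rw [this]; abel
        rw [h2]; abel
      have ht := hinj _ _ hy1 hy3
      have ht' : (t : G) = (t' : G) := sub_eq_zero.mp ht
      have htt : t = t' := Subtype.ext ht'
      subst htt
      congr 1
      ext i
      have := he i
      exact add_left_cancel this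
    rw [← Finset.sum_image (f := fun z : Fin k → Sup P => ∏ i, wt P (z i)) hφ]
    have t2 : En (wt P) k (fun _ => (1 : ℝ)) = 1 := En_const (wt_sum hP) 1
    unfold En at t2
    simp only [mul_one] at t2
    rw [← t2]
    exact Finset.sum_le_sum_of_subset_of_nonneg (Finset.subset_univ _)
      fun z _ _ => Finset.prod_nonneg fun i _ => wt_nonneg hP.pos _
  -- (2) total mass of `a`
  have s2 : ∑ y, ∑ t, g y * (W y * wt F t) = pG := by
    rw [hpG]
    unfold En
    refine Finset.sum_congr rfl fun y _ => ?_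
    have : ∀ t, g y * (W y * wt F t) = (W y * g y) * wt F t := fun t => by ring
    simp only [this]
    rw [← Finset.mul_sum, wt_sum hF, mul_one]
  -- pointwise Gibbs
  have s3 : ∑ y, ∑ t, g y * ((W y * wt F t) * (Real.log (b y t) - Real.log (W y * wt F t))) ≤
      ∑ y, ∑ t, g y * (b y t - W y * wt F t) := by
    refine Finset.sum_le_sum fun y _ => Finset.sum_le_sum fun t _ =>
      mul_le_mul_of_nonneg_left ?_ (hg0 y)
    have ha : 0 < W y * wt F t := mul_pos (hWpos y) (wt_pos hF.pos t)
    rw [← Real.log_div (hbpos y t).ne' ha.ne']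
    have h1 := Real.log_le_sub_one_of_pos (div_pos (hbpos y t) ha)
    calc (W y * wt F t) * Real.log (b y t / (W y * wt F t))
        ≤ (W y * wt F t) * (b y t / (W y * wt F t) - 1) :=
          mul_le_mul_of_nonneg_left h1 ha.le
      _ = b y t - W y * wt F t := aux_div _ _ ha.ne'
  -- expand the logarithms
  have s4 : ∀ y t, Real.log (b y t) - Real.log (W y * wt F t) =
      -Real.log (wt F t) - ∑ i, idens F F (t : G) (y i : G) := by
    intro y t
    have h1 : Real.log (b y t) = ∑ i, Real.log (P.coeff ((t : G) + (y i : G))) :=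
      Real.log_prod fun i _ => (hPpos _ _).ne'
    have h2 : Real.log (W y) = ∑ i, Real.log (wt F (y i)) :=
      Real.log_prod fun i _ => (wt_pos hF.pos _).ne'
    rw [Real.log_mul (hWpos y).ne' (wt_pos hF.pos t).ne', h1, h2]
    unfold idens
    rw [Finset.sum_sub_distrib]
    have h3 : ∀ i, Real.log (wt F (y i)) = Real.log (F.coeff (y i : G)) := fun i => rfl
    simp only [h3]
    ring
  -- the entropy term
  have s5 : ∑ y, ∑ t, g y * ((W y * wt F t) * (-Real.log (wt F t))) = pG * H F := by
    have h1 : ∀ y, ∑ t, g y * ((W y * wt F t) * (-Real.log (wt F t))) =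
        (W y * g y) * H F := by
      intro y
      unfold H
      rw [I_eq_wt, Finset.mul_sum]
      refine Finset.sum_congr rfl fun t _ => ?_
      have : Real.log (wt F t) = Real.log (F.coeff (t : G)) := rfl
      rw [this]; ring
    simp only [h1]
    rw [← Finset.sum_mul]
    rfl
  -- the information density term
  have s6 : ∑ y, ∑ t, g y * ((W y * wt F t) * ∑ i, idens F F (t : G) (y i : G)) ≤
      k * (H P - H F + 1) := by
    have h1 : ∑ y, ∑ t, g y * ((W y * wt F t) * ∑ i, idens F F (t : G) (y i : G)) ≤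
        ∑ y, ∑ t, (W y * wt F t) * ∑ i, max (idens F F (t : G) (y i : G)) 0 := by
      refine Finset.sum_le_sum fun y _ => Finset.sum_le_sum fun t _ => ?_
      have ha : 0 < W y * wt F t := mul_pos (hWpos y) (wt_pos hF.pos t)
      have h2 : (W y * wt F t) * ∑ i, idens F F (t : G) (y i : G) ≤
          (W y * wt F t) * ∑ i, max (idens F F (t : G) (y i : G)) 0 :=
        mul_le_mul_of_nonneg_left (Finset.sum_le_sum fun i _ => le_max_left _ _) ha.le
      have h3 : 0 ≤ (W y * wt F t) * ∑ i, max (idens F F (t : G) (y i : G)) 0 :=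
        mul_nonneg ha.le (Finset.sum_nonneg fun i _ => le_max_right _ _)
      calc g y * ((W y * wt F t) * ∑ i, idens F F (t : G) (y i : G))
          ≤ g y * ((W y * wt F t) * ∑ i, max (idens F F (t : G) (y i : G)) 0) :=
            mul_le_mul_of_nonneg_left h2 (hg0 y)
        _ ≤ 1 * ((W y * wt F t) * ∑ i, max (idens F F (t : G) (y i : G)) 0) :=
            mul_le_mul_of_nonneg_right (hg1 y) h3
        _ = _ := one_mul _
    refine le_trans h1 ?_
    have h2 : ∑ y, ∑ t, (W y * wt F t) * ∑ i, max (idens F F (t : G) (y i : G)) 0 =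
        ∑ t, wt F t * En (wt F) k (fun y => ∑ i, max (idens F F (t : G) (y i : G)) 0) := by
      rw [Finset.sum_comm]
      refine Finset.sum_congr rfl fun t _ => ?_
      unfold En
      rw [Finset.mul_sum]
      refine Finset.sum_congr rfl fun y _ => ?_
      simp only [hW]; ring
    rw [h2]
    have h3 : ∀ t : Sup F, En (wt F) k (fun y => ∑ i, max (idens F F (t : G) (y i : G)) 0) =
        k * I F (fun x => max (idens F F (t : G) x) 0) := by
      intro t
      rw [En_sum]
      have : ∀ i ∈ (Finset.univ : Finset (Fin k)),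
          En (wt F) k (fun y => max (idens F F (t : G) (y i : G)) 0) =
          I F (fun x => max (idens F F (t : G) x) 0) := by
        intro i _
        rw [En_eval (wt_sum hF) i (fun a => max (idens F F (t : G) (a : G)) 0), I_eq_wt]
      rw [Finset.sum_congr rfl this]
      simp
    simp only [h3]
    have h4 : ∑ t : Sup F, wt F t * ((k : ℝ) * I F (fun x => max (idens F F (t : G) x) 0)) =
        k * I F (fun t => I F (fun x => max (idens F F t x) 0)) := by
      rw [I_eq_wt F (fun t => I F (fun x => max (idens F F t x) 0)), Finset.mul_sum]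
      exact Finset.sum_congr rfl fun t _ => by ring
    rw [h4]
    exact mul_le_mul_of_nonneg_left (I_idens_pos hF hF) (Nat.cast_nonneg k)
  -- combine
  have s7 : ∑ y, ∑ t, g y * ((W y * wt F t) * (Real.log (b y t) - Real.log (W y * wt F t))) =
      pG * H F - ∑ y, ∑ t, g y * ((W y * wt F t) * ∑ i, idens F F (t : G) (y i : G)) := by
    rw [← s5, ← Finset.sum_sub_distrib]
    refine Finset.sum_congr rfl fun y _ => ?_
    rw [← Finset.sum_sub_distrib]
    refine Finset.sum_congr rfl fun t _ => ?_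
    rw [s4]; ring
  have s8 : ∑ y, ∑ t, g y * (b y t - W y * wt F t) =
      ∑ y, ∑ t, g y * b y t - pG := by
    rw [← s2, ← Finset.sum_sub_distrib]
    refine Finset.sum_congr rfl fun y _ => ?_
    rw [← Finset.sum_sub_distrib]
    exact Finset.sum_congr rfl fun t _ => by ring
  rw [s7, s8] at s3
  have hHF := H_nonneg hF
  have : 3 / 4 * H F ≤ pG * H F := mul_le_mul_of_nonneg_right hgood hHF
  linarith

/-- Existence of a quantile for the density. -/
theorem quantile {F : MA G} (hF : IsProb F) {p : ℝ} (hp0 : 0 < p) (hp1 : p ≤ 1) :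
    ∃ c : ℝ, 0 < c ∧ I F (fun x => if c < F.coeff x then 1 else 0) ≤ p ∧
      p ≤ I F (fun x => if c ≤ F.coeff x then 1 else 0) := by
  classical
  have hne : F.coeff.support.Nonempty := by
    by_contra h
    rw [Finset.not_nonempty_iff_eq_empty] at h
    have := hF.total
    unfold I at this
    rw [h] at this
    simp at this
  -- the set of support points with enough mass above
  let S := F.coeff.support.filter
    fun x => p ≤ I F (fun y => if F.coeff x ≤ F.coeff y then 1 else 0)
  have hS : S.Nonempty := by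
    obtain ⟨x, hx, hmin⟩ := Finset.exists_min_image F.coeff.support (fun x => F.coeff x) hne
    refine ⟨x, Finset.mem_filter.mpr ⟨hx, ?_⟩⟩
    have : I F (fun y => if F.coeff x ≤ F.coeff y then 1 else 0) = 1 := by
      rw [← hF.total]
      refine I_congr fun y hy => ?_
      rw [if_pos (hmin y (Finsupp.mem_support_iff.mpr hy))]
      simp [hF.total]
    rw [this]; exact hp1
  obtain ⟨x, hx, hmax⟩ := Finset.exists_max_image S (fun x => F.coeff x) hS
  obtain ⟨hx1, hx2⟩ := Finset.mem_filter.mp hx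
  have hxpos : 0 < F.coeff x :=
    lt_of_le_of_ne (hF.pos x) (Ne.symm (Finsupp.mem_support_iff.mp hx1))
  refine ⟨F.coeff x, hxpos, ?_, hx2⟩
  by_contra hcon
  push Not at hcon
  let T := F.coeff.support.filter fun y => F.coeff x < F.coeff y
  have hT : T.Nonempty := by
    by_contra h
    rw [Finset.not_nonempty_iff_eq_empty] at h
    have h0 : I F (fun y => if F.coeff x < F.coeff y then 1 else 0) = 0 := by
      have : I F (fun y => if F.coeff x < F.coeff y then 1 else 0) = I F (fun _ => 0) := by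
        refine I_congr fun y hy => ?_
        rw [if_neg]
        intro hlt
        have : y ∈ T := Finset.mem_filter.mpr ⟨Finsupp.mem_support_iff.mpr hy, hlt⟩
        rw [h] at this
        exact absurd this (Finset.notMem_empty y)
      rw [this, I_zero_right]
    rw [h0] at hcon
    linarith
  obtain ⟨z, hz, hmin⟩ := Finset.exists_min_image T (fun x => F.coeff x) hT
  obtain ⟨hz1, hz2⟩ := Finset.mem_filter.mp hz
  have hzS : z ∈ S := by
    refine Finset.mem_filter.mpr ⟨hz1, ?_⟩
    refine hcon.le.trans (le_of_eq (I_congr fun y hy => ?_))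
    by_cases hlt : F.coeff x < F.coeff y
    · rw [if_pos hlt, if_pos]
      exact hmin y (Finset.mem_filter.mpr ⟨Finsupp.mem_support_iff.mpr hy, hlt⟩)
    · rw [if_neg hlt, if_neg]
      intro hle
      exact hlt (lt_of_lt_of_le hz2 hle)
  have := hmax z hzS
  linarith

/-- The measure `E` lives mostly on a set of controlled size. -/
theorem typical [DecidableEq G] {E F : MA G} (hE : IsProb E) (hF : IsProb F) {K : ℝ} (hK0 : 0 ≤ K)
    (hK : H (E * F) - H F ≤ K) {c p τ : ℝ} (hc : 0 < c) (hp : 0 < p) (hτ : 0 < τ)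
    (hpc : p ≤ I F (fun x => if c ≤ F.coeff x then 1 else 0)) :
    ∃ T : Finset G, (T.card : ℝ) ≤ Real.exp τ / c ∧
      I E (fun y => if y ∈ T then 0 else 1) ≤ (K + 2) / (p * τ) := by
  classical
  set q : G → ℝ := fun s => I E (fun y => max (idens E F y s) 0) with hq
  have hq0 : ∀ s, 0 ≤ q s := fun s => I_nonneg hE.pos fun y _ => le_max_right _ _
  have h1 : I F q ≤ K + 1 := by
    have := I_idens_pos hE hF
    rw [I_comm] at this
    linarith
  obtain ⟨s, hs0, hsc, hsq⟩ : ∃ s, F.coeff s ≠ 0 ∧ c ≤ F.coeff s ∧ q s ≤ (K + 2) / p := by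
    by_contra hcon
    push Not at hcon
    have h2 : I F (fun s => (K + 2) / p * (if c ≤ F.coeff s then 1 else 0)) ≤ I F q := by
      refine I_mono hF.pos fun s hs => ?_
      split_ifs with h
      · rw [mul_one]; exact (hcon s hs h).le
      · rw [mul_zero]; exact hq0 s
    rw [I_mul_left] at h2
    have h3 : (K + 2) / p * p ≤ (K + 2) / p *
        I F (fun s => if c ≤ F.coeff s then 1 else 0) :=
      mul_le_mul_of_nonneg_left hpc (by positivity)
    rw [div_mul_cancel₀ _ hp.ne'] at h3
    linarith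
  have hEF := hE.mul hF
  refine ⟨E.coeff.support.filter fun y => idens E F y s ≤ τ, ?_, ?_⟩
  · set T := E.coeff.support.filter fun y => idens E F y s ≤ τ with hT
    have h2 : ∀ y ∈ T, c * Real.exp (-τ) ≤ (E * F).coeff (s + y) := by
      intro y hy
      obtain ⟨hy1, hy2⟩ := Finset.mem_filter.mp hy
      have hpos : 0 < (E * F).coeff (y + s) :=
        coeff_mul_pos hE.pos hF.pos (Finsupp.mem_support_iff.mp hy1) hs0
      have hFs : 0 < F.coeff s := lt_of_lt_of_le hc hsc
      unfold idens at hy2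
      have h3 : Real.log (F.coeff s) - τ ≤ Real.log ((E * F).coeff (y + s)) := by linarith
      have h4 : Real.exp (Real.log (F.coeff s) - τ) ≤ (E * F).coeff (y + s) := by
        rw [← Real.exp_log hpos]; exact Real.exp_le_exp.mpr h3
      rw [Real.exp_sub, Real.exp_log hFs] at h4
      rw [add_comm s y]
      refine le_trans ?_ h4
      rw [Real.exp_neg, ← div_eq_mul_inv]
      exact div_le_div_of_nonneg_right hsc (Real.exp_pos _).le
    have h3 : (T.card : ℝ) * (c * Real.exp (-τ)) ≤ 1 := by
      calc (T.card : ℝ) * (c * Real.exp (-τ)) = ∑ _y ∈ T, c * Real.exp (-τ) := by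
            rw [Finset.sum_const, nsmul_eq_mul]
        _ ≤ ∑ y ∈ T, (E * F).coeff (s + y) := Finset.sum_le_sum h2
        _ ≤ 1 := sum_shift_le_one hEF _ _
    rw [le_div_iff₀ hc]
    have h4 : 0 < Real.exp τ := Real.exp_pos _
    have h5 : Real.exp (-τ) * Real.exp τ = 1 := by rw [← Real.exp_add]; simp
    calc (T.card : ℝ) * c = ((T.card : ℝ) * (c * Real.exp (-τ))) * Real.exp τ := by
          rw [mul_assoc, mul_assoc, h5, mul_one]
      _ ≤ 1 * Real.exp τ := mul_le_mul_of_nonneg_right h3 h4.le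
      _ = Real.exp τ := one_mul _
  · have h2 : I E (fun y => if y ∈ E.coeff.support.filter (fun y => idens E F y s ≤ τ)
        then 0 else 1) ≤ I E (fun y => max (idens E F y s) 0 * τ⁻¹) := by
      refine I_mono hE.pos fun y hy => ?_
      split_ifs with h
      · exact mul_nonneg (le_max_right _ _) (inv_nonneg.mpr hτ.le)
      · rw [Finset.mem_filter, not_and] at h
        have := h (Finsupp.mem_support_iff.mpr hy)
        push Not at this
        have h3 : τ ≤ max (idens E F y s) 0 := this.le.trans (le_max_left _ _)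
        calc (1 : ℝ) = τ * τ⁻¹ := (mul_inv_cancel₀ hτ.ne').symm
          _ ≤ _ := mul_le_mul_of_nonneg_right h3 (inv_nonneg.mpr hτ.le)
    rw [I_mul_right] at h2
    refine le_trans h2 ?_
    calc I E (fun y => max (idens E F y s) 0) * τ⁻¹ ≤ (K + 2) / p * τ⁻¹ :=
          mul_le_mul_of_nonneg_right hsq (inv_nonneg.mpr hτ.le)
      _ = (K + 2) / (p * τ) := by field_simp

/-- The `ℓ¹` norm. -/
noncomputable def l1 (f : MA G) : ℝ := ∑ x ∈ f.coeff.support, |f.coeff x|

theorem l1_eq_of_subset {f : MA G} {s : Finset G} (h : f.coeff.support ⊆ s) :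
    l1 f = ∑ x ∈ s, |f.coeff x| := by
  unfold l1
  apply Finset.sum_subset h
  intro x _ hx
  rw [Finsupp.notMem_support_iff.mp hx, abs_zero]

theorem l1_nonneg (f : MA G) : 0 ≤ l1 f := Finset.sum_nonneg fun _ _ => abs_nonneg _

theorem l1_add_le (f h : MA G) : l1 (f + h) ≤ l1 f + l1 h := by
  classical
  have h1 : f.coeff.support ⊆ f.coeff.support ∪ h.coeff.support := Finset.subset_union_left
  have h2 : h.coeff.support ⊆ f.coeff.support ∪ h.coeff.support := Finset.subset_union_right
  have h3 : (f + h).coeff.support ⊆ f.coeff.support ∪ h.coeff.support := by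
    rw [AddMonoidAlgebra.coeff_add]; exact Finsupp.support_add
  rw [l1_eq_of_subset h1, l1_eq_of_subset h2, l1_eq_of_subset h3, ← Finset.sum_add_distrib]
  refine Finset.sum_le_sum fun x _ => ?_
  rw [AddMonoidAlgebra.coeff_add, Finsupp.add_apply]
  exact abs_add_le _ _

theorem l1_neg (f : MA G) : l1 (-f) = l1 f := by
  unfold l1
  have h1 : (-f).coeff = -f.coeff := rfl
  rw [h1, Finsupp.support_neg]
  exact Finset.sum_congr rfl fun x _ => by rw [Finsupp.neg_apply, abs_neg]

theorem l1_sub_le (f h : MA G) : l1 (f - h) ≤ l1 f + l1 h := by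
  rw [sub_eq_add_neg]
  have := l1_add_le f (-h)
  rwa [l1_neg] at this

theorem l1_pos {f : MA G} (hf : Pos f) : l1 f = I f (fun _ => 1) := by
  unfold l1 I
  exact Finset.sum_congr rfl fun x _ => by rw [abs_of_nonneg (hf x), mul_one]

/-- From `ℓ²` to `ℓ¹` on a set of controlled size. -/
theorem l1_le_of_l2 [DecidableEq G] {A E : MA G} (hA : Pos A) (hE : Pos E) (hAE : ∀ x, A.coeff x ≤ E.coeff x)
    (t : G) (T : Finset G) {B : ℝ} (hB : 0 ≤ B)
    (h2 : 2 * (T.card : ℝ) * nsq (A - AddMonoidAlgebra.single t 1 * A) ≤ B ^ 2) :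
    l1 (A - AddMonoidAlgebra.single t 1 * A) ≤
      B + 2 * I E (fun y => if y ∈ T then 0 else 1) := by
  set Ψ := A - AddMonoidAlgebra.single t 1 * A with hΨ
  have hcoeff : ∀ x, Ψ.coeff x = A.coeff x - A.coeff (x - t) := by
    intro x
    have : Ψ.coeff x = A.coeff x - (AddMonoidAlgebra.single t 1 * A).coeff x := rfl
    rw [this, coeff_single_mul, one_mul]
  set U := T ∪ T.image (fun x => x + t) with hU
  set V := Ψ.coeff.support ∪ U with hV
  have hsub : Ψ.coeff.support ⊆ V := Finset.subset_union_left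
  have hUV : U ⊆ V := Finset.subset_union_right
  rw [l1_eq_of_subset hsub, ← Finset.sum_sdiff hUV]
  have hUcard : (U.card : ℝ) ≤ 2 * T.card := by
    have h1 : U.card ≤ T.card + (T.image (fun x => x + t)).card := Finset.card_union_le _ _
    have h3 : (T.image (fun x => x + t)).card ≤ T.card := Finset.card_image_le
    have : U.card ≤ 2 * T.card := by omega
    exact_mod_cast this
  have part1 : ∑ x ∈ U, |Ψ.coeff x| ≤ B := by
    have h3 : (∑ x ∈ U, |Ψ.coeff x|) ^ 2 ≤ B ^ 2 := by
      calc (∑ x ∈ U, |Ψ.coeff x|) ^ 2 ≤ U.card * ∑ x ∈ U, |Ψ.coeff x| ^ 2 :=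
            sq_sum_le_card_mul_sum_sq
        _ = U.card * ∑ x ∈ U, (Ψ.coeff x) ^ 2 := by
            congr 1; exact Finset.sum_congr rfl fun x _ => sq_abs _
        _ ≤ (2 * T.card) * nsq Ψ := by
            apply mul_le_mul hUcard _ (Finset.sum_nonneg fun _ _ => sq_nonneg _) (by positivity)
            rw [nsq_eq_of_subset hsub]
            exact Finset.sum_le_sum_of_subset_of_nonneg hUV fun _ _ _ => sq_nonneg _
        _ ≤ B ^ 2 := h2
    exact abs_le_of_sq_le_sq' h3 hB |>.2
  have part2 : ∑ x ∈ V \ U, |Ψ.coeff x| ≤ 2 * I E (fun y => if y ∈ T then 0 else 1) := by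
    have h3 : ∀ x ∈ V \ U, |Ψ.coeff x| ≤
        E.coeff x * (if x ∈ T then 0 else 1) +
        E.coeff (x - t) * (if x - t ∈ T then 0 else 1) := by
      intro x hx
      have hxU : x ∉ U := (Finset.mem_sdiff.mp hx).2
      have hxT : x ∉ T := fun h => hxU (Finset.mem_union_left _ h)
      have hxT' : x - t ∉ T := fun h => hxU (Finset.mem_union_right _
        (Finset.mem_image.mpr ⟨x - t, h, by abel⟩))
      rw [if_neg hxT, if_neg hxT', mul_one, mul_one, hcoeff]
      have h4 := hA x
      have h5 := hA (x - t)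
      have h6 := hAE x
      have h7 := hAE (x - t)
      rw [abs_le]
      constructor <;> linarith
    refine le_trans (Finset.sum_le_sum h3) ?_
    rw [Finset.sum_add_distrib, two_mul]
    have hind : ∀ x : G, (0 : ℝ) ≤ (if x ∈ T then 0 else 1) := fun x => by
      split_ifs <;> norm_num
    apply add_le_add
    · exact sum_le_I hE _ hind
    · have : ∑ x ∈ V \ U, E.coeff (x - t) * (if x - t ∈ T then (0 : ℝ) else 1) =
          ∑ x ∈ (V \ U).image (fun x => x - t), E.coeff x * (if x ∈ T then 0 else 1) := by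
        rw [Finset.sum_image]
        intro a _ b _ hab
        simpa using hab
      rw [this]
      exact sum_le_I hE _ hind
  linarith

end

/-- **Almost periodicity.**  If the entropy increment from `μ^(m+1)` to `μ^(m+2)` is at most `1`
and `μ` has large entropy, then `μ^(m+2)` is almost invariant under some nonzero translation. -/
theorem smoothing (m : ℕ) {δ : ℝ} (hδ : 0 < δ) : ∃ C : ℝ, ∀ (G : Type u) [AddCommGroup G]
    (μ : MA G), IsProb μ → H (μ ^ (m + 2)) - H (μ ^ (m + 1)) ≤ 1 → C ≤ H μ →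
    ∃ t : G, t ≠ 0 ∧ l1 (μ ^ (m + 2) - AddMonoidAlgebra.single t 1 * μ ^ (m + 2)) ≤ δ := by
  classical
  -- parameters
  set δ' := min δ 1 with hδ'
  have hδ'0 : 0 < δ' := lt_min hδ one_pos
  have hδ'1 : δ' ≤ 1 := min_le_right _ _
  set p := δ' / 8 with hp
  have hp0 : 0 < p := by positivity
  have hp1 : p ≤ 1 := by rw [hp]; linarith
  set K : ℝ := m + 2 with hK
  have hK0 : 0 ≤ K := by positivity
  set τ := 8 * (K + 2) / (p * δ') with hτ
  have hτ0 : 0 < τ := by positivity
  have hτ' : (K + 2) / (p * τ) = δ' / 8 := by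
    rw [hτ]; field_simp
  set θ := δ' ^ 2 / (8 * Real.exp τ) with hθ
  have hθ0 : 0 < θ := by positivity
  obtain ⟨k, hk⟩ := exists_nat_ge (4 ^ (m + 2) / θ ^ (m + 1) + 1 : ℝ)
  have hkR : (0 : ℝ) < k := lt_of_lt_of_le (by positivity) hk
  have hk0 : 0 < k := by exact_mod_cast hkR
  have hkθ : 4 ^ (m + 2) / (k : ℝ) ≤ θ ^ (m + 1) := by
    rw [div_le_iff₀ hkR]
    have : 4 ^ (m + 2) / θ ^ (m + 1) ≤ (k : ℝ) := by linarith
    rw [div_le_iff₀ (by positivity)] at this
    linarith
  refine ⟨4 / 3 * (k * (m + 2) + 1 / 4) + 1, ?_⟩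
  intro G _ μ hμ hinc hC
  set F := μ ^ (m + 1) with hFdef
  have hF : IsProb F := hμ.pow _
  set E := μ ^ (m + 2) with hEdef
  have hE : IsProb E := hμ.pow _
  have hEF : E = μ * F := by rw [hEdef, hFdef]; ring
  have hinc' : H (μ ^ (m + 1 + 1)) - H (μ ^ (m + 1)) ≤ 1 := hinc
  have hHF : H μ ≤ H F := by
    have : F = μ ^ m * μ := by rw [hFdef]; ring
    rw [this]; exact H_le_H_mul (hμ.pow _) hμ
  have hFF : H (F * F) - H F ≤ m + 1 := by
    have h1 := H_pow_add_sub_le hμ hinc' (m + 1)
    have e1 : μ ^ (m + 1 + (m + 1)) = F * F := by rw [hFdef]; ring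
    rw [e1] at h1
    push_cast at h1
    linarith
  have hEFK : H (E * F) - H F ≤ K := by
    have h1 := H_pow_add_sub_le hμ hinc' (m + 2)
    have e1 : μ ^ (m + 1 + (m + 2)) = E * F := by rw [hFdef, hEdef]; ring
    rw [e1] at h1
    push_cast at h1
    linarith
  obtain ⟨c, hc, hcp, hpc⟩ := quantile hF hp0 hp1
  obtain ⟨T, hTcard, hTE⟩ := typical hE hF hK0 hEFK hc hp0 hτ0 hpc
  rw [hτ'] at hTE
  -- truncation
  set R := restr F (fun x => F.coeff x ≤ c) with hRdef
  have hR : Pos R := hF.pos.restr _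
  have hRcoeff : ∀ x, R.coeff x = if F.coeff x ≤ c then F.coeff x else 0 := fun x =>
    coeff_restr _ _ _
  have hRF : ∀ x, R.coeff x ≤ F.coeff x := by
    intro x; rw [hRcoeff]; split_ifs
    · exact le_rfl
    · exact hF.pos x
  have hRc : ∀ x, R.coeff x ≤ c := by
    intro x; rw [hRcoeff]; split_ifs with h
    · exact h
    · exact hc.le
  have hRnsq : nsq R ≤ c := by
    have h1 : nsq R ≤ I R (fun _ => c) := I_mono hR fun x _ => hRc x
    have h2 : I R (fun _ => (1 : ℝ)) ≤ 1 := by
      exact le_trans (I_le_of_coeff_le hRF (fun _ => zero_le_one)) hF.total.le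
    rw [I_const] at h1
    nlinarith
  -- the good tuples
  set Good : (Fin k → G) → Prop := fun y => nsq (trSum R y - (k : ℝ) • (F * R)) ≤ 4 * k * c
    with hGood
  have hgood := good_prob hF R hk0 hc hRnsq
  -- two good tuples which are translates of each other
  obtain ⟨y, t, hy, hyt, ht⟩ : ∃ (y : Fin k → G) (t : G), Good y ∧ Good (fun i => y i + t) ∧
      t ≠ 0 := by
    by_contra hcon
    push Not at hcon
    have hpig := pigeonhole hF k Good hgood hcon
    have h1 : (k : ℝ) * (H (F * F) - H F + 1) ≤ k * (m + 2) :=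
      mul_le_mul_of_nonneg_left (by linarith) hkR.le
    linarith
  refine ⟨t, ht, ?_⟩
  set Tt : MA G := AddMonoidAlgebra.single t 1 with hTt
  -- square norms
  set Φ := R - Tt * R with hΦ
  set N : ℕ → ℝ := fun j => nsq (μ ^ j * Φ) with hN
  have hN0 : ∀ j, 0 ≤ N j := fun j => nsq_nonneg _
  have hNconv : ∀ j, (N (j + 1)) ^ 2 ≤ N j * N (j + 2) := by
    intro j
    have h1 := nsq_log_convex μ (μ ^ j * Φ)
    have e1 : μ * (μ ^ j * Φ) = μ ^ (j + 1) * Φ := by ring
    have e2 : μ * (μ ^ (j + 1) * Φ) = μ ^ (j + 2) * Φ := by ring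
    rw [e1, e2] at h1
    exact h1
  have hNz : N 0 ≤ 4 * c := by
    have h1 : N 0 = nsq (R - Tt * R) := by simp only [hN, hΦ, pow_zero, one_mul]
    rw [h1]
    refine (nsq_sub_le _ _).trans ?_
    rw [hTt, nsq_single_mul]
    linarith
  have hNm : N (m + 1) ≤ 16 * c / k := by
    have h1 : (k : ℝ) • (μ ^ (m + 1) * Φ) =
        Tt * (trSum R y - (k : ℝ) • (F * R)) -
        (trSum R (fun i => y i + t) - (k : ℝ) • (F * R)) := by
      rw [trSum_shift, ← hTt, hΦ, ← hFdef]
      rw [mul_sub, mul_sub, smul_sub, mul_smul_comm]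
      have : F * (Tt * R) = Tt * (F * R) := by ring
      rw [this]
      abel
    have h2 : nsq ((k : ℝ) • (μ ^ (m + 1) * Φ)) ≤ 16 * k * c := by
      rw [h1]
      refine (nsq_sub_le _ _).trans ?_
      rw [hTt, nsq_single_mul]
      have h3 : nsq (trSum R y - (k : ℝ) • (F * R)) ≤ 4 * k * c := hy
      have h4 : nsq (trSum R (fun i => y i + t) - (k : ℝ) • (F * R)) ≤ 4 * k * c := hyt
      linarith
    rw [nsq_smul] at h2
    rw [le_div_iff₀ hkR]
    have h3 : (k : ℝ) * (N (m + 1) * k) ≤ k * (16 * c) := by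
      calc (k : ℝ) * (N (m + 1) * k) = (k : ℝ) ^ 2 * nsq (μ ^ (m + 1) * Φ) := by
            simp only [hN]; ring
        _ ≤ 16 * k * c := h2
        _ = k * (16 * c) := by ring
    exact le_of_mul_le_mul_left h3 hkR
  have hN1 : N 1 ≤ θ * c := by
    by_contra hcon
    push Not at hcon
    have h1 : (θ * c) ^ (m + 1) < (N 1) ^ (m + 1) :=
      pow_lt_pow_left₀ hcon (by positivity) (by omega)
    have h2 := log_convex_seq hN0 hNconv m
    have h3 : (N 0) ^ m * N (m + 1) ≤ (4 * c) ^ m * (16 * c / k) :=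
      mul_le_mul (pow_le_pow_left₀ (hN0 0) hNz m) hNm (hN0 _) (by positivity)
    have h4 : (4 * c) ^ m * (16 * c / k) = (4 ^ (m + 2) / k) * c ^ (m + 1) := by
      rw [mul_pow]; ring
    have h5 : (4 ^ (m + 2) / (k : ℝ)) * c ^ (m + 1) ≤ θ ^ (m + 1) * c ^ (m + 1) :=
      mul_le_mul_of_nonneg_right hkθ (by positivity)
    rw [mul_pow] at h1
    linarith
  -- the main part
  set A := μ * R with hA
  have hApos : Pos A := hμ.pos.mul hR
  have hAE : ∀ x, A.coeff x ≤ E.coeff x := by
    intro x
    rw [hA, hEF, coeff_mul_eq, coeff_mul_eq]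
    exact I_mono hμ.pos fun y _ => hRF _
  have hΨ : A - Tt * A = μ ^ 1 * Φ := by rw [hA, hΦ]; ring
  have hl1 : l1 (A - Tt * A) ≤ δ' / 2 + 2 * I E (fun y => if y ∈ T then 0 else 1) := by
    apply l1_le_of_l2 hApos hE.pos hAE t T (by positivity)
    rw [← hTt, hΨ]
    have h1 : nsq (μ ^ 1 * Φ) = N 1 := rfl
    rw [h1]
    calc 2 * (T.card : ℝ) * N 1 ≤ 2 * (Real.exp τ / c) * (θ * c) :=
          mul_le_mul (by linarith) hN1 (hN0 1) (by positivity)
      _ = (δ' / 2) ^ 2 := by
          rw [hθ]; field_simp; ring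
  -- the remainder
  set R2 := F - R with hR2
  have hR2pos : Pos R2 := by
    intro x
    have : R2.coeff x = F.coeff x - R.coeff x := rfl
    rw [this]; linarith [hRF x]
  have hR2mass : I R2 (fun _ => 1) ≤ p := by
    refine le_trans (le_of_eq ?_) hcp
    rw [hR2, I_sub_left, hRdef, I_restr, ← I_sub_right]
    refine I_congr fun x _ => ?_
    by_cases h : F.coeff x ≤ c
    · rw [if_pos h, if_neg (not_lt.mpr h)]; ring
    · rw [if_neg h, if_pos (not_le.mp h)]; ring
  have hsplit : E - Tt * E = (A - Tt * A) + (μ * R2 - Tt * (μ * R2)) := by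
    rw [hEF, hA, hR2]; ring
  have hrem : l1 (μ * R2 - Tt * (μ * R2)) ≤ 2 * p := by
    refine (l1_sub_le _ _).trans ?_
    have h1 : Pos (μ * R2) := hμ.pos.mul hR2pos
    have h2 : Pos (Tt * (μ * R2)) := (IsProb.single t).pos.mul h1
    rw [l1_pos h1, l1_pos h2]
    have h3 : I (Tt * (μ * R2)) (fun _ => 1) = I (μ * R2) (fun _ => 1) := by
      rw [I_mul, hTt, I_single]; ring
    have h4 : I (μ * R2) (fun _ => (1 : ℝ)) = I R2 (fun _ => 1) := by
      rw [I_mul, hμ.const]
    rw [h3, h4]; linarith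
  calc l1 (E - Tt * E) ≤ l1 (A - Tt * A) + l1 (μ * R2 - Tt * (μ * R2)) := by
        rw [hsplit]; exact l1_add_le _ _
    _ ≤ (δ' / 2 + 2 * I E (fun y => if y ∈ T then 0 else 1)) + 2 * p := add_le_add hl1 hrem
    _ ≤ δ' / 2 + 2 * (δ' / 8) + 2 * (δ' / 8) := by
        have := mul_le_mul_of_nonneg_left hTE (by norm_num : (0 : ℝ) ≤ 2)
        rw [hp]; linarith
    _ = δ' := by ring
    _ ≤ δ := min_le_left _ _

end Pool.Agent.W_MP_b45167_pr
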