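import Pool.Agent.W_MP_b45167_pr.Entropy

/-!
# Expectations over tuples of independent variables
-/

namespace Pool.Agent.W_MP_b45167_pr

open Finset

variable {ι : Type*} [Fintype ι]

/-- Expectation over `n` independent samples with weights `w`. -/
noncomputable def En (w : ι → ℝ) (n : ℕ) (f : (Fin n → ι) → ℝ) : ℝ :=
  ∑ y : Fin n → ι, (∏ k, w (y k)) * f y

variable {w : ι → ℝ} {n : ℕ}

theorem En_add (f h : (Fin n → ι) → ℝ) :
    En w n (fun y => f y + h y) = En w n f + En w n h := by
  simp only [En, mul_add, Finset.sum_add_distrib]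

theorem En_sub (f h : (Fin n → ι) → ℝ) :
    En w n (fun y => f y - h y) = En w n f - En w n h := by
  simp only [En, mul_sub, Finset.sum_sub_distrib]

theorem En_mul_left (c : ℝ) (f : (Fin n → ι) → ℝ) :
    En w n (fun y => c * f y) = c * En w n f := by
  simp only [En, Finset.mul_sum]
  exact Finset.sum_congr rfl fun y _ => by ring

theorem En_mul_right (c : ℝ) (f : (Fin n → ι) → ℝ) :
    En w n (fun y => f y * c) = En w n f * c := by
  simp only [En, Finset.sum_mul]
  exact Finset.sum_congr rfl fun y _ => by ring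

theorem En_sum {κ : Type*} (s : Finset κ) (f : κ → (Fin n → ι) → ℝ) :
    En w n (fun y => ∑ i ∈ s, f i y) = ∑ i ∈ s, En w n (f i) := by
  simp only [En, Finset.mul_sum]
  rw [Finset.sum_comm]

theorem En_mono (hw : ∀ a, 0 ≤ w a) {f h : (Fin n → ι) → ℝ} (hfh : ∀ y, f y ≤ h y) :
    En w n f ≤ En w n h :=
  Finset.sum_le_sum fun y _ =>
    mul_le_mul_of_nonneg_left (hfh y) (Finset.prod_nonneg fun _ _ => hw _)

theorem En_nonneg (hw : ∀ a, 0 ≤ w a) {f : (Fin n → ι) → ℝ} (hf : ∀ y, 0 ≤ f y) :
    0 ≤ En w n f :=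
  Finset.sum_nonneg fun y _ => mul_nonneg (Finset.prod_nonneg fun _ _ => hw _) (hf y)

theorem En_insertNth (i : Fin (n + 1)) (f : (Fin (n + 1) → ι) → ℝ) :
    En w (n + 1) f = ∑ a, w a * En w n (fun y => f (i.insertNth a y)) := by
  unfold En
  rw [← Equiv.sum_comp (Fin.insertNthEquiv (fun _ => ι) i), Fintype.sum_prod_type]
  refine Finset.sum_congr rfl fun a _ => ?_
  rw [Finset.mul_sum]
  refine Finset.sum_congr rfl fun y _ => ?_
  simp only [Fin.insertNthEquiv, Equiv.coe_fn_mk]
  rw [Fin.prod_univ_succAbove _ i]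
  simp only [Fin.insertNth_apply_same, Fin.insertNth_apply_succAbove]
  ring

theorem En_const (hw : ∑ a, w a = 1) (c : ℝ) : En w n (fun _ => c) = c := by
  induction n with
  | zero => simp [En]
  | succ n ih =>
    rw [En_insertNth 0]
    simp only [ih]
    rw [← Finset.sum_mul, hw, one_mul]

theorem En_eval (hw : ∑ a, w a = 1) (i : Fin n) (φ : ι → ℝ) :
    En w n (fun y => φ (y i)) = ∑ a, w a * φ a := by
  cases n with
  | zero => exact i.elim0
  | succ n =>
    rw [En_insertNth i]
    refine Finset.sum_congr rfl fun a _ => ?_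
    simp only [Fin.insertNth_apply_same]
    rw [En_const hw]

theorem En_pair (hw : ∑ a, w a = 1) {i j : Fin n} (hij : i ≠ j) (φ : ι → ι → ℝ) :
    En w n (fun y => φ (y i) (y j)) = ∑ a, w a * ∑ b, w b * φ a b := by
  cases n with
  | zero => exact i.elim0
  | succ n =>
    obtain ⟨j', rfl⟩ := Fin.exists_succAbove_eq (Ne.symm hij)
    rw [En_insertNth i]
    refine Finset.sum_congr rfl fun a _ => ?_
    simp only [Fin.insertNth_apply_same, Fin.insertNth_apply_succAbove]
    rw [En_eval hw]

section measure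

variable {G : Type*} [AddCommGroup G]

/-- The index type of the support. -/
abbrev Sup (f : MA G) : Type _ := {x // x ∈ f.coeff.support}

/-- The weights on the support. -/
noncomputable def wt (f : MA G) : Sup f → ℝ := fun a => f.coeff a.1

omit [AddCommGroup G] in
theorem wt_nonneg {f : MA G} (hf : Pos f) (a : Sup f) : 0 ≤ wt f a := hf _

omit [AddCommGroup G] in
theorem I_eq_wt (f : MA G) (φ : G → ℝ) : I f φ = ∑ a : Sup f, wt f a * φ a.1 := by
  unfold I wt
  rw [← Finset.sum_coe_sort]

omit [AddCommGroup G] in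
theorem wt_sum {f : MA G} (hf : IsProb f) : ∑ a, wt f a = 1 := by
  have := hf.total
  rw [I_eq_wt] at this
  simpa using this

/-- The law of the sum of `n` independent samples is the `n`-th convolution power. -/
theorem I_pow (f : MA G) (n : ℕ) (φ : G → ℝ) :
    I (f ^ n) φ = En (wt f) n (fun y => φ (∑ k, (y k : G))) := by
  induction n generalizing φ with
  | zero =>
    rw [pow_zero, I_one]
    simp [En]
  | succ n ih =>
    rw [pow_succ', I_mul, I_eq_wt, En_insertNth 0]
    refine Finset.sum_congr rfl fun a _ => ?_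
    rw [ih]
    congr 2
    ext y
    rw [Fin.sum_univ_succAbove _ 0]
    simp only [Fin.insertNth_apply_same, Fin.insertNth_apply_succAbove]

end measure

end Pool.Agent.W_MP_b45167_pr
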