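import Pool.Agent.W_MP_b45167_pr.Fisher

/-!
# The variance drop inequality for the discrete Fisher information
-/

namespace Pool.Agent.W_MP_b45167_pr

open Finset

set_option linter.unusedSectionVars false

variable {G : Type*} [AddCommGroup G]

/-- Averaging operator. -/
noncomputable def P (μ : MA G) (φ : G → ℝ) (s : G) : ℝ := I μ (fun a => φ (a + s))

theorem interaction {μ : MA G} (hμ : IsProb μ) (k : G → G → ℝ) (hk : ∀ a b, k a b = k b a) :
    0 ≤ I μ (fun a => I μ (fun b => (k a b) ^ 2)) -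
      2 * I μ (fun b => (I μ (fun a => k a b)) ^ 2) +
      (I μ (fun b => I μ (fun a => k a b))) ^ 2 := by
  set r : G → ℝ := fun b => I μ (fun a => k a b) with hr
  set κ := I μ r with hκ
  have h0 : 0 ≤ I μ (fun a => I μ (fun b => (k a b - r a - r b + κ) ^ 2)) :=
    I_nonneg hμ.pos fun a _ => I_nonneg hμ.pos fun b _ => sq_nonneg _
  have h1 : ∀ a b, (k a b - r a - r b + κ) ^ 2 =
      (k a b) ^ 2 + (r b) ^ 2 + (-2) * (k a b * r b) + (2 * κ - 2 * r a) * k a b +
      (2 * r a - 2 * κ) * r b + (r a - κ) ^ 2 := fun a b => by ring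
  have h2 : ∀ a, I μ (fun b => k a b) = r a := fun a => by
    simp only [hr]
    exact congrArg _ (funext fun b => hk a b)
  have h3 : ∀ a, I μ (fun b => (k a b - r a - r b + κ) ^ 2) =
      I μ (fun b => (k a b) ^ 2) + I μ (fun b => (r b) ^ 2) +
      (-2) * I μ (fun b => k a b * r b) + (2 * κ - 2 * r a) * r a +
      (2 * r a - 2 * κ) * κ + (r a - κ) ^ 2 := by
    intro a
    simp only [h1]
    rw [I_add_right, I_add_right, I_add_right, I_add_right, I_add_right, I_mul_left,
      I_mul_left, I_mul_left, h2, hμ.const]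
  have h4 : I μ (fun a => I μ (fun b => k a b * r b)) = I μ (fun b => (r b) ^ 2) := by
    rw [I_comm]
    refine I_congr fun b _ => ?_
    rw [I_mul_right]
    simp only [hr]; ring
  have h5 : ∀ a, I μ (fun b => (k a b) ^ 2) + I μ (fun b => (r b) ^ 2) +
      (-2) * I μ (fun b => k a b * r b) + (2 * κ - 2 * r a) * r a +
      (2 * r a - 2 * κ) * κ + (r a - κ) ^ 2 =
      I μ (fun b => (k a b) ^ 2) + (-2) * I μ (fun b => k a b * r b) + (-1) * (r a) ^ 2 +
      2 * κ * r a + (I μ (fun b => (r b) ^ 2) - κ ^ 2) := fun a => by ring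
  simp only [h3, h5] at h0
  rw [I_add_right, I_add_right, I_add_right, I_add_right, I_mul_left, I_mul_left, I_mul_left,
    h4, hμ.const] at h0
  rw [← hκ] at h0
  linarith

/-- The iterated second moments. -/
noncomputable def Am (μ : MA G) (φ : G → ℝ) (i j : ℕ) : ℝ :=
  I (μ ^ i) (fun s => ((P μ)^[j] φ s) ^ 2)

theorem Am_convex {μ : MA G} (hμ : IsProb μ) (φ : G → ℝ) (i j : ℕ) :
    Am μ φ (i + 1) (j + 1) - Am μ φ i (j + 2) ≤
      Am μ φ (i + 2) j - Am μ φ (i + 1) (j + 1) := by
  unfold Am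
  set h := (P μ)^[j] φ with hh
  have e1 : (P μ)^[j + 1] φ = P μ h := Function.iterate_succ_apply' _ _ _
  have e2 : (P μ)^[j + 2] φ = P μ (P μ h) := by
    rw [Function.iterate_succ_apply', e1]
  rw [e1, e2]
  have t1 : I (μ ^ (i + 2)) (fun s => (h s) ^ 2) =
      I (μ ^ i) (fun s => I μ (fun a => I μ (fun b => (h (a + (b + s))) ^ 2))) := by
    have : μ ^ (i + 2) = μ ^ i * (μ * μ) := by ring
    rw [this, I_mul]
    refine I_congr fun s _ => ?_
    rw [I_mul]
    refine I_congr fun a _ => I_congr fun b _ => ?_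
    congr 2; abel
  have t2 : I (μ ^ (i + 1)) (fun s => (P μ h s) ^ 2) =
      I (μ ^ i) (fun s => I μ (fun b => (I μ (fun a => h (a + (b + s)))) ^ 2)) := by
    have : μ ^ (i + 1) = μ ^ i * μ := by ring
    rw [this, I_mul]
    refine I_congr fun s _ => I_congr fun b _ => ?_
    unfold P
    congr 1
    refine I_congr fun a _ => ?_
    congr 1; abel
  have t3 : I (μ ^ i) (fun s => (P μ (P μ h) s) ^ 2) =
      I (μ ^ i) (fun s => (I μ (fun b => I μ (fun a => h (a + (b + s))))) ^ 2) := rfl
  rw [t1, t2, t3]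
  have key : 0 ≤ I (μ ^ i) (fun s =>
      I μ (fun a => I μ (fun b => (h (a + (b + s))) ^ 2)) -
      2 * I μ (fun b => (I μ (fun a => h (a + (b + s)))) ^ 2) +
      (I μ (fun b => I μ (fun a => h (a + (b + s))))) ^ 2) := by
    refine I_nonneg (hμ.pow i).pos fun s _ => ?_
    exact interaction hμ (fun a b => h (a + (b + s))) fun a b => by
      congr 1; abel
  rw [I_add_right, I_sub_right, I_mul_left] at key
  linarith

theorem convex_seq {f : ℕ → ℝ} {m : ℕ}
    (hf : ∀ j, j + 2 ≤ m → f (j + 1) - f (j + 2) ≤ f j - f (j + 1)) :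
    f 0 - f m ≤ m * (f 0 - f 1) := by
  have h1 : ∀ j, j + 1 ≤ m → f j - f (j + 1) ≤ f 0 - f 1 := by
    intro j
    induction j with
    | zero => intro _; exact le_rfl
    | succ j ih =>
      intro hj
      exact (hf j hj).trans (ih (by omega))
  have h2 : ∀ j, j ≤ m → f 0 - f j ≤ j * (f 0 - f 1) := by
    intro j
    induction j with
    | zero => intro _; simp
    | succ j ih =>
      intro hj
      have a := ih (by omega)
      have b := h1 j hj
      push_cast
      linarith
  exact h2 m le_rfl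

theorem P_iterate (μ : MA G) (φ : G → ℝ) (j : ℕ) (s : G) :
    (P μ)^[j] φ s = I (μ ^ j) (fun x => φ (x + s)) := by
  induction j generalizing s with
  | zero => simp [I_one]
  | succ j ih =>
    rw [Function.iterate_succ_apply', pow_succ', I_mul]
    unfold P
    refine I_congr fun a _ => ?_
    have := ih (a + s)
    unfold P at this
    rw [this]
    refine I_congr fun x _ => ?_
    congr 1; abel

/-- Efron-Stein type inequality. -/
theorem efron_stein {μ : MA G} (hμ : IsProb μ) (φ : G → ℝ) (m : ℕ) :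
    ((m : ℝ) + 1) * I (μ ^ m) (fun s => (P μ φ s) ^ 2) ≤
      m * I (μ ^ (m + 1)) (fun s => (φ s) ^ 2) + (I (μ ^ (m + 1)) φ) ^ 2 := by
  have h := convex_seq (f := fun j => Am μ φ (m + 1 - j) j) (m := m + 1) (by
    intro j hj
    have := Am_convex hμ φ (m + 1 - (j + 2)) j
    have e1 : m + 1 - (j + 2) + 1 = m + 1 - (j + 1) := by omega
    have e2 : m + 1 - (j + 2) + 2 = m + 1 - j := by omega
    rw [e1, e2] at this
    exact this)
  have f0 : Am μ φ (m + 1 - 0) 0 = I (μ ^ (m + 1)) (fun s => (φ s) ^ 2) := rfl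
  have f1 : Am μ φ (m + 1 - 1) 1 = I (μ ^ m) (fun s => (P μ φ s) ^ 2) := rfl
  have fm : Am μ φ (m + 1 - (m + 1)) (m + 1) = (I (μ ^ (m + 1)) φ) ^ 2 := by
    unfold Am
    rw [Nat.sub_self, pow_zero, I_one, P_iterate]
    simp only [add_zero]
  simp only [f0, f1, fm] at h
  push_cast at h
  linarith

/-- The basic inequality from `n` independent variables. -/
theorem tuple_ineq {μ : MA G} (hμ : IsProb μ) (φ ψ : G → ℝ) (m : ℕ) :
    0 ≤ ((m : ℝ) + 2) * I (μ ^ (m + 1)) (fun s => (φ s) ^ 2) +
      ((m : ℝ) + 2) * (m + 1) * I (μ ^ m) (fun s => (P μ φ s) ^ 2) -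
      2 * ((m : ℝ) + 2) ^ 2 * I μ (fun a => I (μ ^ (m + 1)) (fun s => ψ (a + s) * φ s)) +
      ((m : ℝ) + 2) ^ 2 * I (μ ^ (m + 2)) (fun s => (ψ s) ^ 2) := by
  set w := wt μ with hw
  have hw1 : ∑ a, w a = 1 := wt_sum hμ
  set S : (Fin (m + 2) → Sup μ) → G := fun y => ∑ k, (y k : G) with hS
  set n : ℝ := (m : ℝ) + 2 with hn
  have h0 : 0 ≤ En w (m + 2) (fun y => (∑ i, φ (S y - (y i : G)) - n * ψ (S y)) ^ 2) :=
    En_nonneg (wt_nonneg hμ.pos) fun y => sq_nonneg _
  have hexp : ∀ y, (∑ i, φ (S y - (y i : G)) - n * ψ (S y)) ^ 2 =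
      ∑ i, ∑ j, φ (S y - (y i : G)) * φ (S y - (y j : G)) -
      2 * n * ∑ i, ψ (S y) * φ (S y - (y i : G)) + n ^ 2 * (ψ (S y)) ^ 2 := by
    intro y
    rw [← Finset.mul_sum, ← Finset.sum_mul_sum]
    ring
  simp only [hexp] at h0
  rw [En_add, En_sub, En_mul_left, En_mul_left, En_sum, En_sum] at h0
  -- last term
  have e3 : En w (m + 2) (fun y => (ψ (S y)) ^ 2) = I (μ ^ (m + 2)) (fun s => (ψ s) ^ 2) :=
    (I_pow μ (m + 2) (fun s => (ψ s) ^ 2)).symm
  -- mixed terms
  have e2 : ∀ i ∈ (Finset.univ : Finset (Fin (m + 2))),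
      En w (m + 2) (fun y => ψ (S y) * φ (S y - (y i : G))) =
      I μ (fun a => I (μ ^ (m + 1)) (fun s => ψ (a + s) * φ s)) := by
    intro i _
    rw [En_insertNth i, I_eq_wt]
    refine Finset.sum_congr rfl fun a _ => ?_
    rw [I_pow]
    congr 2
    ext y
    simp only [hS]
    rw [Fin.sum_univ_succAbove _ i]
    simp only [Fin.insertNth_apply_same, Fin.insertNth_apply_succAbove]
    congr 2
    abel
  -- square terms
  have e1 : ∀ i ∈ (Finset.univ : Finset (Fin (m + 2))),
      En w (m + 2) (fun y => ∑ j, φ (S y - (y i : G)) * φ (S y - (y j : G))) =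
      I (μ ^ (m + 1)) (fun s => (φ s) ^ 2) + (m + 1) * I (μ ^ m) (fun s => (P μ φ s) ^ 2) := by
    intro i _
    rw [En_sum, ← Finset.add_sum_erase _ _ (Finset.mem_univ i)]
    congr 1
    · rw [En_insertNth i]
      have : ∀ a : Sup μ, w a * En w (m + 1) (fun y =>
          φ (S (i.insertNth a y) - ((i.insertNth a y : Fin (m + 2) → Sup μ) i : G)) *
          φ (S (i.insertNth a y) - ((i.insertNth a y : Fin (m + 2) → Sup μ) i : G))) =
          w a * I (μ ^ (m + 1)) (fun s => (φ s) ^ 2) := by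
        intro a
        rw [I_pow]
        congr 2
        ext y
        simp only [hS]
        rw [Fin.sum_univ_succAbove _ i]
        simp only [Fin.insertNth_apply_same, Fin.insertNth_apply_succAbove]
        rw [← sq]
        congr 2
        abel
      rw [Finset.sum_congr rfl fun a _ => this a, ← Finset.sum_mul, hw1, one_mul]
    · have hpair : ∀ j ∈ Finset.univ.erase i,
          En w (m + 2) (fun y => φ (S y - (y i : G)) * φ (S y - (y j : G))) =
          I (μ ^ m) (fun s => (P μ φ s) ^ 2) := by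
        intro j hj
        obtain ⟨j', rfl⟩ := Fin.exists_succAbove_eq (Finset.ne_of_mem_erase hj)
        rw [En_insertNth i]
        have hR : I (μ ^ m) (fun s => (P μ φ s) ^ 2) =
            I μ (fun a => I μ (fun b => I (μ ^ m) (fun s => φ (b + s) * φ (a + s)))) := by
          have t1 : ∀ s, (P μ φ s) ^ 2 = I μ (fun a => I μ (fun b => φ (b + s) * φ (a + s))) := by
            intro s
            have : ∀ a, I μ (fun b => φ (b + s) * φ (a + s)) = P μ φ s * φ (a + s) := fun a => by
              rw [I_mul_right]; rfl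
            simp only [this]
            rw [I_mul_left, sq]; rfl
          simp only [t1]
          rw [I_comm]
          refine I_congr fun a _ => ?_
          rw [I_comm]
        rw [hR, I_eq_wt μ]
        refine Finset.sum_congr rfl fun a _ => ?_
        rw [En_insertNth j', I_eq_wt μ]
        congr 1
        refine Finset.sum_congr rfl fun b _ => ?_
        rw [I_pow]
        congr 2
        ext y
        simp only [hS]
        rw [Fin.sum_univ_succAbove _ i]
        simp only [Fin.insertNth_apply_same, Fin.insertNth_apply_succAbove]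
        rw [Fin.sum_univ_succAbove _ j']
        simp only [Fin.insertNth_apply_same, Fin.insertNth_apply_succAbove]
        congr 2 <;> abel
      rw [Finset.sum_congr rfl hpair, Finset.sum_const, Finset.card_erase_of_mem (Finset.mem_univ i),
        Finset.card_univ, Fintype.card_fin, nsmul_eq_mul]
      push_cast
      norm_num
  rw [Finset.sum_congr rfl e1, Finset.sum_congr rfl e2, e3] at h0
  rw [Finset.sum_const, Finset.sum_const, Finset.card_univ, Fintype.card_fin, nsmul_eq_mul,
    nsmul_eq_mul] at h0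
  push_cast at h0
  rw [← hn] at h0
  refine h0.trans (le_of_eq ?_)
  ring

/-- **Variance drop** for the discrete Fisher information. -/
theorem variance_drop (g : G) {μ : MA G} (hμ : IsProb μ) (m : ℕ) :
    ((m : ℝ) + 2) * Kφ (fun t => t ^ 2) g (μ ^ (m + 2)) ≤
      (m + 1) * Kφ (fun t => t ^ 2) g (μ ^ (m + 1)) +
      (Kφ (fun t => t ^ 2) g (μ ^ (m + 1))) ^ 2 := by
  set v := μ ^ (m + 1) with hv
  set vn := μ ^ (m + 2) with hvn
  have hvp : IsProb v := hμ.pow _
  have hvnp : IsProb vn := hμ.pow _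
  have hvv : vn = μ * v := by rw [hv, hvn]; ring
  set K := Kφ (fun t => t ^ 2) g v with hK
  set Kn := Kφ (fun t => t ^ 2) g vn with hKn
  set u := U g v with hu
  set un := U g vn with hun
  -- two shifts
  have T0 := tuple_ineq hμ u un m
  have T1 := tuple_ineq hμ (fun x => u (x + g)) (fun x => un (x + g)) m
  rw [← hv, ← hvn] at T0 T1
  -- second moments
  have a1 : I v (fun s => (u s) ^ 2) + I v (fun s => (u (s + g)) ^ 2) = 2 * K := by
    rw [← I_Sg g v (fun s => (u s) ^ 2), hK]
    unfold Kφ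
    ring
  have a2 : I vn (fun s => (un s) ^ 2) + I vn (fun s => (un (s + g)) ^ 2) = 2 * Kn := by
    rw [← I_Sg g vn (fun s => (un s) ^ 2), hKn]
    unfold Kφ
    ring
  -- the mixed term
  have a3 : I μ (fun a => I v (fun s => un (a + s) * u s)) +
      I μ (fun a => I v (fun s => un (a + s + g) * u (s + g))) = 2 * Kn := by
    rw [← I_add_right]
    have t1 : ∀ a, I v (fun s => un (a + s) * u s) + I v (fun s => un (a + s + g) * u (s + g)) =
        I (Dg g v) (fun s => un (a + s)) := by
      intro a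
      rw [← I_SgU hvp.pos, I_Sg]
      congr 1
      · exact I_congr fun s _ => by ring
      · refine I_congr fun s _ => ?_
        have : a + s + g = a + (s + g) := by abel
        rw [this]; ring
    simp only [t1]
    rw [← I_mul, ← Dg_mul, ← hvv, ← I_SgU hvnp.pos, hKn]
    unfold Kφ
    have : I (Sg g vn) (fun x => U g vn x * un x) = I (Sg g vn) (fun x => (U g vn x) ^ 2) :=
      I_congr fun x _ => by rw [hun]; ring
    rw [this]; ring
  -- Efron-Stein for the two shifts
  have E0 := efron_stein hμ u m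
  have E1 := efron_stein hμ (fun x => u (x + g)) m
  rw [← hv] at E0 E1
  -- the means
  have m1 : I v u + I v (fun s => u (s + g)) = 0 := by
    rw [← I_Sg g v u]
    have : I (Sg g v) u = I (Sg g v) (fun x => U g v x * 1) := I_congr fun x _ => by
      rw [hu]; ring
    rw [this, I_SgU hvp.pos, I_Dg]
    ring
  have m2 : I v u - I v (fun s => u (s + g)) = 2 * K := by
    rw [← I_Dg g v u, ← I_SgU hvp.pos, hK]
    unfold Kφ
    have : I (Sg g v) (fun x => U g v x * u x) = I (Sg g v) (fun x => (U g v x) ^ 2) :=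
      I_congr fun x _ => by rw [hu]; ring
    rw [this]; ring
  have m3 : I v u = K := by linarith
  have m4 : I v (fun s => u (s + g)) = -K := by linarith
  rw [m3] at E0
  rw [m4] at E1
  set X0 := I (μ ^ m) (fun s => (P μ u s) ^ 2)
  set X1 := I (μ ^ m) (fun s => (P μ (fun x => u (x + g)) s) ^ 2)
  set Y0 := I v (fun s => (u s) ^ 2)
  set Y1 := I v (fun s => (u (s + g)) ^ 2)
  set Z0 := I vn (fun s => (un s) ^ 2)
  set Z1 := I vn (fun s => (un (s + g)) ^ 2)
  set W0 := I μ (fun a => I v (fun s => un (a + s) * u s))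
  set W1 := I μ (fun a => I v (fun s => un (a + s + g) * u (s + g)))
  set n : ℝ := (m : ℝ) + 2 with hn
  have hnpos : 0 < n := by positivity
  -- sum of the two inequalities
  have S1 : 0 ≤ n * (Y0 + Y1) + n * ((m + 1) * (X0 + X1)) - 2 * n ^ 2 * (W0 + W1) +
      n ^ 2 * (Z0 + Z1) := by
    have : n * (Y0 + Y1) + n * ((m + 1) * (X0 + X1)) - 2 * n ^ 2 * (W0 + W1) +
      n ^ 2 * (Z0 + Z1) =
      (n * Y0 + n * (m + 1) * X0 - 2 * n ^ 2 * W0 + n ^ 2 * Z0) +
      (n * Y1 + n * (m + 1) * X1 - 2 * n ^ 2 * W1 + n ^ 2 * Z1) := by ring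
    rw [this]
    exact add_nonneg T0 T1
  rw [a1, a2, a3] at S1
  have S2 : (m + 1) * (X0 + X1) ≤ m * (2 * K) + 2 * K ^ 2 := by
    have : (m : ℝ) * (Y0 + Y1) = m * (2 * K) := by rw [a1]
    nlinarith [E0, E1]
  have S3 : 0 ≤ n * (2 * K + ((m : ℝ) * (2 * K) + 2 * K ^ 2) - 2 * n * Kn) := by
    have h1 : n * ((m + 1) * (X0 + X1)) ≤ n * ((m : ℝ) * (2 * K) + 2 * K ^ 2) :=
      mul_le_mul_of_nonneg_left S2 hnpos.le
    nlinarith [S1, h1]
  have S4 : 0 ≤ 2 * K + ((m : ℝ) * (2 * K) + 2 * K ^ 2) - 2 * n * Kn := by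
    by_contra hcon
    push Not at hcon
    have := mul_neg_of_pos_of_neg hnpos hcon
    linarith
  linarith

end Pool.Agent.W_MP_b45167_pr
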